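import Pool.Agent.H56.MN.Defs

/-!
# THEOREM M+ (no contracting scales, no hypothesis on the post-critical set): definitions

Plane: `Ts T` the target `T (D)` in the sphere; `NBt`: the pull backs of `Ts T` along the orbits of the points of `C` with at least `N`
critical times have a small critical pull back (as `NB`, for one target). `RegAt μ z`: the field `μ` is holomorphic near `z`.
Sphere: `Cl f a`: the critical points in the Julia set whose orbit closure meets the limit set of `a`. `Vk f φ k c`: the component at `c`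
of the preimage of `φ (k D)`. `Scl f a ε k φ 𝓤`: scales: small univalent `φ c` at `f c`, `c ∈ Cl f a`, and a set `𝓤` of small univalent discs
which meet `Om f a`, such that every nonempty closed subset of `Om f a` which is mapped into itself meets a `Vk f (φ c) k c` or a `T (k D)`,
`T ∈ 𝓤`. `Tg`: the targets. `CSX`: contraction of the returns with at least `N` critical times. `NCX`, `MXStm`: the property of the text and
the statement for the families.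
-/

set_option autoImplicit false

open Filter Topology Polynomial Metric Set MeasureTheory

namespace Pool.Agent.H56.MX

open Pool.Agent.H44.Fatou (rat)
open Pool.Agent.H32.BT (IsCrit)
open Pool.Agent.H44.RC (JS J6 Om CC)
open Pool.Agent.H3.UP (CE)
open Pool.Agent.H35.EX (chord)
open Pool.Agent.H56.MM (Unv Vp)

/-- the target `T (D)` in the sphere -/
def Ts (T : ℂ → ℂ) : Set (OnePoint ℂ) := (fun w : ℂ => ((T w : ℂ) : OnePoint ℂ)) '' ball 0 1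

/-- pull backs of `T (D)` with at least `N` critical times have a small critical pull back -/
def NBt (a b : Polynomial ℂ) (C : Set ℂ) (g : ℂ → ℂ → ℂ) (T : ℂ → ℂ) (N : ℕ) (k : ℝ) : Prop :=
  ∀ b' ∈ C, ∀ n : ℕ, (rat a b)^[n] ((b' : ℂ) : OnePoint ℂ) ∈ Ts T →
    N ≤ (CE (rat a b) (Ts T) ((b' : ℂ) : OnePoint ℂ) n).ncard → ∃ j < n, ∃ q ∈ C,
      ((q : ℂ) : OnePoint ℂ) ∈ CC (rat a b) (n - j) (Ts T) ((rat a b)^[j] ((b' : ℂ) : OnePoint ℂ)) ∧
      ∀ z ∈ CC (rat a b) (n - j) (Ts T) ((rat a b)^[j] ((b' : ℂ) : OnePoint ℂ)),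
        ∃ w : ℂ, ‖w‖ < k ∧ rat a b z = ((g q w : ℂ) : OnePoint ℂ)

/-- the critical points met by the pull backs of the target are in `C` -/
def Hof (a b : Polynomial ℂ) (C : Set ℂ) (T : ℂ → ℂ) : Prop :=
  ∀ c' : OnePoint ℂ, IsCrit (rat a b) c' → ∀ m : ℕ, (rat a b)^[m] c' ∈ Ts T → ∃ c ∈ C, c' = ((c : ℂ) : OnePoint ℂ)

/-- the field `μ` is holomorphic near `z` -/
def RegAt (μ : ℂ → ℂ) (z : ℂ) : Prop := ∃ (r : ℝ) (φ : ℂ → ℂ) (c : ℂ), 0 < r ∧ ‖c‖ = 1 ∧ DifferentiableOn ℂ φ (ball z r) ∧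
  (∀ w ∈ ball z r, deriv φ w ≠ 0) ∧ ∀ᵐ w : ℂ, w ∈ ball z r → μ w = c * (starRingEnd ℂ) (deriv φ w) / deriv φ w

/-- the critical points in the Julia set whose orbit closure meets the limit set of `a` -/
def Cl (f : OnePoint ℂ → OnePoint ℂ) (a : OnePoint ℂ) : Set (OnePoint ℂ) :=
  {c | IsCrit f c ∧ c ∈ JS f ∧ (closure (range fun n : ℕ => f^[n] c) ∩ Om f a).Nonempty}

/-- the component at `c` of the preimage of `φ (k D)` -/
def Vk (f : OnePoint ℂ → OnePoint ℂ) (φ : ℂ → OnePoint ℂ) (k : ℝ) (c : OnePoint ℂ) : Set (OnePoint ℂ) :=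
  connectedComponentIn (f ⁻¹' (φ '' ball 0 k)) c

/-- scales below `ε` which cover the limit set of `a` dynamically -/
def Scl (f : OnePoint ℂ → OnePoint ℂ) (a : OnePoint ℂ) (ε k : ℝ) (φ : OnePoint ℂ → ℂ → OnePoint ℂ)
    (𝓤 : Set (ℂ → OnePoint ℂ)) : Prop :=
  (∀ c ∈ Cl f a, Unv (φ c) ∧ φ c 0 = f c ∧ ∀ u ∈ ball (0 : ℂ) 1, chord (φ c u) (f c) < ε) ∧
  (∀ T ∈ 𝓤, Unv T ∧ (∀ u ∈ ball (0 : ℂ) 1, chord (T u) (T 0) < ε) ∧ ∃ u ∈ ball (0 : ℂ) 1, T u ∈ Om f a) ∧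
  ∀ A ⊆ Om f a, IsClosed A → A.Nonempty → (∀ x ∈ A, f x ∈ A) →
    (∃ c ∈ Cl f a, (A ∩ Vk f (φ c) k c).Nonempty) ∨ ∃ T ∈ 𝓤, (A ∩ T '' ball 0 k).Nonempty

/-- the targets -/
def Tg (f : OnePoint ℂ → OnePoint ℂ) (S : Set (OnePoint ℂ)) (φ : OnePoint ℂ → ℂ → OnePoint ℂ) (𝓤 : Set (ℂ → OnePoint ℂ)) :
    Set (Set (OnePoint ℂ)) :=
  {E | (∃ b ∈ S, E = Vp f (φ b) b) ∨ ∃ T ∈ 𝓤, E = T '' ball 0 1}

/-- contraction of the returns with at least `N` critical times -/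
def CSX (f : OnePoint ℂ → OnePoint ℂ) (S : Set (OnePoint ℂ)) (𝓔 : Set (Set (OnePoint ℂ))) (N : ℕ) (k : ℝ)
    (φ : OnePoint ℂ → ℂ → OnePoint ℂ) : Prop :=
  ∀ E ∈ 𝓔, ∀ c ∈ S, ∀ n : ℕ, f^[n] c ∈ E → N ≤ (CE f E c n).ncard → ∃ j < n, ∃ q ∈ S, q ∈ CC f (n - j) E (f^[j] c) ∧
    ∀ z ∈ CC f (n - j) E (f^[j] c), f z ∈ φ q '' ball 0 k

/-- the property of the text -/
def NCX (f : OnePoint ℂ → OnePoint ℂ) : Prop :=
  ∀ a, IsCrit f a → a ∈ JS f → closure (range fun n : ℕ => f^[n] a) ≠ univ →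
  ∀ (N : ℕ) (k : ℝ), k < 1 → ∃ ε : ℝ, 0 < ε ∧ ∀ (φ : OnePoint ℂ → ℂ → OnePoint ℂ) (𝓤 : Set (ℂ → OnePoint ℂ)),
    Scl f a ε k φ 𝓤 → ¬ CSX f (Cl f a) (Tg f (Cl f a) φ 𝓤) N k φ

/-- the statement for the families -/
def MXStm : Prop := ∀ (d m : ℕ), 2 ≤ d → m ≤ d → ∀ x : Pool.Agent.H47.NM.Em d m,
  IsCoprime (Pool.Agent.H79.Eul.pol x.1) (Pool.Agent.H79.Eul.pol x.2) →
  max (Pool.Agent.H79.Eul.pol x.1).natDegree (Pool.Agent.H79.Eul.pol x.2).natDegree = d →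
  ¬ Pool.Agent.H57.CF.UpF d m x → NCX (Pool.Agent.H79.Par.Rf (Pool.Agent.H47.NM.ex d m x))

end Pool.Agent.H56.MX
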