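import Pool.Agent.H64.MN.Chx
import Pool.Agent.H64.MN.Leo
import Pool.Agent.H11.MX.Lo
import Pool.Agent.H11.MX.Rec
import Pool.Agent.H56.MX.Defs

/-!
# Module Chr: the chart at a given fixed point, and what does not depend on it

PROOF. `chx`: as `fam2` (H64/MM/Fam2) with the given fixed point `q` and `Cl` instead of `Cw` (`off`: a critical point `c'` in `JS` which is not in `Cl`: the closure of its orbit does not meet `Cl`, otherwise it would contain the closure of the orbit of a point of `Cl`, so a point of `Om f a`). `q ∉ Cl`: fixed points in `JS` are not critical.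
`lo`: from the exactness on the Julia set (`leo`, H47/RJ or H44; J6 was proved from it): `f^n (ball x r) ⊇ JS` for `n ≥ n0`, and `JS` has two points at distance `2 δ0`.
`cl_far`: a critical point not in `Cl f a` stays away from `Om f a` (in `JS`: its orbit closure does not meet the compact `Om f a`; in the Fatou set: `fat_fam`, H3/UP/FTR). `cl_self`: `a ∈ Cl f a`. `rec_inf`: a critical point in `JS` with an infinite orbit: `conc_fam` (H64/PE) gives a recurrent one, which is not periodic.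
`js_int`, `js_leo`: library (H47/RJ, H44/RC, H91/Fatou).
-/

set_option autoImplicit false

open Filter Topology Polynomial Metric Set MeasureTheory

namespace Pool.Agent.H56.MX

open Pool.Agent.H44.Fatou (rat)
open Pool.Agent.H32.BT Pool.Agent.H79.Eul Pool.Agent.H79.Par
open Pool.Agent.H44.RC Pool.Agent.H47.NM Pool.Agent.H57.CF
open Pool.Agent.H35.EX (chord)
open Pool.Agent.H91.ATT (Mb)
open Pool.Agent.H47.MM (Hyp)

variable {d m : ℕ} {x : Em d m}

theorem chx (hd : 2 ≤ d) (hm : m ≤ d) (hcop : IsCoprime (pol x.1) (pol x.2))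
    (hdeg : max (pol x.1).natDegree (pol x.2).natDegree = d) (hup : ¬ UpF d m x) {a : OnePoint ℂ} (ha : IsCrit (Rf (ex d m x)) a)
    (haJ : a ∈ JS (Rf (ex d m x))) {q : OnePoint ℂ} (hq : Rf (ex d m x) q = q) :
    ∃ (u : E d) (φ : OnePoint ℂ ≃ₜ OnePoint ℂ), Mb φ ∧ φ q = OnePoint.infty ∧ (∀ y, Rf u (φ y) = φ (Rf (ex d m x) y)) ∧
      IsCoprime (pol u.1) (pol u.2) ∧ max (pol u.1).natDegree (pol u.2).natDegree = d ∧ Rf u OnePoint.infty = OnePoint.infty ∧
      J6 (Rf u) ∧ (∀ c ∈ Cl (Rf (ex d m x)) a, φ c ≠ OnePoint.infty) ∧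
      Hyp (pol u.1) (pol u.2) {z : ℂ | φ.symm (z : OnePoint ℂ) ∈ Cl (Rf (ex d m x)) a} :=
  Pool.Agent.H64.MN.chx hd hm hcop hdeg hup a hq

theorem lo {u : E d} (hd : 2 ≤ d) (hcop : IsCoprime (pol u.1) (pol u.2)) (hdeg : max (pol u.1).natDegree (pol u.2).natDegree = d)
    {y : OnePoint ℂ} (hy : y ∈ JS (Rf u)) : ∃ δ0 : ℝ, 0 < δ0 ∧ ∀ r : ℝ, 0 < r → ∃ n0 : ℕ, ∀ n ≥ n0, ∀ p : OnePoint ℂ,
      ∃ z, chord y z < r ∧ δ0 ≤ chord p ((Rf u)^[n] z) :=
  Pool.Agent.H11.MX.lo hd hcop hdeg hy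

theorem cl_far (hd : 2 ≤ d) (hm : m ≤ d) (hcop : IsCoprime (pol x.1) (pol x.2))
    (hdeg : max (pol x.1).natDegree (pol x.2).natDegree = d) (hup : ¬ UpF d m x) {a : OnePoint ℂ} (ha : IsCrit (Rf (ex d m x)) a)
    (haJ : a ∈ JS (Rf (ex d m x))) : ∃ ρ : ℝ, 0 < ρ ∧ ∀ c' : OnePoint ℂ, IsCrit (Rf (ex d m x)) c' →
      c' ∉ Cl (Rf (ex d m x)) a → ∀ n : ℕ, ∀ y ∈ Om (Rf (ex d m x)) a, ρ ≤ chord ((Rf (ex d m x))^[n] c') y :=
  Pool.Agent.H64.MN.cl_far hd hm hcop hdeg hup haJ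

theorem rec_inf (hd : 2 ≤ d) (hm : m ≤ d) (hcop : IsCoprime (pol x.1) (pol x.2))
    (hdeg : max (pol x.1).natDegree (pol x.2).natDegree = d) (hup : ¬ UpF d m x) {a : OnePoint ℂ} (ha : IsCrit (Rf (ex d m x)) a)
    (haJ : a ∈ JS (Rf (ex d m x))) : ∃ r, IsCrit (Rf (ex d m x)) r ∧ (range fun n : ℕ => (Rf (ex d m x))^[n] r).Infinite :=
  Pool.Agent.H11.MX.rec_inf hd hm hcop hdeg hup ha haJ

theorem js_int {u : E d} (hd : 2 ≤ d) (hcop : IsCoprime (pol u.1) (pol u.2))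
    (hdeg : max (pol u.1).natDegree (pol u.2).natDegree = d) (h : (interior (JS (Rf u))).Nonempty) : JS (Rf u) = univ :=
  Pool.Agent.H64.MN.js_int hd hcop hdeg h

theorem js_leo (hd : 2 ≤ d) (hm : m ≤ d) (hcop : IsCoprime (pol x.1) (pol x.2))
    (hdeg : max (pol x.1).natDegree (pol x.2).natDegree = d) (hup : ¬ UpF d m x) (h : JS (Rf (ex d m x)) = univ)
    {O : Set (OnePoint ℂ)} (hO : IsOpen O) (hne : O.Nonempty) : ∃ n : ℕ, (Rf (ex d m x))^[n] '' O = univ :=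
  Pool.Agent.H64.MN.js_leo hd hm hcop hdeg hup h hO hne

end Pool.Agent.H56.MX
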