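import Pool.Agent.H56.MX.Defs
import Pool.Agent.H91.MM.Tr

/-!
# Module Fam: from the plane to the sphere

PROOF. As `fam1n` (H56/MN/Fam): systems from `Φ`; targets `T ∈ 𝓤`: if `φ.symm y ∈ T '' ball 0 k`, `y ∈ M` (compact in the plane), and `T` is small, then `φ ∘ T` is finite and small in the plane (uniformly for `y ∈ M`: chordal and planar distance near a compact subset of the plane): `Un (fp ∘ φ ∘ T)` (`unv_ch`).
`Vk F (Φ c) k c`: `φ` maps it into `ψ c' {‖w‖ ^ l < k}` (connected, contains `c'`, mapped by `rat a b` into `g c' (ball 0 k)`; as in `inn` / `comp_eq`). `CSX` gives `NB` (targets `Vp F (Φ b) b`) and `NBt` (target `T (D)`): transport of `CC`, `CE` by `φ`.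
-/

set_option autoImplicit false

open Filter Topology Metric Set

namespace Pool.Agent.H56.MX

open Pool.Agent.H44.Fatou (rat)
open Pool.Agent.H35.EX (chord)
open Pool.Agent.H91.ATT (Mb)
open Pool.Agent.H47.MM (Un Me Hyp Sys)
open Pool.Agent.H56.MM (Unv Vp)
open Pool.Agent.H44.RC (CC)
open Pool.Agent.H3.UP (CE)
open Pool.Agent.H91.ATT (fp fp_coe)
open Pool.Agent.H56.MN (NB)

theorem fam1x {a b : Polynomial ℂ} {C : Set ℂ} (h : Hyp a b C) {F : OnePoint ℂ → OnePoint ℂ} {φ : OnePoint ℂ ≃ₜ OnePoint ℂ}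
    (hφ : Mb φ) (conj : ∀ x, rat a b (φ x) = φ (F x)) {S : Set (OnePoint ℂ)} (hC : ∀ c ∈ C, φ.symm (c : OnePoint ℂ) ∈ S)
    (hS : ∀ q ∈ S, ∃ c ∈ C, φ q = (c : OnePoint ℂ)) (hfin : ∀ c ∈ C, rat a b (c : OnePoint ℂ) ≠ OnePoint.infty)
    {M : Set ℂ} (hM : IsCompact M) {N : ℕ}
    (hker : ∀ (L : ℕ) (k : ℝ), k < 1 → ∃ ε : ℝ, 0 < ε ∧ ∀ (g ψ : ℂ → ℂ → ℂ) (l : ℂ → ℕ), Sys a b C L ε g ψ l →
      NB a b C g ψ N k →
      ((∃ c ∈ C, ∃ w : ℂ, ‖w‖ < 1 ∧ ‖w‖ ^ l c < k ∧ ψ c w ∈ M) ∨ ∃ T : ℂ → ℂ, Un T ∧ (∀ w ∈ ball (0 : ℂ) 1, ‖T w - T 0‖ < ε) ∧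
        (∃ w : ℂ, ‖w‖ < k ∧ T w ∈ M) ∧ NBt a b C g T N k) → False) {k : ℝ} (hk : k < 1) :
    ∃ ε : ℝ, 0 < ε ∧ ∀ (Φ : OnePoint ℂ → ℂ → OnePoint ℂ) (𝓤 : Set (ℂ → OnePoint ℂ)),
      (∀ c ∈ S, Unv (Φ c) ∧ Φ c 0 = F c ∧ ∀ u ∈ ball (0 : ℂ) 1, chord (Φ c u) (F c) < ε) →
      (∀ T ∈ 𝓤, Unv T ∧ ∀ u ∈ ball (0 : ℂ) 1, chord (T u) (T 0) < ε) →
      ((∃ c ∈ S, ∃ y ∈ M, φ.symm (y : OnePoint ℂ) ∈ Vk F (Φ c) k c) ∨
        ∃ T ∈ 𝓤, ∃ y ∈ M, φ.symm (y : OnePoint ℂ) ∈ T '' ball 0 k) → ¬ CSX F S (Tg F S Φ 𝓤) N k Φ := by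
  obtain ⟨L, hL⟩ := Pool.Agent.H91.MM.sys_ch h hφ conj hC hfin
  obtain ⟨ε0, hε0, hker⟩ := hker L k hk
  obtain ⟨ε1, hε1, hsy⟩ := hL ε0 hε0
  obtain ⟨ε2, hε2, hun⟩ := Pool.Agent.H91.MM.ch_unif φ hM (half_pos hε0)
  refine ⟨min ε1 (ε2 / 2), lt_min hε1 (half_pos hε2), fun Φ 𝓤 hΦ hU hal hcs => ?_⟩
  obtain ⟨g, ψ, l, hS1, hg, hV⟩ := hsy Φ fun c hc => ⟨(hΦ c hc).1, (hΦ c hc).2.1, fun u hu =>
    ((hΦ c hc).2.2 u hu).trans_le (min_le_left _ _)⟩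
  have hNB : NB a b C g ψ N k := by
    intro c hc
    have hVd : φ '' Vp F (Φ (φ.symm (c : OnePoint ℂ))) (φ.symm (c : OnePoint ℂ)) = Pool.Agent.H56.MN.Vd ψ c := hV c hc
    exact Pool.Agent.H91.MM.tgt conj hC hS hg hk hVd (hcs _ (Or.inl ⟨_, hC c hc, rfl⟩))
  refine hker g ψ l hS1 hNB ?_
  rcases hal with ⟨c, hc, y, hy, hyV⟩ | ⟨T, hT, y, hy, u0, hu0, hyT⟩
  · left
    obtain ⟨c', hc', hcc⟩ := hS c hc
    have hcs' : c = φ.symm (c' : OnePoint ℂ) := by rw [← hcc, φ.symm_apply_apply]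
    rw [hcs'] at hyV
    have h1 : φ.symm (y : OnePoint ℂ) ∈ Vp F (Φ (φ.symm (c' : OnePoint ℂ))) (φ.symm (c' : OnePoint ℂ)) :=
      connectedComponentIn_mono _ (preimage_mono (image_mono (ball_subset_ball hk.le))) hyV
    have h2 : (y : OnePoint ℂ) ∈ (fun w : ℂ => ((ψ c' w : ℂ) : OnePoint ℂ)) '' ball 0 1 := by
      rw [← hV c' hc']
      exact ⟨_, h1, φ.apply_symm_apply _⟩
    obtain ⟨w, hw, hwy⟩ := h2
    have hwy' : ψ c' w = y := OnePoint.coe_injective hwy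
    obtain ⟨u, hu, hu2⟩ := connectedComponentIn_subset _ _ hyV
    rw [mem_ball_zero_iff] at hu
    have hu1 : u ∈ ball (0 : ℂ) 1 := mem_ball_zero_iff.2 (hu.trans hk)
    have h3 : ((g c' u : ℂ) : OnePoint ℂ) = ((g c' (w ^ l c') : ℂ) : OnePoint ℂ) := by
      rw [← hS1.fp c' hc' w hw, hwy', ← hg c' hc' u hu1, hu2, ← conj, φ.apply_symm_apply]
    have hl := hS1.l2 c' hc'
    have hw' := mem_ball_zero_iff.1 hw
    have h4 : u = w ^ l c' := (hS1.gu c' hc').2 hu1 (mem_ball_zero_iff.2 (by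
      rw [norm_pow]
      exact pow_lt_one₀ (norm_nonneg _) hw' (by omega))) (OnePoint.coe_injective h3)
    refine ⟨c', hc', w, hw', ?_, ?_⟩
    · rw [← norm_pow, ← h4]
      exact hu
    · rw [hwy']
      exact hy
  · right
    rw [mem_ball_zero_iff] at hu0
    have hu01 : u0 ∈ ball (0 : ℂ) 1 := mem_ball_zero_iff.2 (hu0.trans hk)
    have h00 : (0 : ℂ) ∈ ball (0 : ℂ) 1 := mem_ball_self one_pos
    obtain ⟨hT1, hT2⟩ := hU T hT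
    have h1 : ∀ u ∈ ball (0 : ℂ) 1, φ (T u) ≠ OnePoint.infty ∧ ‖fp (φ (T u)) - y‖ < ε0 / 2 := by
      intro u hu
      apply hun y hy
      rw [← hyT]
      have h2 := hT2 u hu
      have h3 := hT2 u0 hu01
      rw [Pool.Agent.H35.EX.chord_comm] at h3
      have h4 := Pool.Agent.H44.RC.ch_tri (T u) (T 0) (T u0)
      have h5 := min_le_right ε1 (ε2 / 2)
      linarith
    have h5 : ∀ u ∈ ball (0 : ℂ) 1, φ (T u) = ((fp (φ (T u)) : ℂ) : OnePoint ℂ) := fun u hu =>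
      (Pool.Agent.H91.MM.coe_fp (h1 u hu).1).symm
    refine ⟨fun w => fp (φ (T w)), Pool.Agent.H91.MM.unv_ch hφ hT1 fun u hu => (h1 u hu).1, fun w hw => ?_, ⟨u0, hu0, ?_⟩, ?_⟩
    · have e : fp (φ (T w)) - fp (φ (T 0)) = (fp (φ (T w)) - y) - (fp (φ (T 0)) - y) := by ring
      show ‖fp (φ (T w)) - fp (φ (T 0))‖ < ε0
      rw [e]
      refine (norm_sub_le _ _).trans_lt ?_
      linarith [(h1 w hw).2, (h1 0 h00).2]
    · show fp (φ (T u0)) ∈ M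
      rw [hyT, φ.apply_symm_apply, fp_coe]
      exact hy
    · have hE : φ '' (T '' ball 0 1) = Ts fun w => fp (φ (T w)) := by
        unfold Ts
        rw [image_image]
        exact image_congr h5
      exact Pool.Agent.H91.MM.tgt conj hC hS hg hk hE (hcs _ (Or.inr ⟨T, hT, rfl⟩))

end Pool.Agent.H56.MX
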