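import Pool.Agent.H64.MM.Fam2
import Pool.Agent.H64.NC.PER
import Pool.Agent.H64.NC.SFX
import Pool.Agent.H64.PF.ONE

/-!
# Module Fix: two different fixed points

`m < 2`: the map is not a limit of maps with more attracted critical points (`up_zero`, `up_one`). Chart in which infinity is not fixed (`ch_mob`); a fixed point in the plane with multiplier one
is excluded (`neu_up`): `fix_chart` gives three fixed points. `m ≥ 2`: infinity is fixed and `a - X b` has a root.
-/

set_option autoImplicit false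

open Filter Topology Polynomial Metric Set MeasureTheory

namespace Pool.Agent.H56.MX

open Pool.Agent.H79.Eul Pool.Agent.H79.Par
open Pool.Agent.H47.NM Pool.Agent.H57.CF
open Pool.Agent.H44.Fatou (rat rat_coe rat_coe_of_ne rat_infty pt)
open Pool.Agent.H32.BT Pool.Agent.H35.EX Pool.Agent.H44.RR Pool.Agent.H44.RC Pool.Agent.H47.RJ
open Pool.Agent.H47.NN Pool.Agent.H44.ND Pool.Agent.H79.ES Pool.Agent.H44.RG
open Pool.Agent.H44.CP Pool.Agent.H47.PS

/-- maps which are not limits of maps with more attracted critical points -/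
theorem fix_gen {d : ℕ} (hd : 2 ≤ d) {v : E d} (hcop : IsCoprime (pol v.1) (pol v.2))
    (hdeg : max (pol v.1).natDegree (pol v.2).natDegree = d) (hup : ¬ Up v) :
    ∃ p1 p2 : OnePoint ℂ, p1 ≠ p2 ∧ Rf v p1 = p1 ∧ Rf v p2 = p2 := by
  obtain ⟨s, hs⟩ : ∃ s : ℂ, Rf v (s : OnePoint ℂ) ≠ (s : OnePoint ℂ) := by
    by_contra hcon
    push Not at hcon
    have hb0 : ∀ z : ℂ, (pol v.2).eval z ≠ 0 := by
      intro z h0
      have h1 := hcon z
      unfold Rf at h1
      rw [rat_coe, h0] at h1
      unfold pt at h1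
      rw [if_pos rfl] at h1
      exact OnePoint.infty_ne_coe _ h1
    have h2 : ∀ z : ℂ, (pol v.1).eval z = z * (pol v.2).eval z := by
      intro z
      have h1 := hcon z
      unfold Rf at h1
      rw [rat_coe_of_ne (hb0 z)] at h1
      have h3 := OnePoint.coe_injective h1
      rw [div_eq_iff (hb0 z)] at h3
      exact h3
    have h3 : pol v.1 = X * pol v.2 := by
      refine Polynomial.funext fun z => ?_
      rw [h2, eval_mul, eval_X]
    have h4 : IsUnit (pol v.2) := by
      rw [h3] at hcop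
      exact hcop.isUnit_of_dvd' (Dvd.intro_left _ rfl) dvd_rfl
    have h5 := natDegree_eq_zero_of_isUnit h4
    have h6 : (pol v.1).natDegree ≤ 1 := by
      rw [h3]
      refine natDegree_mul_le.trans ?_
      rw [h5, natDegree_X]
    omega
  obtain ⟨G, φ, K, hch, -, hφs, -⟩ := ch_mob (d := d) hd s
  obtain ⟨hcop1, hdeg1, hφ⟩ := hch.conj v hcop hdeg
  have hup1 : ¬ Up (Lin s v) := fun h =>
    hup (up_chart hd hch.cG hch.invL hch.invR (fun v h3 h4 => (hch.conj v h3 h4).2.2) hcop hdeg h)
  have hinf : rat (pol (Lin s v).1) (pol (Lin s v).2) OnePoint.infty ≠ OnePoint.infty := by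
    intro h
    have h1 : Rf (Lin s v) (φ (s : OnePoint ℂ)) = φ (s : OnePoint ℂ) := by
      rw [hφs]
      exact h
    rw [hφ] at h1
    exact hs (φ.injective h1)
  obtain ⟨z1, z2, z3, h12, h13, h23, e1, e2, e3⟩ := Pool.Agent.H64.NC.fix_chart hd hcop1 hdeg1 hinf (by
    intro z hz hfz h1
    have hc : Cyc (pol (Lin s v).1) (pol (Lin s v).2) 1 (fun _ => z)
        (∏ i ∈ Finset.range 1, (Pool.Agent.H44.Fatou.Wr (pol (Lin s v).1) (pol (Lin s v).2)).eval ((fun _ => z : ℕ → ℂ) i) /
          ((pol (Lin s v).2).eval ((fun _ => z : ℕ → ℂ) i)) ^ 2) := by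
      exact ⟨fun i _ => hz, fun i _ => hfz, rfl, rfl⟩
    refine hup1 (neu_up hd hcop1 hdeg1 (p := 1) one_pos hc ?_)
    rw [Finset.prod_range_one, h1, norm_one])
  obtain ⟨p1, hp1⟩ := φ.surjective (z1 : OnePoint ℂ)
  obtain ⟨p2, hp2⟩ := φ.surjective (z2 : OnePoint ℂ)
  have key : ∀ {p : OnePoint ℂ} {z : ℂ}, φ p = (z : OnePoint ℂ) →
      rat (pol (Lin s v).1) (pol (Lin s v).2) (z : OnePoint ℂ) = (z : OnePoint ℂ) → Rf v p = p := by
    intro p z hp hz
    apply φ.injective
    rw [← hφ, hp]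
    exact hz
  refine ⟨p1, p2, ?_, key hp1 e1, key hp2 e2⟩
  rintro rfl
  exact h12 (OnePoint.coe_injective (hp1.symm.trans hp2))

theorem fix_two {d m : ℕ} (hd : 2 ≤ d) (hm : m ≤ d) {x : Em d m} (hcop : IsCoprime (pol x.1) (pol x.2))
    (hdeg : max (pol x.1).natDegree (pol x.2).natDegree = d) (hup : ¬ UpF d m x) :
    ∃ q1 q2 : OnePoint ℂ, q1 ≠ q2 ∧ Rf (ex d m x) q1 = q1 ∧ Rf (ex d m x) q2 = q2 := by
  by_cases hm2 : 2 ≤ m
  · have h1 := pol_deg x.1
    have h2 := pol_deg x.2
    have hb : (pol x.2).natDegree < d - 1 := by omega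
    have ha : (pol x.1).natDegree = d := by omega
    have hb0 : (pol x.2).coeff d = 0 := coeff_eq_zero_of_natDegree_lt (by omega)
    have hinf : Rf (ex d m x) OnePoint.infty = OnePoint.infty := by
      unfold Rf
      rw [(ex_pol x).1, (ex_pol x).2, rat_infty]
      unfold Pool.Agent.H44.Fatou.dg
      rw [hdeg, hb0]
      unfold pt
      rw [if_pos rfl]
    have hXb : (X * pol x.2).natDegree < (pol x.1).natDegree := by
      refine natDegree_mul_le.trans_lt ?_
      rw [natDegree_X]
      omega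
    have hq : (pol x.1 - X * pol x.2).natDegree = d := by
      rw [natDegree_sub_eq_left_of_natDegree_lt hXb, ha]
    have hq1 : (pol x.1 - X * pol x.2).degree ≠ 0 := by
      intro h
      have h5 : (pol x.1 - X * pol x.2).natDegree = 0 := natDegree_eq_of_degree_eq_some h
      omega
    obtain ⟨z, hz⟩ := IsAlgClosed.exists_root _ hq1
    have h3 : (pol x.1).eval z = z * (pol x.2).eval z := by
      have h4 : (pol x.1 - X * pol x.2).eval z = 0 := hz
      rw [eval_sub, eval_mul, eval_X] at h4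
      exact sub_eq_zero.1 h4
    have h4 : (pol x.2).eval z ≠ 0 := by
      intro h0
      rw [h0, mul_zero] at h3
      obtain ⟨s, t, hst⟩ := hcop
      have h5 := congrArg (eval z) hst
      rw [eval_add, eval_mul, eval_mul, h3, h0, mul_zero, mul_zero, add_zero, eval_one] at h5
      exact zero_ne_one h5
    refine ⟨OnePoint.infty, (z : OnePoint ℂ), (OnePoint.infty_ne_coe z), hinf, ?_⟩
    unfold Rf
    rw [(ex_pol x).1, (ex_pol x).2, rat_coe_of_ne h4, h3, mul_div_assoc, div_self h4, mul_one]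
  · have hup1 : ¬ Up (ex d m x) := by
      intro h
      obtain rfl | rfl : m = 0 ∨ m = 1 := by omega
      · exact hup (Pool.Agent.H64.NC.up_zero h)
      · exact hup (Pool.Agent.H64.PF.up_one hd hcop hdeg h)
    exact fix_gen hd (ex_cop hcop) (ex_deg hdeg) hup1

end Pool.Agent.H56.MX
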