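import Pool.Agent.H56.MX.Rg1
import Pool.Agent.H47.RJ.FSI

/-!
# Module Rgn: there are no regular points

PROOF. (`reg_push`, `reg_crit` are in Rg1.)
MAIN. Let `z` be regular. `‖μ‖ = 1` almost everywhere near `z`, so `ball z r` is in `JS` (closed; `h0`): `JS = univ` (`hJ`). `m` with `f^[m] '' (ball z r) = univ` (`hleo`). The set `S` of the `y : ℂ` which are not regular is finite: `y = f^[m] w`, `w ∈ ball z r` regular (smaller disc), the points `f^[i] w` are finite (`f ∞ = ∞`);
if none of them (`i < m`) is critical, `y` is regular (`reg_push`); so `y = f^[j] c'`, `c'` critical, `1 ≤ j ≤ m`. The orbit of `r0` is infinite and finite-valued (if it reached `∞` it would be finite): some `f^[n] r0`, `n ≥ 1`, is regular. For every `w` with `f^[j] w = r0`: `f^[j + n] w` is regular, `f^[j + n]` is critical at `w`: `w` is not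
regular. The set `Sᶜ` is open and not empty, it contains such a `w` (`hleo`). Contradiction.
-/

set_option autoImplicit false

open Filter Topology Polynomial Metric Set MeasureTheory

namespace Pool.Agent.H56.MX

open Pool.Agent.H44.Fatou (rat)
open Pool.Agent.H32.BT (IsCrit crit_finite)
open Pool.Agent.H44.RC (JS)
open Pool.Agent.H47.MM (Un Me FI)
open Pool.Agent.H47.RJ (js_closed)
open Pool.Agent.H91.ATT (fp fp_coe)

theorem reg_ball {μ : ℂ → ℂ} {z : ℂ} (h : RegAt μ z) : ∃ r : ℝ, 0 < r ∧ (∀ w ∈ ball z r, RegAt μ w) ∧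
    ∀ᵐ w : ℂ, w ∈ ball z r → μ w ≠ 0 := by
  obtain ⟨r, φ, c, hr, hc, hφ, hφ0, hae⟩ := h
  refine ⟨r, hr, ?_, ?_⟩
  · intro w hw
    obtain ⟨ρ, hρ, hsub⟩ := Metric.isOpen_iff.1 isOpen_ball w hw
    exact ⟨ρ, φ, c, hρ, hc, hφ.mono hsub, fun t ht => hφ0 t (hsub ht), hae.mono fun t ht h1 => ht (hsub h1)⟩
  · filter_upwards [hae] with w hw h1 h2
    have h3 := hw h1
    rw [h2] at h3
    have h4 : c * (starRingEnd ℂ) (deriv φ w) / deriv φ w ≠ 0 := by
      have hc0 : c ≠ 0 := by
        intro h0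
        rw [h0, norm_zero] at hc
        exact zero_ne_one hc
      have h5 := hφ0 w h1
      have h6 : (starRingEnd ℂ) (deriv φ w) ≠ 0 := by simpa using h5
      exact div_ne_zero (mul_ne_zero hc0 h6) h5
    exact h4 h3.symm

private theorem it_fin' {a b : Polynomial ℂ} (hfi : rat a b OnePoint.infty = OnePoint.infty) {n i : ℕ} (hi : i ≤ n)
    {x : OnePoint ℂ} {w : ℂ} (h : (rat a b)^[n] x = (w : OnePoint ℂ)) :
    (rat a b)^[i] x = (fp ((rat a b)^[i] x) : OnePoint ℂ) := by
  rcases hx : (rat a b)^[i] x with _ | u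
  · exfalso
    have h2 : (rat a b)^[n - i] ((rat a b)^[i] x) = (rat a b)^[n] x := by
      rw [← Function.iterate_add_apply, Nat.sub_add_cancel hi]
    rw [hx, h] at h2
    have h3 : (rat a b)^[n - i] OnePoint.infty = OnePoint.infty := Function.iterate_fixed hfi _
    exact OnePoint.infty_ne_coe _ (h3.symm.trans h2)
  · rfl

theorem reg_iter {a b : Polynomial ℂ} (hcop : IsCoprime a b) (hd : 1 ≤ max a.natDegree b.natDegree)
    (hfi : rat a b OnePoint.infty = OnePoint.infty) {μ : ℂ → ℂ} (hμ : FI (rat a b) μ) (m : ℕ) : ∀ {z w : ℂ}, RegAt μ z →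
    (rat a b)^[m] (z : OnePoint ℂ) = (w : OnePoint ℂ) → (∀ i < m, ¬ IsCrit (rat a b) ((rat a b)^[i] (z : OnePoint ℂ))) →
    RegAt μ w := by
  induction m with
  | zero =>
    intro z w hz h _
    have h1 : (z : OnePoint ℂ) = (w : OnePoint ℂ) := h
    rw [← OnePoint.coe_injective h1]
    exact hz
  | succ m ih =>
    intro z w hz h hc
    have h1 := it_fin' hfi (Nat.le_succ m) h
    have h2 := ih hz h1 (fun i hi => hc i (by omega))
    have h3 := hc m (Nat.lt_succ_self m)
    rw [h1] at h3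
    refine reg_push hcop hd hμ h2 ?_ h3
    rw [← h1, ← Function.iterate_succ_apply' (rat a b) m, h]

theorem reg_no {a b : Polynomial ℂ} (hcop : IsCoprime a b) (hd : 1 ≤ max a.natDegree b.natDegree)
    (hfi : rat a b OnePoint.infty = OnePoint.infty) {μ : ℂ → ℂ} (hμ : FI (rat a b) μ)
    (h0 : ∀ z : ℂ, (z : OnePoint ℂ) ∉ JS (rat a b) → μ z = 0) (hJ : (interior (JS (rat a b))).Nonempty → JS (rat a b) = univ)
    (hleo : JS (rat a b) = univ → ∀ O : Set (OnePoint ℂ), IsOpen O → O.Nonempty → ∃ m : ℕ, (rat a b)^[m] '' O = univ)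
    {r0 : OnePoint ℂ} (hr : IsCrit (rat a b) r0) (hri : (range fun n : ℕ => (rat a b)^[n] r0).Infinite) (z : ℂ) :
    ¬ RegAt μ z := by
  intro hz
  obtain ⟨r, hr0, hreg, hne⟩ := reg_ball hz
  -- the ball is in the Julia set
  have hsub : ∀ w ∈ ball z r, (w : OnePoint ℂ) ∈ JS (rat a b) := by
    intro w hw
    by_contra hcon
    have h1 : IsOpen ((fun t : ℂ => (t : OnePoint ℂ)) ⁻¹' (JS (rat a b))ᶜ) :=
      (js_closed (rat a b)).isOpen_compl.preimage OnePoint.continuous_coe
    obtain ⟨ρ, hρ, h2⟩ := Metric.isOpen_iff.1 (h1.inter isOpen_ball) w ⟨hcon, hw⟩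
    have h3 : volume (ball w ρ) = 0 := by
      refine measure_mono_null ?_ (ae_iff.1 hne)
      intro t ht
      obtain ⟨h4, h5⟩ := h2 ht
      rw [mem_ofPred_eq, Classical.not_imp, not_not]
      exact ⟨h5, h0 t h4⟩
    exact (measure_ball_pos volume w hρ).ne' h3
  have hOo : IsOpen ((fun t : ℂ => (t : OnePoint ℂ)) '' ball z r) := OnePoint.isOpenEmbedding_coe.isOpenMap _ isOpen_ball
  have hJu : JS (rat a b) = univ := by
    apply hJ
    refine ⟨(z : OnePoint ℂ), ?_⟩
    rw [mem_interior]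
    refine ⟨_, ?_, hOo, ⟨z, mem_ball_self hr0, rfl⟩⟩
    rintro x ⟨t, ht, rfl⟩
    exact hsub t ht
  obtain ⟨m, hm⟩ := hleo hJu _ hOo ⟨_, ⟨z, mem_ball_self hr0, rfl⟩⟩
  -- the set of the non regular points is finite
  have hSf : {y : ℂ | ¬ RegAt μ y}.Finite := by
    have h1 : (⋃ j ∈ Finset.range (m + 1), (rat a b)^[j] '' {c | IsCrit (rat a b) c}).Finite :=
      (Finset.range (m + 1)).finite_toSet.biUnion fun j _ => (crit_finite hcop hd).image _
    have h2 : {y : ℂ | ¬ RegAt μ y} ⊆ (fun t : ℂ => (t : OnePoint ℂ)) ⁻¹'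
        (⋃ j ∈ Finset.range (m + 1), (rat a b)^[j] '' {c | IsCrit (rat a b) c}) := by
      intro y hy
      have h3 : (y : OnePoint ℂ) ∈ (rat a b)^[m] '' ((fun t : ℂ => (t : OnePoint ℂ)) '' ball z r) := by
        rw [hm]; exact mem_univ _
      obtain ⟨x, ⟨w, hw, rfl⟩, hx⟩ := h3
      have h4 : ∃ i < m, IsCrit (rat a b) ((rat a b)^[i] (w : OnePoint ℂ)) := by
        by_contra hcon
        push Not at hcon
        exact hy (reg_iter hcop hd hfi hμ m (hreg w hw) hx hcon)
      obtain ⟨i, hi, hc⟩ := h4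
      show (y : OnePoint ℂ) ∈ ⋃ j ∈ Finset.range (m + 1), (rat a b)^[j] '' {c | IsCrit (rat a b) c}
      rw [mem_iUnion₂]
      refine ⟨m - i, Finset.mem_range.2 (by omega), (rat a b)^[i] (w : OnePoint ℂ), hc, ?_⟩
      rw [← Function.iterate_add_apply, Nat.sub_add_cancel hi.le]
      exact hx
    exact (h1.preimage (OnePoint.coe_injective.injOn)).subset h2
  -- the orbit of `r0`
  have hfin : ∀ n : ℕ, ∃ y : ℂ, (rat a b)^[n] r0 = (y : OnePoint ℂ) := by
    intro n
    rcases hx : (rat a b)^[n] r0 with _ | u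
    · exfalso
      apply hri
      have h1 : (range fun n : ℕ => (rat a b)^[n] r0) ⊆ (fun n : ℕ => (rat a b)^[n] r0) '' (Finset.range (n + 1) : Set ℕ) := by
        rintro x ⟨k, rfl⟩
        rcases le_total k n with h2 | h2
        · exact ⟨k, by rw [Finset.coe_range]; exact Nat.lt_succ_of_le h2, rfl⟩
        · refine ⟨n, by rw [Finset.coe_range]; exact Nat.lt_succ_self n, ?_⟩
          show (rat a b)^[n] r0 = (rat a b)^[k] r0
          have h3 : (rat a b)^[k] r0 = (rat a b)^[k - n] ((rat a b)^[n] r0) := by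
            rw [← Function.iterate_add_apply, Nat.sub_add_cancel h2]
          have h4 : (rat a b)^[k - n] OnePoint.infty = OnePoint.infty := Function.iterate_fixed hfi _
          rw [h3, hx]
          exact h4.symm
      exact ((Finset.range (n + 1)).finite_toSet.image _).subset h1
    · exact ⟨u, rfl⟩
  choose y hy using hfin
  obtain ⟨n, hn1, hny⟩ : ∃ n : ℕ, 1 ≤ n ∧ RegAt μ (y n) := by
    by_contra hcon
    push Not at hcon
    apply hri
    have h1 : (range fun n : ℕ => (rat a b)^[n] r0) ⊆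
        {r0} ∪ (fun t : ℂ => (t : OnePoint ℂ)) '' {y : ℂ | ¬ RegAt μ y} := by
      rintro x ⟨k, rfl⟩
      rcases Nat.eq_zero_or_pos k with h2 | h2
      · subst h2
        left
        rfl
      · right
        exact ⟨y k, hcon k h2, (hy k).symm⟩
    exact ((finite_singleton r0).union (hSf.image _)).subset h1
  -- a preimage of `r0` which is regular
  have hO2 : IsOpen ((fun t : ℂ => (t : OnePoint ℂ)) '' {y : ℂ | ¬ RegAt μ y}ᶜ) :=
    OnePoint.isOpenEmbedding_coe.isOpenMap _ hSf.isClosed.isOpen_compl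
  obtain ⟨j, hj⟩ := hleo hJu _ hO2 ⟨_, ⟨z, by simpa using hz, rfl⟩⟩
  have h3 : r0 ∈ (rat a b)^[j] '' ((fun t : ℂ => (t : OnePoint ℂ)) '' {y : ℂ | ¬ RegAt μ y}ᶜ) := by
    rw [hj]; exact mem_univ _
  obtain ⟨x, ⟨w, hw, rfl⟩, hx⟩ := h3
  have hwreg : RegAt μ w := by
    by_contra hcon
    exact hw hcon
  have hx' : (rat a b)^[j] (w : OnePoint ℂ) = r0 := hx
  refine reg_crit hcop hd hfi hμ hny (z := w) (n := n + j) (i := j) ?_ (by omega) ?_ hwreg
  · rw [Function.iterate_add_apply, hx']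
    exact hy n
  · rw [hx']
    exact hr

end Pool.Agent.H56.MX
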