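import Pool.Agent.H56.MX.Defs
import Pool.Agent.H18.MF.Fld

/-!
# Module Typ: the field in a chart and almost every point

PROOF. As `fld` (H18/MF/Fld), with almost every point instead of one: `μ = ν'` on `φ (G1)` and `0` elsewhere (`G1` = `G` without the grand orbits of `∞` and `φ.symm ∞`), `ace`; countable sets are null sets. `typ2`: two charts: the exceptional set of the second chart is a null set in the first one (`mb_null`).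
-/

set_option autoImplicit false

open Filter Topology Polynomial Metric Set MeasureTheory

namespace Pool.Agent.H56.MX

open Pool.Agent.H44.Fatou (rat rat_continuous rat_coe rat_coe_of_ne pt)
open Pool.Agent.H32.BT (countable_coe)
open Pool.Agent.H79.Eul Pool.Agent.H79.Par
open Pool.Agent.H44.RC (JS)
open Pool.Agent.H61.TT (gg)
open Pool.Agent.H91.ATT (Mb LFd lf_tr mb_symm rf_gg der_rf)
open Pool.Agent.H64.NC (js_conj)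
open Pool.Agent.H15.LOC (tr_m)
open Pool.Agent.H47.OI (AC)
open Pool.Agent.H47.MM (FI)
open Pool.Agent.H18.MF (GO go_self go_inv go_count mb_null)

variable {d : ℕ}

theorem typ1 (hd : 1 ≤ d) {v u : E d} (hcop : IsCoprime (pol v.1) (pol v.2))
    (hdeg : max (pol v.1).natDegree (pol v.2).natDegree = d) {φ : OnePoint ℂ ≃ₜ OnePoint ℂ} (hφ : Mb φ)
    (conj : ∀ x, Rf u (φ x) = φ (Rf v x)) {G : Set (OnePoint ℂ)} (hGJ : G ⊆ JS (Rf v)) (hGi : ∀ x, Rf v x ∈ G ↔ x ∈ G)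
    (hGm : MeasurableSet {z : ℂ | (z : OnePoint ℂ) ∈ G}) {ν : ℂ → ℂ} (hν : LFd (Rf v) G ν) :
    ∃ μ : ℂ → ℂ, FI (Rf u) μ ∧ (∀ z : ℂ, (z : OnePoint ℂ) ∉ JS (Rf u) → μ z = 0) ∧
      ∀ᵐ z : ℂ, φ.symm (z : OnePoint ℂ) ∈ G → ‖μ z‖ = 1 ∧ AC μ z (μ z) := by
  classical
  have conj' : ∀ x, Rf v (φ.symm x) = φ.symm (Rf u x) := by
    intro x
    rw [φ.eq_symm_apply, ← conj, φ.apply_symm_apply]
  obtain ⟨Q, hQ⟩ : ∃ Q : Set (OnePoint ℂ), Q = GO (Rf v) OnePoint.infty ∪ GO (Rf v) (φ.symm OnePoint.infty) := ⟨_, rfl⟩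
  have hQc : Q.Countable := by
    rw [hQ]
    exact (go_count hd hcop hdeg _).union (go_count hd hcop hdeg _)
  have hQi : ∀ x, Rf v x ∈ Q ↔ x ∈ Q := by
    intro x
    rw [hQ, mem_union, mem_union, go_inv, go_inv]
  have hQ1 : OnePoint.infty ∈ Q := by rw [hQ]; exact Or.inl (go_self _ _)
  have hQ2 : φ.symm OnePoint.infty ∈ Q := by rw [hQ]; exact Or.inr (go_self _ _)
  obtain ⟨G1, hG1⟩ : ∃ G1 : Set ℂ, G1 = {z : ℂ | (z : OnePoint ℂ) ∈ G ∧ (z : OnePoint ℂ) ∉ Q} := ⟨_, rfl⟩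
  have hm1 : ∀ z : ℂ, z ∈ G1 ↔ (z : OnePoint ℂ) ∈ G ∧ (z : OnePoint ℂ) ∉ Q := fun z => by rw [hG1]; rfl
  have hQcc : {z : ℂ | (z : OnePoint ℂ) ∈ Q}.Countable := countable_coe hQc
  have hG1e : G1 = {z : ℂ | (z : OnePoint ℂ) ∈ G} \ {z : ℂ | (z : OnePoint ℂ) ∈ Q} := by
    rw [hG1]
    rfl
  have hG1m : MeasurableSet G1 := by
    rw [hG1e]
    exact hGm.diff hQcc.measurableSet
  have hpole : ∀ z : ℂ, (pol v.2).eval z = 0 → Rf v (z : OnePoint ℂ) = OnePoint.infty := by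
    intro z hz
    show rat (pol v.1) (pol v.2) _ = _
    rw [rat_coe]
    unfold pt
    rw [if_pos hz]
  have hGb : ∀ z ∈ G1, (pol v.2).eval z ≠ 0 := by
    intro z hz h0
    refine ((hm1 z).1 hz).2 ((hQi _).1 ?_)
    rw [hpole z h0]
    exact hQ1
  obtain ⟨hν0, hν1, hν2⟩ := hν
  obtain ⟨ν', hν'⟩ := lf_tr (v := u) (u := v) (φ := φ.symm) (mb_symm hφ) conj' (G := G1) (ν := ν) hGb hν0
    (fun z hz => hν1 z ((hm1 z).1 hz).1) (fun z hz => by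
      have h1 := hν2 z (gg (pol v.1) (pol v.2) z) ((hm1 z).1 hz).1 (rf_gg (hGb z hz))
      rwa [der_rf (hGb z hz)] at h1)
  obtain ⟨H, hH⟩ : ∃ H : Set (OnePoint ℂ), H = {x | ∃ z ∈ G1, φ.symm x = (z : OnePoint ℂ)} := ⟨_, rfl⟩
  rw [← hH] at hν'
  have hHm : ∀ x, x ∈ H ↔ φ.symm x ∈ G ∧ φ.symm x ∉ Q := by
    intro x
    rw [hH]
    constructor
    · rintro ⟨z, hz, h1⟩
      rw [h1]
      exact (hm1 z).1 hz
    · rintro ⟨h1, h2⟩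
      have h5 : φ.symm x ≠ OnePoint.infty := by
        intro e
        rw [e] at h2
        exact h2 hQ1
      obtain ⟨z, hz⟩ := OnePoint.ne_infty_iff_exists.1 h5
      rw [← hz] at h1 h2
      exact ⟨z, (hm1 z).2 ⟨h1, h2⟩, hz.symm⟩
  have hHi : ∀ x, Rf u x ∈ H ↔ x ∈ H := by
    intro x
    rw [hHm, hHm, ← conj', hGi, hQi]
  have hHpre : {z : ℂ | (z : OnePoint ℂ) ∈ H} = {z : ℂ | ∃ w ∈ G1, φ.symm (z : OnePoint ℂ) = (w : OnePoint ℂ)} := by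
    rw [hH]
    rfl
  have hHme : MeasurableSet {z : ℂ | (z : OnePoint ℂ) ∈ H} := by
    rw [hHpre]
    exact tr_m (φ.symm.continuous.comp OnePoint.continuous_coe) hG1m
  obtain ⟨h1, h2, h3⟩ := hν'
  obtain ⟨μ, hμ⟩ : ∃ μ : ℂ → ℂ, μ = {z : ℂ | (z : OnePoint ℂ) ∈ H}.indicator ν' := ⟨_, rfl⟩
  have hμm : Measurable μ := by
    rw [hμ]
    exact h1.indicator hHme
  have hin : ∀ z : ℂ, (z : OnePoint ℂ) ∈ H → μ z = ν' z := fun z hz => by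
    rw [hμ]
    exact indicator_of_mem (s := {z : ℂ | (z : OnePoint ℂ) ∈ H}) hz _
  have hout : ∀ z : ℂ, (z : OnePoint ℂ) ∉ H → μ z = 0 := fun z hz => by
    rw [hμ]
    exact indicator_of_notMem (s := {z : ℂ | (z : OnePoint ℂ) ∈ H}) hz _
  have hHout : ∀ z : ℂ, (z : OnePoint ℂ) ∉ JS (Rf u) → (z : OnePoint ℂ) ∉ H := by
    intro z hz hzH
    refine hz ?_
    rw [← φ.apply_symm_apply (z : OnePoint ℂ)]
    exact (js_conj φ (fun y => (conj y).symm) _).2 (hGJ ((hHm _).1 hzH).1)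
  refine ⟨μ, ?_, fun z hz => hout z (hHout z hz), ?_⟩
  · intro z w hzw
    by_cases hz : (z : OnePoint ℂ) ∈ H
    · have hw : (w : OnePoint ℂ) ∈ H := by
        rw [← hzw]
        exact (hHi _).2 hz
      rw [hin z hz, hin w hw]
      exact h3 z w hz hzw
    · have hw : (w : OnePoint ℂ) ∉ H := by
        rw [← hzw]
        exact fun h => hz ((hHi _).1 h)
      rw [hout z hz, hout w hw, zero_mul, zero_mul]
  · have hQ3 : {z : ℂ | (z : OnePoint ℂ) ∈ φ '' Q}.Countable := countable_coe (hQc.image φ)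
    have h4 : ∀ᵐ z : ℂ, z ∉ {z : ℂ | (z : OnePoint ℂ) ∈ φ '' Q} :=
      measure_eq_zero_iff_ae_notMem.1 (hQ3.measure_zero volume)
    filter_upwards [Pool.Agent.H47.MM.ace hμm, h4] with z h5 h6 h7
    have hzH : (z : OnePoint ℂ) ∈ H := by
      refine (hHm _).2 ⟨h7, fun h8 => h6 ⟨_, h8, φ.apply_symm_apply _⟩⟩
    exact ⟨by rw [hin z hzH]; exact h2 z hzH, h5⟩

/-- the preimage of a null set under a Moebius map is a null set -/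
theorem mb_pre {φ : OnePoint ℂ ≃ₜ OnePoint ℂ} (hφ : Mb φ) {N : Set ℂ} (hN : volume N = 0) :
    volume {w : ℂ | ∃ z ∈ N, φ (w : OnePoint ℂ) = (z : OnePoint ℂ)} = 0 := by
  by_contra h0
  have h1 := mb_null (mb_symm hφ) (pos_iff_ne_zero.2 h0) (by
    rintro w ⟨z, -, hw⟩ h2
    have h3 : φ (w : OnePoint ℂ) = OnePoint.infty := h2
    rw [hw] at h3
    exact OnePoint.coe_ne_infty z h3)
  refine h1.ne' (measure_mono_null ?_ hN)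
  rintro z ⟨w, ⟨z', hz', hw⟩, h2⟩
  have h3 : φ (w : OnePoint ℂ) = (z : OnePoint ℂ) := by
    rw [← h2, φ.apply_symm_apply]
  rw [hw] at h3
  rw [← OnePoint.coe_injective h3]
  exact hz'

theorem typ2 (hd : 1 ≤ d) {v u1 u2 : E d} (hcop : IsCoprime (pol v.1) (pol v.2))
    (hdeg : max (pol v.1).natDegree (pol v.2).natDegree = d) {φ1 φ2 : OnePoint ℂ ≃ₜ OnePoint ℂ} (hφ1 : Mb φ1) (hφ2 : Mb φ2)
    (conj1 : ∀ x, Rf u1 (φ1 x) = φ1 (Rf v x)) (conj2 : ∀ x, Rf u2 (φ2 x) = φ2 (Rf v x)) {G : Set (OnePoint ℂ)}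
    (hGJ : G ⊆ JS (Rf v)) (hGi : ∀ x, Rf v x ∈ G ↔ x ∈ G) (hGm : MeasurableSet {z : ℂ | (z : OnePoint ℂ) ∈ G})
    (hGp : 0 < volume {z : ℂ | (z : OnePoint ℂ) ∈ G}) {ν : ℂ → ℂ} (hν : LFd (Rf v) G ν) :
    ∃ p ∈ G, (∃ (μ : ℂ → ℂ) (z : ℂ), FI (Rf u1) μ ∧ (∀ z : ℂ, (z : OnePoint ℂ) ∉ JS (Rf u1) → μ z = 0) ∧
        φ1 p = (z : OnePoint ℂ) ∧ ‖μ z‖ = 1 ∧ AC μ z (μ z)) ∧
      ∃ (μ : ℂ → ℂ) (z : ℂ), FI (Rf u2) μ ∧ (∀ z : ℂ, (z : OnePoint ℂ) ∉ JS (Rf u2) → μ z = 0) ∧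
        φ2 p = (z : OnePoint ℂ) ∧ ‖μ z‖ = 1 ∧ AC μ z (μ z) := by
  obtain ⟨μ1, a1, b1, c1⟩ := typ1 hd hcop hdeg hφ1 conj1 hGJ hGi hGm hν
  obtain ⟨μ2, a2, b2, c2⟩ := typ1 hd hcop hdeg hφ2 conj2 hGJ hGi hGm hν
  have key : ∀ (φ : OnePoint ℂ ≃ₜ OnePoint ℂ) (μ : ℂ → ℂ), Mb φ →
      (∀ᵐ z : ℂ, φ.symm (z : OnePoint ℂ) ∈ G → ‖μ z‖ = 1 ∧ AC μ z (μ z)) →
      ∀ᵐ w : ℂ, (w : OnePoint ℂ) ∈ G → ∃ z : ℂ, φ (w : OnePoint ℂ) = (z : OnePoint ℂ) ∧ ‖μ z‖ = 1 ∧ AC μ z (μ z) := by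
    intro φ μ hφ hc
    have h1 : volume {z : ℂ | ¬ (φ.symm (z : OnePoint ℂ) ∈ G → ‖μ z‖ = 1 ∧ AC μ z (μ z))} = 0 := ae_iff.1 hc
    have h2 := measure_eq_zero_iff_ae_notMem.1 (mb_pre hφ h1)
    have h3 : {w : ℂ | (w : OnePoint ℂ) ∈ ({φ.symm OnePoint.infty} : Set (OnePoint ℂ))}.Countable :=
      countable_coe (countable_singleton _)
    have h4 := measure_eq_zero_iff_ae_notMem.1 (h3.measure_zero volume)
    filter_upwards [h2, h4] with w h5 h6 h7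
    have h8 : φ (w : OnePoint ℂ) ≠ OnePoint.infty := by
      intro h9
      refine h6 ?_
      show (w : OnePoint ℂ) = φ.symm OnePoint.infty
      rw [φ.eq_symm_apply, h9]
    obtain ⟨z, hz⟩ := OnePoint.ne_infty_iff_exists.1 h8
    refine ⟨z, hz.symm, ?_⟩
    by_contra h9
    refine h5 ⟨z, fun h10 => h9 (h10 ?_), hz.symm⟩
    rw [hz, φ.symm_apply_apply]
    exact h7
  have k1 := key φ1 μ1 hφ1 c1
  have k2 := key φ2 μ2 hφ2 c2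
  obtain ⟨w, hwG, hw1, hw2⟩ : ∃ w : ℂ, (w : OnePoint ℂ) ∈ G ∧
      (∃ z : ℂ, φ1 (w : OnePoint ℂ) = (z : OnePoint ℂ) ∧ ‖μ1 z‖ = 1 ∧ AC μ1 z (μ1 z)) ∧
      ∃ z : ℂ, φ2 (w : OnePoint ℂ) = (z : OnePoint ℂ) ∧ ‖μ2 z‖ = 1 ∧ AC μ2 z (μ2 z) := by
    by_contra hcon
    push Not at hcon
    have h1 : ∀ᵐ w : ℂ, ¬ (w : OnePoint ℂ) ∈ G := by
      filter_upwards [k1, k2] with w h1 h2 h3
      obtain ⟨z, hz1, hz2, hz3⟩ := h1 h3
      obtain ⟨y, hy1, hy2, hy3⟩ := h2 h3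
      exact hcon w h3 ⟨z, hz1, hz2, hz3⟩ y hy1 hy2 hy3
    exact hGp.ne' (measure_eq_zero_iff_ae_notMem.2 h1)
  obtain ⟨z, hz1, hz2, hz3⟩ := hw1
  obtain ⟨y, hy1, hy2, hy3⟩ := hw2
  exact ⟨w, hwG, ⟨μ1, z, a1, b1, hz1, hz2, hz3⟩, μ2, y, a2, b2, hy1, hy2, hy3⟩

end Pool.Agent.H56.MX
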