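import Pool.Agent.H56.MX.Ker
import Pool.Agent.H56.MX.Rgn
import Pool.Agent.H56.MX.Fix
import Pool.Agent.H56.MX.Chr
import Pool.Agent.H56.MX.Typ
import Pool.Agent.H56.MX.Fam
import Pool.Agent.H64.MN.Asm
import Pool.Agent.H64.MN.Mnx
import Pool.Agent.H64.NC.SFZ
import Pool.Agent.H64.NC.SFN
import Pool.Agent.H64.NC.PER
import Pool.Agent.H56.UE.UEX

/-!
# THEOREM M+ for the families

PROOF. `F = Rf (ex d m x)`, `a` critical in `JS`, orbit not dense. `atx_fam`: `G`, `ν`, `UDn`. `fix_two`: `q1 ≠ q2`. `chx` for both: `u1, φ1`, `u2, φ2`. `typ2`: `p ∈ G`. `udn_om`: `Om F p ∩ Om F a` (`Lim F a = Om F a`) is nonempty, closed, mapped into itself: it contains a minimal set `M0` (Zorn; library: minimal sets in H39/EMB).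
One of `q1`, `q2` is not in `M0` (otherwise `{q1} = M0 = {q2}`). Take this chart `φ`, `u`. `M = {z : ℂ | φ.symm z ∈ M0}` is compact (`φ M0` is closed and does not contain infinity). `kerx`: `hnr` from `reg_no` (`rec_inf`, transported by `φ`; `js_int`, `js_leo`), `hlo` from `lo`, `hMC`: a critical point in `M0 ⊆ Om F a ⊆ JS F` is in `Cl F a`
(its orbit closure is in `Om F a`), `hMo` from `cl_far` (chordal distance at most the planar distance), `hCn`: `a ∈ Cl F a`. `hfin`: `c ∈ C`, `F (φ.symm c) = q`: then the orbit closure of `φ.symm c` is `{φ.symm c, q}`; THIS CAN HAPPEN a priori (`q` may be in `Om F a`): excluded by the persistent recurrence: critical points in `JS` are not eventually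
periodic (`per_pue` and PR, H56/UE `pr_pue`: no positive upper exponent at `f c`; but `q ∈ JS` has one). `fam1x` with `S = Cl F a`: `ε`. `Scl`: the third part for `A = M0` gives the alternative.
-/

set_option autoImplicit false

open Filter Topology Polynomial Metric Set MeasureTheory

namespace Pool.Agent.H56.MX

open Pool.Agent.H44.Fatou (rat rat_continuous)
open Pool.Agent.H32.BT Pool.Agent.H79.Eul Pool.Agent.H79.Par
open Pool.Agent.H44.RC Pool.Agent.H47.NM Pool.Agent.H57.CF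
open Pool.Agent.H35.EX (chord)
open Pool.Agent.H91.ATT (Mb)
open Pool.Agent.H47.MM (Hyp FI)
open Pool.Agent.H47.OI (AC)
open Pool.Agent.H64.NC (js_conj)
open Pool.Agent.H64.MN (om_map om_sub_inv om_ne om_cj)

/-- the value of a critical point in the Julia set is not a fixed point -/
theorem val_nfix {d m : ℕ} (hd : 2 ≤ d) (hm : m ≤ d) {x : Em d m} (hcop : IsCoprime (pol x.1) (pol x.2))
    (hdeg : max (pol x.1).natDegree (pol x.2).natDegree = d) (hup : ¬ UpF d m x) {c q : OnePoint ℂ}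
    (hc : IsCrit (Rf (ex d m x)) c) (hcJ : c ∈ JS (Rf (ex d m x))) (hq : Rf (ex d m x) q = q) : Rf (ex d m x) c ≠ q := by
  intro h
  have hcopv := ex_cop hcop
  have hdegv := ex_deg hdeg
  have h1 := Pool.Agent.H64.NC.pr_fam Pool.Agent.H64.NC.sphF hd hm hcop hdeg hup c hc hcJ
  have h2 := Pool.Agent.H56.UE.pr_pue hcopv (by omega) h1
  have hqJ : q ∈ JS (Rf (ex d m x)) := by
    rw [← h]
    exact Pool.Agent.H64.PF.js_inv hd hcopv hdegv c hcJ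
  have h3 := Pool.Agent.H64.NC.per_pue hd hm hcop hdeg hup hqJ one_pos (by rw [Function.iterate_one]; exact hq)
  apply h2
  rw [← h] at h3
  exact h3

/-- the kernel in one chart -/
theorem core {d m : ℕ} (hd : 2 ≤ d) (hm : m ≤ d) {x : Em d m} (hcop : IsCoprime (pol x.1) (pol x.2))
    (hdeg : max (pol x.1).natDegree (pol x.2).natDegree = d) (hup : ¬ UpF d m x) {a : OnePoint ℂ} (ha : IsCrit (Rf (ex d m x)) a)
    (haJ : a ∈ JS (Rf (ex d m x))) {q : OnePoint ℂ} (hq : Rf (ex d m x) q = q) {u : E d} {φ : OnePoint ℂ ≃ₜ OnePoint ℂ}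
    (hφ : Mb φ) (hφq : φ q = OnePoint.infty) (conj : ∀ y, Rf u (φ y) = φ (Rf (ex d m x) y))
    (hcopu : IsCoprime (pol u.1) (pol u.2)) (hdegu : max (pol u.1).natDegree (pol u.2).natDegree = d)
    (hi : Rf u OnePoint.infty = OnePoint.infty) (h6 : J6 (Rf u)) (hφC : ∀ c ∈ Cl (Rf (ex d m x)) a, φ c ≠ OnePoint.infty)
    (hH : Hyp (pol u.1) (pol u.2) {z : ℂ | φ.symm (z : OnePoint ℂ) ∈ Cl (Rf (ex d m x)) a})
    {p : OnePoint ℂ} (hpJ : p ∈ JS (Rf (ex d m x))) {μ : ℂ → ℂ} {z : ℂ} (hμ : FI (Rf u) μ)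
    (hμ0 : ∀ z : ℂ, (z : OnePoint ℂ) ∉ JS (Rf u) → μ z = 0) (hpz : φ p = (z : OnePoint ℂ)) (h1 : ‖μ z‖ = 1) (hac : AC μ z (μ z))
    {M0 : Set (OnePoint ℂ)} (hMp : M0 ⊆ Om (Rf (ex d m x)) p) (hMa : M0 ⊆ Om (Rf (ex d m x)) a) (hMc : IsClosed M0)
    (hMn : M0.Nonempty) (hMi : ∀ y ∈ M0, Rf (ex d m x) y ∈ M0)
    (hmin : ∀ A ⊆ M0, IsClosed A → A.Nonempty → (∀ y ∈ A, Rf (ex d m x) y ∈ A) → A = M0) (hqM : q ∉ M0)
    (N : ℕ) {k : ℝ} (hk : k < 1) :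
    ∃ ε : ℝ, 0 < ε ∧ ∀ (Φ : OnePoint ℂ → ℂ → OnePoint ℂ) (𝓤 : Set (ℂ → OnePoint ℂ)),
      Scl (Rf (ex d m x)) a ε k Φ 𝓤 → ¬ CSX (Rf (ex d m x)) (Cl (Rf (ex d m x)) a) (Tg (Rf (ex d m x)) (Cl (Rf (ex d m x)) a) Φ 𝓤) N k Φ := by
  have hcopv := ex_cop hcop
  have hdegv := ex_deg hdeg
  have hfc : Continuous (Rf (ex d m x)) := rat_continuous hcopv
  have hne : ∀ y : OnePoint ℂ, y ≠ q → ∃ w : ℂ, φ y = (w : OnePoint ℂ) := by
    intro y hy
    have h2 : φ y ≠ OnePoint.infty := fun h => by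
      rw [← hφq] at h
      exact hy (φ.injective h)
    obtain ⟨w, hw⟩ := OnePoint.ne_infty_iff_exists.1 h2
    exact ⟨w, hw.symm⟩
  have hMq : ∀ y ∈ M0, y ≠ q := fun y hy h => hqM (h ▸ hy)
  have hJi := Pool.Agent.H64.PF.js_inv hd hcopv hdegv
  have hOJ : Om (Rf (ex d m x)) a ⊆ JS (Rf (ex d m x)) := om_sub_inv (Pool.Agent.H47.RJ.js_closed _) hJi haJ
  obtain ⟨M, hM⟩ : ∃ M : Set ℂ, M = {w : ℂ | φ.symm (w : OnePoint ℂ) ∈ M0} := ⟨_, rfl⟩
  have hMmem : ∀ w : ℂ, w ∈ M ↔ φ.symm (w : OnePoint ℂ) ∈ M0 := fun w => by rw [hM]; rfl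
  have hMcpt : IsCompact M := by
    have h2 : IsClosed (φ '' M0) := φ.isClosedMap M0 hMc
    have h3 : OnePoint.infty ∉ φ '' M0 := by
      rintro ⟨y, hy, hyi⟩
      rw [← hφq] at hyi
      exact hMq y hy (φ.injective hyi)
    have h4 := ((OnePoint.isClosed_iff_of_notMem h3).1 h2).2
    have h5 : ((↑) ⁻¹' (φ '' M0) : Set ℂ) = M := by
      ext w
      rw [hMmem]
      constructor
      · rintro ⟨y, hy, hyw⟩
        rw [← hyw, φ.symm_apply_apply]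
        exact hy
      · intro h
        exact ⟨_, h, φ.apply_symm_apply _⟩
    rw [← h5]
    exact h4
  have hMne : M.Nonempty := by
    obtain ⟨y, hy⟩ := hMn
    obtain ⟨w, hw⟩ := hne y (hMq y hy)
    refine ⟨w, (hMmem w).2 ?_⟩
    rw [← hw, φ.symm_apply_apply]
    exact hy
  have hcj : ∀ w : ℂ, Rf u (w : OnePoint ℂ) = φ (Rf (ex d m x) (φ.symm (w : OnePoint ℂ))) := fun w => by
    rw [← conj, φ.apply_symm_apply]
  have hMi' : ∀ y ∈ M, ∃ w ∈ M, rat (pol u.1) (pol u.2) (y : OnePoint ℂ) = (w : OnePoint ℂ) := by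
    intro y hy
    have h2 := hMi _ ((hMmem y).1 hy)
    obtain ⟨w, hw⟩ := hne _ (hMq _ h2)
    refine ⟨w, (hMmem w).2 ?_, ?_⟩
    · rw [← hw, φ.symm_apply_apply]
      exact h2
    · rw [← hw]
      exact hcj y
  have hmin' : ∀ A ⊆ M, IsClosed A → A.Nonempty →
      (∀ y ∈ A, ∃ w ∈ A, rat (pol u.1) (pol u.2) (y : OnePoint ℂ) = (w : OnePoint ℂ)) → A = M := by
    intro A hA hAc hAn hAi
    have hAcpt : IsCompact A := hMcpt.of_isClosed_subset hAc hA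
    obtain ⟨A0, hA0⟩ : ∃ A0 : Set (OnePoint ℂ), A0 = φ.symm '' ((fun w : ℂ => (w : OnePoint ℂ)) '' A) := ⟨_, rfl⟩
    have h2 : A0 = M0 := by
      apply hmin
      · rw [hA0]
        rintro _ ⟨_, ⟨w, hw, rfl⟩, rfl⟩
        exact (hMmem w).1 (hA hw)
      · rw [hA0]
        exact ((hAcpt.image OnePoint.continuous_coe).image φ.symm.continuous).isClosed
      · rw [hA0]
        exact (hAn.image _).image _
      · rw [hA0]
        rintro _ ⟨_, ⟨w, hw, rfl⟩, rfl⟩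
        obtain ⟨w', hw', he⟩ := hAi w hw
        refine ⟨_, ⟨w', hw', rfl⟩, ?_⟩
        show φ.symm (w' : OnePoint ℂ) = Rf (ex d m x) (φ.symm (w : OnePoint ℂ))
        rw [φ.symm_apply_eq, ← hcj w]
        exact he.symm
    apply Subset.antisymm hA
    intro w hw
    have h3 : φ.symm (w : OnePoint ℂ) ∈ A0 := by
      rw [h2]
      exact (hMmem w).1 hw
    rw [hA0] at h3
    obtain ⟨_, ⟨w', hw', rfl⟩, he⟩ := h3
    have h4 : w' = w := OnePoint.coe_injective (φ.symm.injective he)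
    rw [← h4]
    exact hw'
  have hMx' : ∀ y ∈ M, (y : OnePoint ℂ) ∈ Om (rat (pol u.1) (pol u.2)) (z : OnePoint ℂ) := by
    intro y hy
    have h2 := om_cj (f := Rf (ex d m x)) (g := Rf u) conj (hMp ((hMmem y).1 hy))
    rw [φ.apply_symm_apply, hpz] at h2
    exact h2
  have hMC : ∀ y ∈ M, IsCrit (rat (pol u.1) (pol u.2)) (y : OnePoint ℂ) →
      y ∈ {z : ℂ | φ.symm (z : OnePoint ℂ) ∈ Cl (Rf (ex d m x)) a} := by
    intro y hy hc
    have h2 : IsCrit (Rf (ex d m x)) (φ.symm (y : OnePoint ℂ)) := by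
      have h3 : IsCrit (Rf u) (φ (φ.symm (y : OnePoint ℂ))) := by
        rw [φ.apply_symm_apply]
        exact hc
      exact (isCrit_conj φ conj _).1 h3
    have h4 := hMa ((hMmem y).1 hy)
    exact ⟨h2, hOJ h4, _, subset_closure ⟨0, rfl⟩, h4⟩
  have hitφ : ∀ (n : ℕ) (y : OnePoint ℂ), (Rf u)^[n] (φ y) = φ ((Rf (ex d m x))^[n] y) := by
    intro n
    induction n with
    | zero => exact fun y => rfl
    | succ n ih =>
      intro y
      rw [Function.iterate_succ_apply', Function.iterate_succ_apply', ih, conj]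
  have hMo : ∃ ρ : ℝ, 0 < ρ ∧ ∀ c' : OnePoint ℂ, IsCrit (rat (pol u.1) (pol u.2)) c' →
      (∀ c ∈ {z : ℂ | φ.symm (z : OnePoint ℂ) ∈ Cl (Rf (ex d m x)) a}, c' ≠ (c : OnePoint ℂ)) → ∀ n : ℕ,
      ∀ y ∈ M, ∀ z : ℂ, (rat (pol u.1) (pol u.2))^[n] c' = (z : OnePoint ℂ) → ρ ≤ ‖z - y‖ := by
    obtain ⟨ρ, hρ, h2⟩ := cl_far hd hm hcop hdeg hup ha haJ
    obtain ⟨δ, hδ, h3⟩ := Pool.Agent.H47.RJ.ch_uc φ.symm.continuous hρ
    refine ⟨δ, hδ, fun c1 hc1 hne1 n y hy w hw => ?_⟩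
    obtain ⟨c', rfl⟩ := φ.surjective c1
    have h4 : IsCrit (Rf (ex d m x)) c' := (isCrit_conj φ conj c').1 hc1
    have h5 : c' ∉ Cl (Rf (ex d m x)) a := by
      intro h5
      obtain ⟨v, hv⟩ := OnePoint.ne_infty_iff_exists.1 (hφC c' h5)
      refine hne1 v ?_ hv.symm
      show φ.symm (v : OnePoint ℂ) ∈ Cl (Rf (ex d m x)) a
      rw [hv, φ.symm_apply_apply]
      exact h5
    have h6 := h2 c' h4 h5 n _ (hMa ((hMmem y).1 hy))
    by_contra h7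
    push Not at h7
    have h8 : chord (w : OnePoint ℂ) (y : OnePoint ℂ) < δ := by
      refine lt_of_le_of_lt ?_ h7
      change ‖w - y‖ / (√(1 + ‖w‖ ^ 2) * √(1 + ‖y‖ ^ 2)) ≤ _
      refine div_le_self (norm_nonneg _) ?_
      have e1 : 1 ≤ √(1 + ‖w‖ ^ 2) := Real.one_le_sqrt.2 (by nlinarith [sq_nonneg ‖w‖])
      have e2 : 1 ≤ √(1 + ‖y‖ ^ 2) := Real.one_le_sqrt.2 (by nlinarith [sq_nonneg ‖y‖])
      nlinarith
    have h9 := h3 _ _ h8
    have h10 : φ.symm (w : OnePoint ℂ) = (Rf (ex d m x))^[n] c' := by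
      rw [φ.symm_apply_eq, ← hitφ n c']
      exact hw.symm
    rw [h10] at h9
    exact absurd h6 (not_le.2 h9)
  have hleo : JS (rat (pol u.1) (pol u.2)) = univ → ∀ O : Set (OnePoint ℂ), IsOpen O → O.Nonempty →
      ∃ m : ℕ, (rat (pol u.1) (pol u.2))^[m] '' O = univ := by
    intro hJ O hO hn
    have hJ' : JS (Rf (ex d m x)) = univ := eq_univ_iff_forall.2 fun y =>
      (js_conj φ (fun y => (conj y).symm) y).1 (by
        have h2 : φ y ∈ JS (rat (pol u.1) (pol u.2)) := hJ ▸ mem_univ _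
        exact h2)
    obtain ⟨y, hy⟩ := hn
    obtain ⟨n, hn⟩ := js_leo hd hm hcop hdeg hup hJ' (hO.preimage φ.continuous) ⟨φ.symm y, by
      show φ (φ.symm y) ∈ O
      rw [φ.apply_symm_apply]
      exact hy⟩
    refine ⟨n, eq_univ_iff_forall.2 fun w => ?_⟩
    have h2 : φ.symm w ∈ (Rf (ex d m x))^[n] '' (φ ⁻¹' O) := hn ▸ mem_univ _
    obtain ⟨v, hv, hvw⟩ := h2
    refine ⟨φ v, hv, ?_⟩
    have h3 := hitφ n v
    rw [hvw, φ.apply_symm_apply] at h3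
    exact h3
  -- no regular points
  have hnr : ∀ z : ℂ, ¬ RegAt μ z := by
    obtain ⟨r, hr, hri⟩ := rec_inf hd hm hcop hdeg hup ha haJ
    refine reg_no hcopu (by omega) hi hμ hμ0 (fun h => js_int hd hcopu hdegu h) hleo
      (r0 := φ r) ((isCrit_conj φ conj r).2 hr) ?_
    have h2 : (range fun n : ℕ => (rat (pol u.1) (pol u.2))^[n] (φ r)) = φ '' (range fun n : ℕ => (Rf (ex d m x))^[n] r) := by
      rw [← range_comp]
      congr 1
      funext n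
      exact hitφ n r
    rw [h2]
    exact hri.image φ.injective.injOn
  have hzJ : (z : OnePoint ℂ) ∈ JS (Rf u) := by
    rw [← hpz]
    exact (js_conj φ (fun y => (conj y).symm) p).2 hpJ
  have hC : ∀ c ∈ {z : ℂ | φ.symm (z : OnePoint ℂ) ∈ Cl (Rf (ex d m x)) a}, φ.symm (c : OnePoint ℂ) ∈ Cl (Rf (ex d m x)) a :=
    fun c hc => hc
  have hS : ∀ s ∈ Cl (Rf (ex d m x)) a, ∃ c ∈ {z : ℂ | φ.symm (z : OnePoint ℂ) ∈ Cl (Rf (ex d m x)) a}, φ s = (c : OnePoint ℂ) := by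
    intro s hs
    obtain ⟨v, hv⟩ := OnePoint.ne_infty_iff_exists.1 (hφC s hs)
    refine ⟨v, ?_, hv.symm⟩
    show φ.symm (v : OnePoint ℂ) ∈ Cl (Rf (ex d m x)) a
    rw [hv, φ.symm_apply_apply]
    exact hs
  have haC : a ∈ Cl (Rf (ex d m x)) a := by
    obtain ⟨y, hy⟩ := om_ne (Rf (ex d m x)) a
    exact ⟨ha, haJ, y, Pool.Agent.H64.MN.om_sub_orb hy, hy⟩
  have hCn : ({z : ℂ | φ.symm (z : OnePoint ℂ) ∈ Cl (Rf (ex d m x)) a}).Nonempty := by
    obtain ⟨c, hc, -⟩ := hS a haC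
    exact ⟨c, hc⟩
  have hfin : ∀ c ∈ {z : ℂ | φ.symm (z : OnePoint ℂ) ∈ Cl (Rf (ex d m x)) a},
      rat (pol u.1) (pol u.2) (c : OnePoint ℂ) ≠ OnePoint.infty := by
    intro c hc h2
    have h3 : φ (Rf (ex d m x) (φ.symm (c : OnePoint ℂ))) = φ q := by
      rw [hφq, ← hcj c]
      exact h2
    exact val_nfix hd hm hcop hdeg hup hc.1 hc.2.1 hq (φ.injective h3)
  obtain ⟨ε, hε, h2⟩ := fam1x hH hφ conj hC hS hfin hMcpt (N := N) (fun L k hk =>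
    kerx hH h6 hμ hzJ h1 hac hnr (lo hd hcopu hdegu hzJ) hMcpt hMne hMi' hmin' hMx' hMC hMo hCn L N hk) hk
  refine ⟨ε, hε, fun Φ 𝓤 hScl => h2 Φ 𝓤 hScl.1 (fun T hT => ⟨(hScl.2.1 T hT).1, (hScl.2.1 T hT).2.1⟩) ?_⟩
  have hpt : ∀ s ∈ M0, ∃ y ∈ M, φ.symm (y : OnePoint ℂ) = s := by
    intro s hs
    obtain ⟨w, hw⟩ := hne s (hMq s hs)
    refine ⟨w, (hMmem w).2 ?_, ?_⟩
    · rw [← hw, φ.symm_apply_apply]
      exact hs
    · rw [← hw, φ.symm_apply_apply]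
  rcases hScl.2.2 M0 hMa hMc hMn hMi with ⟨c, hc, s, hs, hsV⟩ | ⟨T, hT, s, hs, hsT⟩
  · obtain ⟨y, hy, rfl⟩ := hpt s hs
    exact Or.inl ⟨c, hc, y, hy, hsV⟩
  · obtain ⟨y, hy, rfl⟩ := hpt s hs
    exact Or.inr ⟨T, hT, y, hy, hsT⟩

theorem ncx_fam : MXStm := by
  intro d m hd hm x hcop hdeg hup a ha haJ hnd N k hk
  have hcopv := ex_cop hcop
  have hdegv := ex_deg hdeg
  have hfc : Continuous (Rf (ex d m x)) := rat_continuous hcopv
  obtain ⟨G, hGJ, hGi, hGm, hGp, hLF, hUD⟩ := Pool.Agent.H91.ATT.atx_fam hd hm hcop hdeg hup ha haJ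
  obtain ⟨ν, hν⟩ := hLF hnd
  obtain ⟨q1, q2, hq12, hq1, hq2⟩ := fix_two hd hm hcop hdeg hup
  obtain ⟨u1, φ1, hb1, hi1, hc1, hp1, he1, hf1, hj1, hs1, hh1⟩ := chx hd hm hcop hdeg hup ha haJ hq1
  obtain ⟨u2, φ2, hb2, hi2, hc2, hp2, he2, hf2, hj2, hs2, hh2⟩ := chx hd hm hcop hdeg hup ha haJ hq2
  obtain ⟨p, hp, ⟨μ1, z1, m1, m2, m3, m4, m5⟩, ⟨μ2, z2, n1, n2, n3, n4, n5⟩⟩ :=
    typ2 (by omega) hcopv hdegv hb1 hb2 hc1 hc2 hGJ hGi hGm hGp hν
  obtain ⟨y, hy, hyp⟩ := Pool.Agent.H18.MF.udn_om (Pool.Agent.H18.MF.lim_closed _ _) (hUD p hp)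
  have hyL : y ∈ Om (Rf (ex d m x)) a := fun U hU => (mapClusterPt_iff_frequently.1 hy) U hU
  obtain ⟨M0, hM0, h1, h2, h3, h4⟩ := Pool.Agent.H64.MN.min_ex (f := Rf (ex d m x))
    (K := Om (Rf (ex d m x)) p ∩ Om (Rf (ex d m x)) a)
    ((Pool.Agent.H64.MN.om_closed _ _).inter (Pool.Agent.H64.MN.om_closed _ _)) ⟨y, hyp, hyL⟩
    (fun y hy => ⟨om_map hfc hy.1, om_map hfc hy.2⟩)
  by_cases hq : q1 ∈ M0
  · have hq' : q2 ∉ M0 := by
      intro hq'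
      have e1 : ({q1} : Set (OnePoint ℂ)) = M0 := h4 _ (singleton_subset_iff.2 hq) isClosed_singleton ⟨q1, rfl⟩ (by
        intro y hy
        rw [mem_singleton_iff.1 hy, hq1]
        rfl)
      rw [← e1] at hq'
      exact hq12 (mem_singleton_iff.1 hq').symm
    exact core hd hm hcop hdeg hup ha haJ hq2 hb2 hi2 hc2 hp2 he2 hf2 hj2 hs2 hh2 (hGJ hp) n1 n2 n3 n4 n5
      (hM0.trans inter_subset_left) (hM0.trans inter_subset_right) h1 h2 h3 h4 hq' N hk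
  · exact core hd hm hcop hdeg hup ha haJ hq1 hb1 hi1 hc1 hp1 he1 hf1 hj1 hs1 hh1 (hGJ hp) m1 m2 m3 m4 m5
      (hM0.trans inter_subset_left) (hM0.trans inter_subset_right) h1 h2 h3 h4 hq N hk

end Pool.Agent.H56.MX
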