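import Pool.Agent.H56.MX.Defs
import Pool.Agent.H56.MN.Chn

/-!
# Module ChnT: the chain of univalent maps for an arbitrary small target

PROOF. `chnT` of H56/MN/Chn (`Ts`, `Hof` are the sets and the hypothesis of that theorem).
-/

set_option autoImplicit false

open Filter Topology Polynomial Metric Set MeasureTheory

namespace Pool.Agent.H56.MX

open Pool.Agent.H44.Fatou (rat)
open Pool.Agent.H44.RC (J6)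
open Pool.Agent.H47.MM (Un Me Hyp Sys)
open Pool.Agent.H56.MN (BC kap)

theorem chnT {a b : Polynomial ℂ} {C : Set ℂ} (h : Hyp a b C) (h6 : J6 (rat a b)) : ∃ L0 : ℕ, ∀ τ : ℕ → ℝ,
    (∀ i, 0 < τ i ∧ τ i < 1) → ∀ N : ℕ, ∃ ε1 : ℝ, 0 < ε1 ∧ ∀ T : ℂ → ℂ, Un T → (∀ w ∈ ball (0 : ℂ) 1, ‖T w - T 0‖ < ε1) →
      Hof a b C T → ∀ (n : ℕ) (x u : ℂ), ‖u‖ < 1 → (rat a b)^[n] ((x : ℂ) : OnePoint ℂ) = ((T u : ℂ) : OnePoint ℂ) → ∀ j ≤ n,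
      kap (rat a b) (Ts T) ((x : ℂ) : OnePoint ℂ) n j ≤ N →
      ∃ i ≤ kap (rat a b) (Ts T) ((x : ℂ) : OnePoint ℂ) n j, ∃ B : ℂ → ℂ, BC L0 τ i B ∧ ∃ S : ℂ → ℂ, Un S ∧
        ((S 0 : ℂ) : OnePoint ℂ) = (rat a b)^[j] ((x : ℂ) : OnePoint ℂ) ∧
        ∀ w ∈ ball (0 : ℂ) 1, (rat a b)^[n - j] ((S w : ℂ) : OnePoint ℂ) = ((T (Me u (B w)) : ℂ) : OnePoint ℂ) :=
  Pool.Agent.H56.MN.chnT h h6

end Pool.Agent.H56.MX
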