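import Pool.Agent.H56.MX.Defs
import Pool.Agent.H56.MN.Cmp
import Pool.Agent.H47.OI.Scw
import Pool.Agent.H47.MM.Ivd

/-!
# Module Cnt: infinitely many visits with bounded pictures make the field holomorphic somewhere

PROOF. `deriv (Φ j) 0 → 0`: otherwise (one quarter theorem) a fixed disc `ball x η` is in `Φ j (ball 0 1)` for infinitely many `j`, and `f^[s j]` maps it into `Ts T`: contradiction to `hle` (a small chordal disc at `x` is in `ball x η`: `chn_near` or so, MM/Sml).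
`scw` (`w j = 0`): a subsequence, `φ`, `c'`, `FCv (pb μ (Φ (s' j))) φ c'`. `ivd`: `pb μ (Φ j) w * F j' (w) = pb μ T (F j w) * conj (F j' (w))`. Let `F0' (w1) ≠ 0`: there are a disc `Δ = ball (F0 w1) r ⊆ ball 0 1`, for large `j` inverse branches `h j` of `F j` on `Δ` near `w1`, `h j → h` (or the argument of `pfl`, OI/Pfl: near-linearity on a
small ball at `w1`, images of bad sets are small, images of the balls contain a fixed ball at `F0 w1`). So for almost every `z ∈ Δ`: `pb μ T z = c' * conj ((φ ∘ h)' z) / (φ ∘ h)' z` (limit in measure; the left side does not depend on `j`). `RegAt μ (T (F0 w1))` with `φ ∘ h ∘ T⁻¹`.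
-/

set_option autoImplicit false

open Filter Topology Polynomial Metric Set MeasureTheory

namespace Pool.Agent.H56.MX

open Pool.Agent.H44.Fatou (rat)
open Pool.Agent.H35.EX (chord)
open Pool.Agent.H47.OI (AC FCv scw)
open Pool.Agent.H47.MM (Un Me FI pb ivd)
open Pool.Agent.H56.MN (tlu_of_cc cc_of_tlu)

private theorem chord_near (x : ℂ) {η0 : ℝ} (h0 : 0 < η0) : ∃ η : ℝ, 0 < η ∧ ∀ z : OnePoint ℂ,
    chord (x : OnePoint ℂ) z < η → ∃ u : ℂ, (u : OnePoint ℂ) = z ∧ ‖u - x‖ < η0 := by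
  obtain ⟨A, hA⟩ : ∃ A : ℝ, A = √(1 + ‖x‖ ^ 2) := ⟨_, rfl⟩
  have hA0 : 0 < A := by rw [hA]; exact Real.sqrt_pos.2 (by positivity)
  obtain ⟨B, hB⟩ : ∃ B : ℝ, B = 1 + ‖x‖ := ⟨_, rfl⟩
  have hB0 : 0 < B := by rw [hB]; positivity
  refine ⟨min (1 / (2 * A)) (η0 / (2 * A * B)), lt_min (by positivity) (by positivity), ?_⟩
  intro z hz
  obtain ⟨h1, h2⟩ := lt_min_iff.1 hz
  induction z using OnePoint.rec with
  | infty =>
    exfalso
    have h3 : chord (x : OnePoint ℂ) OnePoint.infty = 1 / √(1 + ‖x‖ ^ 2) := rfl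
    rw [h3, ← hA] at h1
    have h4 : 1 / (2 * A) ≤ 1 / A := by
      apply one_div_le_one_div_of_le hA0
      linarith
    linarith
  | coe u =>
    refine ⟨u, rfl, ?_⟩
    have h3 : chord (x : OnePoint ℂ) (u : OnePoint ℂ) = ‖x - u‖ / (√(1 + ‖x‖ ^ 2) * √(1 + ‖u‖ ^ 2)) := rfl
    rw [h3, ← hA] at h1 h2
    have hS0 : 0 < √(1 + ‖u‖ ^ 2) := Real.sqrt_pos.2 (by positivity)
    have hS : √(1 + ‖u‖ ^ 2) ≤ B + ‖u - x‖ := by
      have h5 : ‖u‖ ≤ ‖x‖ + ‖u - x‖ := by
        calc ‖u‖ = ‖x + (u - x)‖ := by rw [add_sub_cancel]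
          _ ≤ ‖x‖ + ‖u - x‖ := norm_add_le _ _
      have h6 : √(1 + ‖u‖ ^ 2) ≤ 1 + ‖u‖ := by
        rw [Real.sqrt_le_left (by positivity)]
        nlinarith [norm_nonneg u]
      rw [hB]
      linarith
    rw [norm_sub_rev x u, div_lt_iff₀ (by positivity)] at h1 h2
    have h7 : 1 / (2 * A) * (A * √(1 + ‖u‖ ^ 2)) = √(1 + ‖u‖ ^ 2) / 2 := by
      field_simp
    have h8 : η0 / (2 * A * B) * (A * √(1 + ‖u‖ ^ 2)) = η0 * √(1 + ‖u‖ ^ 2) / (2 * B) := by
      field_simp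
    rw [h7] at h1
    rw [h8, lt_div_iff₀ (by positivity)] at h2
    have h9 : √(1 + ‖u‖ ^ 2) ≤ 2 * B := by linarith
    have h10 : η0 * √(1 + ‖u‖ ^ 2) ≤ η0 * (2 * B) := mul_le_mul_of_nonneg_left h9 h0.le
    have h11 : ‖u - x‖ * (2 * B) < η0 * (2 * B) := lt_of_lt_of_le h2 h10
    exact lt_of_mul_lt_mul_right h11 (by positivity)

private theorem loc {F : ℕ → ℂ → ℂ} {B : ℂ → ℂ}
    (hF : ∀ j, DifferentiableOn ℂ (F j) (ball 0 1)) (hB : TendstoLocallyUniformlyOn F B atTop (ball 0 1))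
    {p : ℂ} (hp : p ∈ ball (0 : ℂ) 1) (h0 : deriv B p ≠ 0) {δ : ℝ} (hδ : 0 < δ) {ρ : ℝ} (hρ : 0 < ρ) :
    ∃ r : ℝ, 0 < r ∧ r ≤ ρ ∧ closedBall p r ⊆ ball 0 1 ∧ ∃ η : ℝ, 0 < η ∧ ∃ m : NNReal, ∀ᶠ j in atTop,
      (∀ w ∈ closedBall p r, ‖deriv (F j) w - deriv B p‖ < δ) ∧ ball (B p) η ⊆ F j '' closedBall p r ∧
      (∀ w ∈ closedBall p r, deriv (F j) w ≠ 0) ∧
      ∀ E ⊆ closedBall p r, volume (F j '' E) ≤ m * volume E := by
  set D : ℂ := deriv B p with hD
  have hDpos : 0 < ‖D‖ := norm_pos_iff.2 h0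
  set A : ℂ →L[ℝ] ℂ := (ContinuousLinearMap.smulRight (1 : ℂ →L[ℂ] ℂ) D).restrictScalars ℝ with hA
  have hAx : ∀ x : ℂ, A x = x * D := fun x => by simp [hA]
  set m : NNReal := Real.toNNReal (|A.det| + 1) with hm
  have hm1 : ENNReal.ofReal |A.det| < m := by
    rw [hm]
    exact (ENNReal.ofReal_lt_ofReal_iff (by positivity)).2 (lt_add_one _)
  have hev := addHaar_image_le_mul_of_det_lt (volume : Measure ℂ) A hm1
  have hmin : 0 < min δ (‖D‖ / 2) := lt_min hδ (by positivity)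
  have hev2 : ∀ᶠ d : NNReal in 𝓝[>] (0 : NNReal), 0 < d ∧ (d : ℝ) < min δ (‖D‖ / 2) := by
    have h1 : Ioo (0 : NNReal) (Real.toNNReal (min δ (‖D‖ / 2))) ∈ 𝓝[>] (0 : NNReal) :=
      Ioo_mem_nhdsGT (by simpa using hmin)
    filter_upwards [h1] with d hd
    exact ⟨hd.1, by
      have := hd.2
      rw [Real.lt_toNNReal_iff_coe_lt] at this
      exact this⟩
  obtain ⟨d, hd1, hd0, hd2⟩ := (hev.and hev2).exists
  have hdpos : (0 : ℝ) < d := by exact_mod_cast hd0
  have hdδ : (d : ℝ) < δ := hd2.trans_le (min_le_left _ _)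
  have hdD : (d : ℝ) < ‖D‖ / 2 := hd2.trans_le (min_le_right _ _)
  have hBd : DifferentiableOn ℂ B (ball 0 1) :=
    hB.differentiableOn (Filter.Eventually.of_forall hF) isOpen_ball
  have hB' : TendstoLocallyUniformlyOn (deriv ∘ F) (deriv B) atTop (ball 0 1) :=
    hB.deriv (Filter.Eventually.of_forall hF) isOpen_ball
  have hcont : ContinuousAt (deriv B) p :=
    ((hBd.analyticOnNhd isOpen_ball).deriv p hp).continuousAt
  obtain ⟨r0, hr0, hr0'⟩ := Metric.continuousAt_iff.1 hcont (d / 2) (by positivity)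
  have hp1 : ‖p‖ < 1 := mem_ball_zero_iff.1 hp
  set r : ℝ := min ρ (min (r0 / 2) ((1 - ‖p‖) / 2)) with hr
  have hrpos : 0 < r := lt_min hρ (lt_min (by positivity) (by linarith))
  have hrρ : r ≤ ρ := min_le_left _ _
  have hrr0 : r < r0 := ((min_le_right _ _).trans (min_le_left _ _)).trans_lt (by linarith)
  have hrp : r ≤ (1 - ‖p‖) / 2 := (min_le_right _ _).trans (min_le_right _ _)
  have hsub : closedBall p r ⊆ ball (0 : ℂ) 1 := by
    intro w hw
    rw [mem_ball_zero_iff]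
    rw [mem_closedBall, dist_eq_norm] at hw
    have : ‖w‖ ≤ ‖w - p‖ + ‖p‖ := by simpa using norm_add_le (w - p) p
    linarith
  refine ⟨r, hrpos, hrρ, hsub, ‖D‖ * r / 8, by positivity, m, ?_⟩
  have hunif := (tendstoLocallyUniformlyOn_iff_forall_isCompact isOpen_ball).1 hB' _ hsub
    (isCompact_closedBall p r)
  rw [Metric.tendstoUniformlyOn_iff] at hunif
  have hpt : Tendsto (fun j => F j p) atTop (𝓝 (B p)) := hB.tendsto_at hp
  rw [Metric.tendsto_nhds] at hpt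
  filter_upwards [hunif (d / 2) (by positivity), hpt (‖D‖ * r / 8) (by positivity)] with j hj1 hj2
  have hder : ∀ w ∈ closedBall p r, ‖deriv (F j) w - D‖ < d := by
    intro w hw
    have h1 := hj1 w hw
    rw [dist_eq_norm, norm_sub_rev] at h1
    have h2 : dist (deriv B w) (deriv B p) < d / 2 :=
      hr0' (lt_of_le_of_lt (mem_closedBall.1 hw) hrr0)
    rw [dist_eq_norm] at h2
    have h3 : deriv (F j) w - D = (deriv (F j) w - deriv B w) + (deriv B w - deriv B p) := by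
      rw [hD]; ring
    rw [h3]
    refine (norm_add_le _ _).trans_lt ?_
    have h4 : ‖deriv (F j) w - deriv B w‖ < d / 2 := h1
    linarith
  have happ : ∀ x ∈ closedBall p r, ∀ y ∈ closedBall p r,
      ‖F j x - F j y - (x - y) * D‖ ≤ d * ‖x - y‖ := by
    intro x hx y hy
    have hg : ∀ z ∈ closedBall p r, HasDerivAt (fun z => F j z - z * D) (deriv (F j) z - D) z := by
      intro z hz
      have h1 := ((hF j).differentiableAt (isOpen_ball.mem_nhds (hsub hz))).hasDerivAt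
      have h2 := (hasDerivAt_id z).mul_const D
      rw [one_mul] at h2
      exact h1.sub h2
    have h3 := (convex_closedBall p r).norm_image_sub_le_of_norm_deriv_le (𝕜 := ℂ)
      (f := fun z => F j z - z * D) (C := d) (x := y) (y := x)
      (fun z hz => (hg z hz).differentiableAt)
      (fun z hz => by rw [(hg z hz).deriv]; exact (hder z hz).le) hy hx
    have h4 : F j x - F j y - (x - y) * D = (F j x - x * D) - (F j y - y * D) := by ring
    rw [h4]
    exact h3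
  have hlow : ∀ z ∈ closedBall p r, ‖D‖ / 2 * ‖z - p‖ ≤ ‖F j z - F j p‖ := by
    intro z hz
    have h1 := happ z hz p (mem_closedBall_self hrpos.le)
    have h2 : ‖(z - p) * D‖ ≤ ‖F j z - F j p‖ + ‖F j z - F j p - (z - p) * D‖ := by
      have : (z - p) * D = (F j z - F j p) - (F j z - F j p - (z - p) * D) := by ring
      calc ‖(z - p) * D‖ = ‖(F j z - F j p) - (F j z - F j p - (z - p) * D)‖ := by rw [← this]
        _ ≤ _ := norm_sub_le _ _
    rw [norm_mul] at h2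
    nlinarith [norm_nonneg (z - p)]
  refine ⟨fun w hw => (hder w hw).trans hdδ, ?_, ?_, ?_⟩
  · have h1 : ball (F j p) (‖D‖ / 2 * r / 2) ⊆ F j '' closedBall p r := by
      refine DiffContOnCl.ball_subset_image_closedBall ((hF j).diffContOnCl_ball hsub) hrpos ?_ ?_
      · intro z hz
        have := hlow z (sphere_subset_closedBall hz)
        rw [mem_sphere, dist_eq_norm] at hz
        rw [hz] at this
        exact this
      · have h2 : ∀ᶠ z in 𝓝[≠] p, F j z ≠ F j p := by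
          filter_upwards [self_mem_nhdsWithin,
            nhdsWithin_le_nhds (closedBall_mem_nhds p hrpos)] with z hz1 hz2
          intro h
          have h3 := hlow z hz2
          rw [h, sub_self, norm_zero] at h3
          have h4 : 0 < ‖z - p‖ := norm_pos_iff.2 (sub_ne_zero.2 hz1)
          nlinarith
        exact h2.frequently.filter_mono nhdsWithin_le_nhds
    refine Subset.trans ?_ h1
    intro z hz
    rw [mem_ball] at hz ⊢
    have := dist_triangle z (B p) (F j p)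
    rw [dist_comm (B p) (F j p)] at this
    linarith
  · intro w hw h
    have h1 := hder w hw
    rw [h, zero_sub, norm_neg] at h1
    linarith
  · intro E hE
    refine hd1 E (F j) ?_
    intro x hx y hy
    have h := happ x (hE hx) y (hE hy)
    rw [← hAx] at h
    exact h


private theorem cq' {a b : ℂ} (ha : a ≠ 0) (hb : b ≠ 0) : ‖a / (starRingEnd ℂ) a - b / (starRingEnd ℂ) b‖ ≤ 2 * ‖a - b‖ / ‖b‖ := by
  have ha1 : (starRingEnd ℂ) a ≠ 0 := by simpa using ha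
  have hb1 : (starRingEnd ℂ) b ≠ 0 := by simpa using hb
  have h1 : a / (starRingEnd ℂ) a - b / (starRingEnd ℂ) b =
      (a * (starRingEnd ℂ) (b - a) + (starRingEnd ℂ) a * (a - b)) / ((starRingEnd ℂ) a * (starRingEnd ℂ) b) := by
    rw [map_sub]
    field_simp
    ring
  have ha' := norm_pos_iff.2 ha
  have hb' := norm_pos_iff.2 hb
  rw [h1, norm_div, norm_mul, RCLike.norm_conj, RCLike.norm_conj, div_le_div_iff₀ (by positivity) hb']
  have h2 := norm_add_le (a * (starRingEnd ℂ) (b - a)) ((starRingEnd ℂ) a * (a - b))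
  rw [norm_mul, norm_mul, RCLike.norm_conj, RCLike.norm_conj, norm_sub_rev b a] at h2
  have h3 := mul_le_mul_of_nonneg_right h2 hb'.le
  calc _ ≤ _ := h3
    _ = _ := by ring

private theorem qn {a : ℂ} (ha : a ≠ 0) : ‖a / (starRingEnd ℂ) a‖ = 1 := by
  rw [norm_div, RCLike.norm_conj, div_self (norm_ne_zero_iff.2 ha)]

private theorem qc {c a : ℂ} (hc : ‖c‖ = 1) (ha : a ≠ 0) : ‖c * (starRingEnd ℂ) a / a‖ = 1 := by
  rw [norm_div, norm_mul, RCLike.norm_conj, hc, one_mul, div_self (norm_ne_zero_iff.2 ha)]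

/-- the limit of the pictures of an invariant field is a holomorphic field -/
theorem reg_of_lim {μ : ℂ → ℂ} {F : ℕ → ℂ → ℂ} {B φ : ℂ → ℂ} {ν : ℕ → ℂ → ℂ} {c : ℂ} (hc : ‖c‖ = 1)
    (hF : ∀ j, DifferentiableOn ℂ (F j) (ball 0 1)) (hB : TendstoLocallyUniformlyOn F B atTop (ball 0 1))
    (hφ : DifferentiableOn ℂ φ (ball 0 1)) (hφ0 : ∀ w ∈ ball (0 : ℂ) 1, deriv φ w ≠ 0) (hν : FCv ν φ c)
    (hiv : ∀ j, ∀ w ∈ ball (0 : ℂ) 1, ν j w * deriv (F j) w = μ (F j w) * (starRingEnd ℂ) (deriv (F j) w))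
    {p : ℂ} (hp : p ∈ ball (0 : ℂ) 1) (h0 : deriv B p ≠ 0) : RegAt μ (B p) := by
  have hBd : DifferentiableOn ℂ B (ball 0 1) :=
    hB.differentiableOn (Filter.Eventually.of_forall hF) isOpen_ball
  have hBa : ∀ w ∈ ball (0 : ℂ) 1, AnalyticAt ℂ B w := hBd.analyticOnNhd isOpen_ball
  have hB' : TendstoLocallyUniformlyOn (deriv ∘ F) (deriv B) atTop (ball 0 1) :=
    hB.deriv (Filter.Eventually.of_forall hF) isOpen_ball
  -- the local inverse
  obtain ⟨h, hh⟩ : ∃ h : ℂ → ℂ, h = (hBa p hp).hasStrictDerivAt.localInverse _ _ _ h0 := ⟨_, rfl⟩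
  have hha : AnalyticAt ℂ h (B p) := by rw [hh]; exact (hBa p hp).analyticAt_localInverse h0
  have hl : ∀ᶠ w in 𝓝 p, h (B w) = w := by rw [hh]; exact HasStrictDerivAt.eventually_left_inverse ..
  have hr : ∀ᶠ z in 𝓝 (B p), B (h z) = z := by rw [hh]; exact HasStrictDerivAt.eventually_right_inverse ..
  have hp' : h (B p) = p := hl.self_of_nhds
  have hball : ∀ᶠ z in 𝓝 (B p), h z ∈ ball (0 : ℂ) 1 :=
    hha.continuousAt.eventually (isOpen_ball.mem_nhds (by rw [hp']; exact hp))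
  obtain ⟨R0, hR0, hR⟩ : ∃ R0 : ℝ, 0 < R0 ∧ ∀ z ∈ ball (B p) R0, AnalyticAt ℂ h z ∧ B (h z) = z ∧ h z ∈ ball (0 : ℂ) 1 := by
    obtain ⟨R0, hR0, hR⟩ := Metric.eventually_nhds_iff_ball.1 (hha.eventually_analyticAt.and (hr.and hball))
    exact ⟨R0, hR0, hR⟩
  have hBp : B p ∈ ball (B p) R0 := mem_ball_self hR0
  -- derivatives
  have hder : ∀ z ∈ ball (B p) R0, deriv B (h z) * deriv h z = 1 := by
    intro z hz
    obtain ⟨h1, h2, h3⟩ := hR z hz
    have e1 : HasDerivAt (fun t => B (h t)) (deriv B (h z) * deriv h z) z :=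
      ((hBa _ h3).differentiableAt.hasDerivAt).comp z h1.differentiableAt.hasDerivAt
    have e2 : (fun t => B (h t)) =ᶠ[𝓝 z] id := by
      filter_upwards [isOpen_ball.mem_nhds hz] with t ht
      exact (hR t ht).2.1
    exact (e1.congr_of_eventuallyEq e2.symm).unique (hasDerivAt_id z)
  have hφa : ∀ w ∈ ball (0 : ℂ) 1, AnalyticAt ℂ φ w := hφ.analyticOnNhd isOpen_ball
  have hΨd : ∀ z ∈ ball (B p) R0, HasDerivAt (fun t => φ (h t)) (deriv φ (h z) * deriv h z) z := by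
    intro z hz
    obtain ⟨h1, h2, h3⟩ := hR z hz
    exact ((hφa _ h3).differentiableAt.hasDerivAt).comp z h1.differentiableAt.hasDerivAt
  have hh0 : ∀ z ∈ ball (B p) R0, deriv h z ≠ 0 := fun z hz h1 => by
    have := hder z hz
    rw [h1, mul_zero] at this
    exact zero_ne_one this
  have hΨ0 : ∀ z ∈ ball (B p) R0, deriv (fun t => φ (h t)) z ≠ 0 := by
    intro z hz
    rw [(hΨd z hz).deriv]
    exact mul_ne_zero (hφ0 _ (hR z hz).2.2) (hh0 z hz)
  have hΨD : DifferentiableOn ℂ (fun t => φ (h t)) (ball (B p) R0) := fun z hz =>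
    (hΨd z hz).differentiableAt.differentiableWithinAt
  obtain ⟨M, hM⟩ : ∃ M : ℂ → ℂ, M = fun z => c * (starRingEnd ℂ) (deriv (fun t => φ (h t)) z) / deriv (fun t => φ (h t)) z :=
    ⟨_, rfl⟩
  have hMc : ContinuousOn M (ball (B p) R0) := by
    intro z hz
    have h1 : ContinuousAt (deriv fun t => φ (h t)) z := ((hΨD.analyticOnNhd isOpen_ball).deriv z hz).continuousAt
    rw [hM]
    exact ((continuousAt_const.mul (Complex.continuous_conj.continuousAt.comp h1)).div₀ h1 (hΨ0 z hz)).continuousWithinAt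
  -- `M (B w) = N w * B' w / conj (B' w)`
  have hMB : ∀ w ∈ ball (0 : ℂ) 1, h (B w) = w → B w ∈ ball (B p) R0 →
      M (B w) = c * (starRingEnd ℂ) (deriv φ w) / deriv φ w * (deriv B w / (starRingEnd ℂ) (deriv B w)) := by
    intro w hw hw1 hw2
    have e1 := hder _ hw2
    have e2 := (hΨd _ hw2).deriv
    rw [hw1] at e1 e2
    have hB0 : deriv B w ≠ 0 := left_ne_zero_of_mul_eq_one e1
    have hB1 : (starRingEnd ℂ) (deriv B w) ≠ 0 := by simpa using hB0
    have e3 : deriv h (B w) = (deriv B w)⁻¹ := (eq_inv_of_mul_eq_one_right e1)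
    have hφw := hφ0 w hw
    rw [hM]
    show c * (starRingEnd ℂ) (deriv (fun t => φ (h t)) (B w)) / deriv (fun t => φ (h t)) (B w) = _
    rw [e2, e3, map_mul, map_inv₀]
    field_simp
  -- the small ball
  obtain ⟨ρ, hρ, hρ1⟩ : ∃ ρ : ℝ, 0 < ρ ∧ ∀ w ∈ closedBall p ρ, h (B w) = w ∧ B w ∈ ball (B p) (R0 / 2) ∧
      deriv B w ≠ 0 := by
    have h1 : ∀ᶠ w in 𝓝 p, B w ∈ ball (B p) (R0 / 2) :=
      (hBa p hp).continuousAt.eventually (ball_mem_nhds _ (by positivity))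
    have h2 : ∀ᶠ w in 𝓝 p, deriv B w ≠ 0 := (hBa p hp).deriv.continuousAt.eventually_ne h0
    obtain ⟨ρ, hρ, hρ1⟩ := Metric.eventually_nhds_iff_ball.1 (hl.and (h1.and h2))
    exact ⟨ρ / 2, by positivity, fun w hw => hρ1 w (closedBall_subset_ball (by linarith) hw)⟩
  have hD0 : 0 < ‖deriv B p‖ := norm_pos_iff.2 h0
  obtain ⟨r, hr0, hrρ, hrsub, η, hη, m, hev⟩ := loc hF hB hp h0 (δ := ‖deriv B p‖ / 2) (by positivity) hρ
  obtain ⟨η', hη'⟩ : ∃ η' : ℝ, η' = min η (R0 / 2) := ⟨_, rfl⟩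
  have hη'0 : 0 < η' := by rw [hη']; exact lt_min hη (by positivity)
  have hη'1 : η' ≤ η := by rw [hη']; exact min_le_left _ _
  have hη'2 : η' ≤ R0 / 2 := by rw [hη']; exact min_le_right _ _
  -- a radius `R < 1`
  obtain ⟨R, hR1, hRp⟩ : ∃ R : ℝ, R < 1 ∧ closedBall p r ⊆ ball 0 R := by
    obtain ⟨z, hz, hzmax⟩ := (isCompact_closedBall p r).exists_isMaxOn ⟨p, mem_closedBall_self hr0.le⟩ continuous_norm.continuousOn
    have hz1 : ‖z‖ < 1 := mem_ball_zero_iff.1 (hrsub hz)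
    refine ⟨(‖z‖ + 1) / 2, by linarith, fun w hw => ?_⟩
    rw [mem_ball_zero_iff]
    have : ‖w‖ ≤ ‖z‖ := hzmax hw
    linarith
  have hzero : ∀ ε : ℝ, 0 < ε → volume {z ∈ ball (B p) η' | ε ≤ ‖μ z - M z‖} = 0 := by
    intro ε hε
    -- uniform continuity of `M`
    have huc : UniformContinuousOn M (closedBall (B p) (R0 / 2)) :=
      (isCompact_closedBall _ _).uniformContinuousOn_of_continuous (hMc.mono (closedBall_subset_ball (by linarith)))
    obtain ⟨δ1, hδ1, hM1⟩ := Metric.uniformContinuousOn_iff.1 huc (ε / 4) (by positivity)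
    have hu1 := (tendstoLocallyUniformlyOn_iff_forall_isCompact isOpen_ball).1 hB _ hrsub (isCompact_closedBall p r)
    have hu2 := (tendstoLocallyUniformlyOn_iff_forall_isCompact isOpen_ball).1 hB' _ hrsub (isCompact_closedBall p r)
    rw [Metric.tendstoUniformlyOn_iff] at hu1 hu2
    -- a lower bound of `B'`
    obtain ⟨q, hq, hqB⟩ : ∃ q : ℝ, 0 < q ∧ ∀ w ∈ closedBall p r, q ≤ ‖deriv B w‖ := by
      have hcont : ContinuousOn (fun w => ‖deriv B w‖) (closedBall p r) := fun w hw =>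
        (((hBa w (hrsub hw)).deriv).continuousAt.norm).continuousWithinAt
      obtain ⟨z, hz, hz1⟩ := (isCompact_closedBall p r).exists_isMinOn ⟨p, mem_closedBall_self hr0.le⟩ hcont
      exact ⟨‖deriv B z‖, norm_pos_iff.2 (hρ1 z (closedBall_subset_closedBall hrρ hz)).2.2, fun w hw => hz1 hw⟩
    have hcl := hν R hR1 (ε / 4) (by positivity)
    -- the bad set
    have hbd : ∀ᶠ j in atTop, volume {z ∈ ball (B p) η' | ε ≤ ‖μ z - M z‖} ≤ (m : ENNReal) *
        volume (ball (0 : ℂ) R ∩ {w | ε / 4 ≤ ‖ν j w - c * (starRingEnd ℂ) (deriv φ w) / deriv φ w‖}) := by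
      filter_upwards [hev, hu1 δ1 hδ1, hu2 (q * ε / 8) (by positivity)] with j ⟨j1, j2, j3, j4⟩ j5 j6
      refine le_trans (measure_mono ?_) ((j4 (closedBall p r ∩ {w | ε / 4 ≤ ‖ν j w - c * (starRingEnd ℂ) (deriv φ w) / deriv φ w‖})
        inter_subset_left).trans (mul_le_mul_right (measure_mono (inter_subset_inter_left _ hRp)) _))
      rintro z ⟨hz1, hz2⟩
      obtain ⟨w, hw, rfl⟩ := j2 (ball_subset_ball hη'1 hz1)
      refine ⟨w, ⟨hw, ?_⟩, rfl⟩
      by_contra hcon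
      rw [mem_setOf_eq, not_le] at hcon
      obtain ⟨w1, w2, w3⟩ := hρ1 w (closedBall_subset_closedBall hrρ hw)
      have hw01 := hrsub hw
      have hFw := j3 w hw
      have hFw' : (starRingEnd ℂ) (deriv (F j) w) ≠ 0 := by simpa using hFw
      -- the three estimates
      have e1 : μ (F j w) = ν j w * (deriv (F j) w / (starRingEnd ℂ) (deriv (F j) w)) := by
        have := hiv j w hw01
        rw [← mul_div_assoc, this, mul_div_assoc, div_self hFw', mul_one]
      have e2 := hMB w hw01 w1 (ball_subset_ball (by linarith) w2)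
      have e3 : dist (M (B w)) (M (F j w)) < ε / 4 := by
        refine hM1 _ (ball_subset_closedBall w2) _ (ball_subset_closedBall (ball_subset_ball hη'2 hz1)) (j5 w hw)
      have e4 : ‖deriv (F j) w / (starRingEnd ℂ) (deriv (F j) w) - deriv B w / (starRingEnd ℂ) (deriv B w)‖ < ε / 4 + ε / 8 := by
        refine (cq' hFw w3).trans_lt ?_
        have e5 := j6 w hw
        rw [dist_eq_norm, norm_sub_rev] at e5
        have e6 := hqB w hw
        rw [div_lt_iff₀ (by linarith)]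
        have e7 : ‖deriv (F j) w - deriv B w‖ < q * ε / 8 := e5
        have e8 : q * ε ≤ ε * ‖deriv B w‖ := by nlinarith
        nlinarith [norm_nonneg (deriv B w)]
      rw [dist_eq_norm] at e3
      have e9 : μ (F j w) - M (F j w) =
          (ν j w - c * (starRingEnd ℂ) (deriv φ w) / deriv φ w) * (deriv (F j) w / (starRingEnd ℂ) (deriv (F j) w)) +
          c * (starRingEnd ℂ) (deriv φ w) / deriv φ w * (deriv (F j) w / (starRingEnd ℂ) (deriv (F j) w) -
            deriv B w / (starRingEnd ℂ) (deriv B w)) + (M (B w) - M (F j w)) := by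
        rw [e1, e2]
        ring
      have e10 : ‖μ (F j w) - M (F j w)‖ < ε / 4 + (ε / 4 + ε / 8) + ε / 4 := by
        rw [e9]
        refine (norm_add_le _ _).trans_lt (add_lt_add ((norm_add_le _ _).trans_lt (add_lt_add ?_ ?_)) e3)
        · rw [norm_mul, qn hFw, mul_one]
          exact hcon
        · rw [norm_mul, qc hc (hφ0 w hw01), one_mul]
          exact e4
      linarith
    have hlim := ENNReal.Tendsto.const_mul (a := (m : ENNReal)) hcl (Or.inr (by simp))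
    rw [mul_zero] at hlim
    exact le_antisymm (ge_of_tendsto hlim hbd) bot_le
  -- conclusion
  refine ⟨η', fun t => φ (h t), c, hη'0, hc, hΨD.mono (ball_subset_ball (by linarith)), fun w hw =>
    hΨ0 w (ball_subset_ball (by linarith) hw), ?_⟩
  have hnull : volume (⋃ n : ℕ, {z ∈ ball (B p) η' | 1 / ((n : ℝ) + 1) ≤ ‖μ z - M z‖}) = 0 :=
    measure_iUnion_null fun n => hzero _ (by positivity)
  rw [ae_iff]
  refine measure_mono_null ?_ hnull
  intro z hz
  rw [mem_setOf_eq, Classical.not_imp] at hz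
  obtain ⟨hz1, hz2⟩ := hz
  have hz3 : 0 < ‖μ z - M z‖ := by
    rw [norm_pos_iff, sub_ne_zero, hM]
    exact hz2
  obtain ⟨n, hn⟩ := exists_nat_one_div_lt hz3
  exact mem_iUnion.2 ⟨n, hz1, hn.le⟩

theorem con {a b : Polynomial ℂ} (hcop : IsCoprime a b) (hd : 1 ≤ max a.natDegree b.natDegree)
    (hfi : rat a b OnePoint.infty = OnePoint.infty) {μ : ℂ → ℂ} (hμ : FI (rat a b) μ) {x : ℂ} (h1 : ‖μ x‖ = 1)
    (hac : AC μ x (μ x)) {T : ℂ → ℂ} (hT : Un T)
    (hle : ∀ r : ℝ, 0 < r → ∃ n0 : ℕ, ∀ n ≥ n0, ∃ z, chord (x : OnePoint ℂ) z < r ∧ (rat a b)^[n] z ∉ Ts T)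
    {s : ℕ → ℕ} (hs : Tendsto s atTop atTop) {Φ F : ℕ → ℂ → ℂ} {F0 : ℂ → ℂ} (hΦ : ∀ j, Un (Φ j)) (hΦ0 : ∀ j, Φ j 0 = x)
    (hF : ∀ j, DifferentiableOn ℂ (F j) (ball 0 1)) (hF1 : ∀ j, ∀ w ∈ ball (0 : ℂ) 1, F j w ∈ ball (0 : ℂ) 1)
    (hlim : TendstoLocallyUniformlyOn F F0 atTop (ball 0 1)) (hF0 : ∀ w ∈ ball (0 : ℂ) 1, F0 w ∈ ball (0 : ℂ) 1)
    (hnc : ∃ w ∈ ball (0 : ℂ) 1, deriv F0 w ≠ 0)
    (hfe : ∀ j, ∀ w ∈ ball (0 : ℂ) 1, (rat a b)^[s j] ((Φ j w : ℂ) : OnePoint ℂ) = ((T (F j w) : ℂ) : OnePoint ℂ)) :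
    ∃ z, RegAt μ z := by
  -- the pull backs are small
  have hd0 : Tendsto (fun j => deriv (Φ j) 0) atTop (𝓝 0) := by
    rw [Metric.tendsto_nhds]
    intro ε hε
    obtain ⟨η, hη, hnear⟩ := chord_near x (η0 := 1 * ε / 16) (by positivity)
    obtain ⟨n0, hn0⟩ := hle η hη
    filter_upwards [hs.eventually_ge_atTop n0] with j hj
    rw [dist_zero_right]
    by_contra hcon
    push Not at hcon
    obtain ⟨z, hz, hz1⟩ := hn0 (s j) hj
    obtain ⟨u, rfl, hu⟩ := hnear z hz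
    have h4 := Pool.Agent.H80.AJ.univ_cover one_pos (hΦ j).1 (hΦ j).2
    have h5 : u ∈ ball (Φ j 0) (1 * ‖deriv (Φ j) 0‖ / 16) := by
      rw [hΦ0 j, mem_ball, dist_eq_norm]
      refine hu.trans_le ?_
      linarith
    obtain ⟨w, hw, hwu⟩ := h4 h5
    refine hz1 ?_
    rw [← hwu, hfe j w hw]
    exact ⟨F j w, hF1 j w hw, rfl⟩
  obtain ⟨s', φ, c', hs', hc', hφ, -, hφ0, hν⟩ := scw h1 hac (ψ := Φ) (fun j => (hΦ j).1) (fun j => (hΦ j).2)
    (t := 0) one_pos (w := fun _ => 0) (fun _ => by simp) hΦ0 hd0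
  obtain ⟨p, hp, hp0⟩ := hnc
  have hF0d : DifferentiableOn ℂ F0 (ball 0 1) := hlim.differentiableOn (Filter.Eventually.of_forall hF) isOpen_ball
  have hTd : ∀ z ∈ ball (0 : ℂ) 1, DifferentiableAt ℂ T z := fun z hz => hT.1.differentiableAt (isOpen_ball.mem_nhds hz)
  have hT0 : ∀ z ∈ ball (0 : ℂ) 1, deriv T z ≠ 0 := fun z hz =>
    Pool.Agent.H43.UB.uh_der isOpen_ball hT.1 hT.2 hz
  -- the limit of `T ∘ F j`
  have hlim2 : TendstoLocallyUniformlyOn (fun j w => T (F (s' j) w)) (fun w => T (F0 w)) atTop (ball 0 1) := by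
    have h2 : ContinuousOn (fun w => T (F0 w)) (ball 0 1) := fun w hw =>
      ((hTd _ (hF0 w hw)).continuousAt.comp_continuousWithinAt (hF0d.continuousOn w hw))
    refine tlu_of_cc h2 fun x hx => ?_
    have h3 := cc_of_tlu hF0d.continuousOn hlim (l := atTop ×ˢ 𝓝[ball 0 1] x) (n := fun y : ℕ × ℂ => s' y.1)
      (g := fun y => y.2) hx (hs'.tendsto_atTop.comp tendsto_fst) tendsto_snd
    exact ((hTd _ (hF0 x hx)).continuousAt.tendsto).comp h3
  refine ⟨T (F0 p), reg_of_lim (B := fun w => T (F0 w)) hc' (F := fun j w => T (F (s' j) w)) (fun j => ?_) hlim2 hφ hφ0 hν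
    (fun j w hw => ?_) hp ?_⟩
  · intro w hw
    exact ((hTd _ (hF1 _ w hw)).comp w ((hF _).differentiableAt (isOpen_ball.mem_nhds hw))).differentiableWithinAt
  · have h2 := ivd hcop hd hfi hμ (hΦ (s' j)) hT (hF (s' j)) (hF1 (s' j)) (hfe (s' j)) w hw
    have h3 : deriv (fun w => T (F (s' j) w)) w = deriv T (F (s' j) w) * deriv (F (s' j)) w :=
      (((hTd _ (hF1 _ w hw)).hasDerivAt).comp w ((hF _).differentiableAt (isOpen_ball.mem_nhds hw)).hasDerivAt).deriv
    have h4 := hT0 _ (hF1 (s' j) w hw)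
    rw [h3, map_mul]
    unfold pb at h2
    have h5 : μ (Φ (s' j) w) * (starRingEnd ℂ) (deriv (Φ (s' j)) w) / deriv (Φ (s' j)) w * (deriv T (F (s' j) w) * deriv (F (s' j)) w) =
        deriv T (F (s' j) w) * (μ (Φ (s' j) w) * (starRingEnd ℂ) (deriv (Φ (s' j)) w) / deriv (Φ (s' j)) w * deriv (F (s' j)) w) := by
      ring
    rw [h5, h2]
    field_simp
  · have h3 : deriv (fun w => T (F0 w)) p = deriv T (F0 p) * deriv F0 p :=
      (((hTd _ (hF0 p hp)).hasDerivAt).comp p (hF0d.differentiableAt (isOpen_ball.mem_nhds hp)).hasDerivAt).deriv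
    rw [h3]
    exact mul_ne_zero (hT0 _ (hF0 p hp)) hp0

end Pool.Agent.H56.MX
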