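import Pool.Agent.H56.MX.VisT
import Pool.Agent.H56.MX.Cnt
import Pool.Agent.H47.MM.Ker

/-!
# Module Ker: the kernel of M+ in the plane

`kery`: only `M ⊆ Om f x` and `hMo` are used (no minimality, no case distinction): `N = 0`: `NB` is false (`C` is not empty). `N ≥ 1`: `ε` from `visn` (with `t`, `t'` for `k`), `vist`, smaller than `δ0 / 2` and `ρ / 2`. First alternative: `y = ψ c w ∈ M`, `‖w‖ ^ l < k ≤ t ^ l`, `‖w‖ < t`; `y ∈ Om f x`: infinitely many `n` with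
`f^[n] x = ψ c (u n)`, `‖u n‖ < t`: `visn`: `H n` on `ball 0 t'`; `Φ n w = H n (t' Me (u n / t') w)`, `F n w = t' Me (u n / t') w`; a subsequence with `u n → u`: `con` with `T = ψ c` (`hle` from `hlo`: a set of diameter `< δ0`): a regular point: contradiction to `hnr`. Second alternative: `y = T w ∈ M`, `‖w‖ < k`: `Hof` from `hMo` (`T (D)` is in the
`2 ε`-neighbourhood of `y`); infinitely many `n` with `f^[n] x = T (u n)`, `‖u n‖ < (k + 1) / 2`: `vist`: `i`, `B n`, `Φ n`; `F n = Me (u n) ∘ B n`; `bc_cmp`, `u n → u`: `F n → F0 = Me u ∘ B`, `bc_bas`: `F0` is not locally constant, so `F0' ≠ 0` somewhere: `con`.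
-/

set_option autoImplicit false

open Filter Topology Polynomial Metric Set MeasureTheory

namespace Pool.Agent.H56.MX

open Pool.Agent.H44.Fatou (rat)
open Pool.Agent.H32.BT (IsCrit)
open Pool.Agent.H35.EX (chord)
open Pool.Agent.H44.RC (JS J6 Om)
open Pool.Agent.H47.OI (AC)
open Pool.Agent.H47.MM (Un Me FI Hyp Sys par un_nhds)
open Pool.Agent.H56.MN (NB BC visn bc_bas bc_cmp tlu_of_cc cc_of_tlu tend_me me_mob me_inj')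
open Pool.H81.MM (mob_lt mob_hasDerivAt mob_zero)
open Pool.Agent.H43.UB (uh_der)

private theorem chord_le (x u : ℂ) : chord (x : OnePoint ℂ) (u : OnePoint ℂ) ≤ ‖x - u‖ := by
  have h3 : chord (x : OnePoint ℂ) (u : OnePoint ℂ) = ‖x - u‖ / (√(1 + ‖x‖ ^ 2) * √(1 + ‖u‖ ^ 2)) := rfl
  rw [h3]
  refine div_le_self (norm_nonneg _) ?_
  have h1 : (1 : ℝ) ≤ √(1 + ‖x‖ ^ 2) := Real.one_le_sqrt.2 (by nlinarith [sq_nonneg ‖x‖])
  have h2 : (1 : ℝ) ≤ √(1 + ‖u‖ ^ 2) := Real.one_le_sqrt.2 (by nlinarith [sq_nonneg ‖u‖])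
  nlinarith

/-- infinitely many visits to the target over an inner disc -/
private theorem vseq {f : OnePoint ℂ → OnePoint ℂ} {x : OnePoint ℂ} {T : ℂ → ℂ} (hT : Un T) {t : ℝ} (ht1 : t ≤ 1)
    {w : ℂ} (hw : ‖w‖ < t) (hy : ((T w : ℂ) : OnePoint ℂ) ∈ Om f x) : ∃ (s : ℕ → ℕ) (u : ℕ → ℂ) (u0 : ℂ), StrictMono s ∧
      (∀ j, ‖u j‖ < t) ∧ ‖u0‖ ≤ t ∧ Tendsto u atTop (𝓝 u0) ∧ ∀ j, f^[s j] x = ((T (u j) : ℂ) : OnePoint ℂ) := by
  have ht0 : 0 < t := (norm_nonneg w).trans_lt hw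
  have h1 : (fun z : ℂ => (z : OnePoint ℂ)) '' (T '' ball 0 t) ∈ 𝓝 ((T w : ℂ) : OnePoint ℂ) :=
    un_nhds hT one_pos le_rfl isOpen_ball (ball_subset_ball ht1) (mem_ball_zero_iff.2 hw)
  obtain ⟨s, hs, hs2⟩ := extraction_of_frequently_atTop (hy _ h1)
  have h2 : ∀ j, ∃ u : ℂ, ‖u‖ < t ∧ f^[s j] x = ((T u : ℂ) : OnePoint ℂ) := by
    intro j
    obtain ⟨_, ⟨u, hu, rfl⟩, hu2⟩ := hs2 j
    exact ⟨u, mem_ball_zero_iff.1 hu, hu2.symm⟩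
  choose u hu hu2 using h2
  obtain ⟨u0, hu0, θ, hθ, hlim⟩ := (isCompact_closedBall (0 : ℂ) t).tendsto_subseq
    (fun j => mem_closedBall_zero_iff.2 (hu j).le)
  exact ⟨s ∘ θ, u ∘ θ, u0, hs.comp hθ, fun j => hu _, mem_closedBall_zero_iff.1 hu0, hlim, fun j => hu2 _⟩

/-- THEOREM M+ in the plane, without minimality -/
theorem kery {a b : Polynomial ℂ} {C : Set ℂ} (h : Hyp a b C) (h6 : J6 (rat a b)) {μ : ℂ → ℂ} (hμ : FI (rat a b) μ) {x : ℂ}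
    (hx : (x : OnePoint ℂ) ∈ JS (rat a b)) (h1 : ‖μ x‖ = 1) (hac : AC μ x (μ x)) (hnr : ∀ z : ℂ, ¬ RegAt μ z)
    (hlo : ∃ δ0 : ℝ, 0 < δ0 ∧ ∀ r : ℝ, 0 < r → ∃ n0 : ℕ, ∀ n ≥ n0, ∀ p : OnePoint ℂ, ∃ z, chord (x : OnePoint ℂ) z < r ∧
      δ0 ≤ chord p ((rat a b)^[n] z))
    {M : Set ℂ} (hMx : ∀ y ∈ M, (y : OnePoint ℂ) ∈ Om (rat a b) (x : OnePoint ℂ))
    (hMo : ∃ ρ : ℝ, 0 < ρ ∧ ∀ c' : OnePoint ℂ, IsCrit (rat a b) c' → (∀ c ∈ C, c' ≠ (c : OnePoint ℂ)) → ∀ n : ℕ,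
      ∀ y ∈ M, ∀ z : ℂ, (rat a b)^[n] c' = (z : OnePoint ℂ) → ρ ≤ ‖z - y‖) (hCn : C.Nonempty)
    (L N : ℕ) {k : ℝ} (hk : k < 1) :
    ∃ ε : ℝ, 0 < ε ∧ ∀ (g ψ : ℂ → ℂ → ℂ) (l : ℂ → ℕ), Sys a b C L ε g ψ l → NB a b C g ψ N k →
      ((∃ c ∈ C, ∃ w : ℂ, ‖w‖ < 1 ∧ ‖w‖ ^ l c < k ∧ ψ c w ∈ M) ∨ ∃ T : ℂ → ℂ, Un T ∧ (∀ w ∈ ball (0 : ℂ) 1, ‖T w - T 0‖ < ε) ∧
        (∃ w : ℂ, ‖w‖ < k ∧ T w ∈ M) ∧ NBt a b C g T N k) → False := by
  have hz1 : (0 : ℂ) ∈ ball (0 : ℂ) 1 := mem_ball_self one_pos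
  obtain ⟨a0, ha0⟩ := hCn
  rcases Nat.eq_zero_or_pos N with hN0 | hN
  · refine ⟨1, one_pos, fun g ψ l hS hNB _ => ?_⟩
    obtain ⟨j, hj, -⟩ := hNB a0 ha0 a0 ha0 0 ⟨0, hz1, by simp only [Function.iterate_zero, id, hS.p0 a0 ha0]⟩
      (by rw [hN0]; exact Nat.zero_le _)
    exact absurd hj (Nat.not_lt_zero _)
  have hd1 : 1 ≤ max a.natDegree b.natDegree := le_trans one_le_two h.deg
  obtain ⟨k', t, t', s, hkk, -, ht0, htt, ht1, -, -, hkt, -⟩ := par L hk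
  have htlt : t < 1 := htt.trans ht1
  have ht'0 : 0 < t' := ht0.trans htt
  obtain ⟨ε1, hε1, hvis⟩ := visn h h6 hμ hx h1 hac L N hN hk ht0 htt ht1 (fun m hm hm0 => hkk.trans (hkt m hm hm0))
  obtain ⟨L1, τ, hτ, ε2, hε2, hvt⟩ := vist h h6 hμ hx h1 hac L N hN hk
  obtain ⟨δ0, hδ0, hlo⟩ := hlo
  obtain ⟨ρ, hρ, hMo⟩ := hMo
  refine ⟨min (min ε1 ε2) (min δ0 (ρ / 2)), lt_min (lt_min hε1 hε2) (lt_min hδ0 (by linarith)), ?_⟩
  intro g ψ l hS hNB halt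
  obtain ⟨ε, hεd⟩ : ∃ ε, ε = min (min ε1 ε2) (min δ0 (ρ / 2)) := ⟨_, rfl⟩
  rw [← hεd] at hS halt
  have he1 : ε ≤ ε1 := by rw [hεd]; exact (min_le_left _ _).trans (min_le_left _ _)
  have he2 : ε ≤ ε2 := by rw [hεd]; exact (min_le_left _ _).trans (min_le_right _ _)
  have he3 : ε ≤ δ0 := by rw [hεd]; exact (min_le_right _ _).trans (min_le_left _ _)
  have he4 : ε ≤ ρ / 2 := by rw [hεd]; exact (min_le_right _ _).trans (min_le_right _ _)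
  have hSm : ∀ ε' : ℝ, ε ≤ ε' → Sys a b C L ε' g ψ l := fun ε' he =>
    ⟨hS.gu, fun c hc w hw => (hS.gs c hc w hw).trans_le he, hS.pu, hS.p0, fun c hc w hw => (hS.ps c hc w hw).trans_le he,
      hS.l2, hS.lL, hS.fp⟩
  have hle : ∀ T : ℂ → ℂ, (∀ w ∈ ball (0 : ℂ) 1, ‖T w - T 0‖ < ε) → ∀ r : ℝ, 0 < r → ∃ n0 : ℕ, ∀ n ≥ n0,
      ∃ z, chord (x : OnePoint ℂ) z < r ∧ (rat a b)^[n] z ∉ Ts T := by
    intro T hT r hr
    obtain ⟨n0, hn0⟩ := hlo r hr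
    refine ⟨n0, fun n hn => ?_⟩
    obtain ⟨z, h2, h3⟩ := hn0 n hn ((T 0 : ℂ) : OnePoint ℂ)
    refine ⟨z, h2, ?_⟩
    rintro ⟨w, hw, hw2⟩
    rw [← hw2] at h3
    have h4 := chord_le (T 0) (T w)
    have h5 := hT w hw
    rw [norm_sub_rev] at h5
    exact absurd (h3.trans h4) (not_le.2 (h5.trans_le he3))
  rcases halt with ⟨c, hc, w, hw1, hwk, hwM⟩ | ⟨T, hT, hTs, ⟨w, hwk, hwM⟩, hNBt⟩
  · -- the first alternative
    have hwt : ‖w‖ < t := by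
      refine lt_of_pow_lt_pow_left₀ (l c) ht0.le (hwk.trans_le ?_)
      exact hkk.trans (hkt (l c) (hS.lL c hc) (by have := hS.l2 c hc; omega))
    obtain ⟨s, u, u0, hs, hu, hu0, hul, hfu⟩ := vseq (hS.pu c hc) htlt.le hwt (hMx _ hwM)
    have hHe : ∀ j, ∃ H : ℂ → ℂ, DifferentiableOn ℂ H (ball 0 t') ∧
        (∀ z ∈ ball (0 : ℂ) t', (rat a b)^[s j] ((H z : ℂ) : OnePoint ℂ) = ((ψ c z : ℂ) : OnePoint ℂ)) ∧ H (u j) = x :=
      fun j => hvis g ψ l (hSm _ he1) hNB (s j) c hc (u j) (hu j) (hfu j)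
    choose H hH1 hH2 hH3 using hHe
    have hut : ∀ v : ℂ, ‖v‖ ≤ t → ‖v / (t' : ℂ)‖ < 1 := by
      intro v hv
      rw [norm_div, Complex.norm_real, Real.norm_of_nonneg ht'0.le, div_lt_one ht'0]
      exact hv.trans_lt htt
    have htc : (t' : ℂ) ≠ 0 := by
      rw [Ne, Complex.ofReal_eq_zero]
      exact ht'0.ne'
    -- the maps `w ↦ t' Me (v / t') w`
    have hQ1 : ∀ v : ℂ, ‖v‖ ≤ t → ∀ w ∈ ball (0 : ℂ) 1, (t' : ℂ) * Me (v / t') w ∈ ball (0 : ℂ) t' := by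
      intro v hv w hw
      rw [mem_ball_zero_iff, norm_mul, Complex.norm_real, Real.norm_of_nonneg ht'0.le, me_mob]
      calc t' * ‖_‖ < t' * 1 := mul_lt_mul_of_pos_left (mob_lt (hut v hv) (mem_ball_zero_iff.1 hw)) ht'0
        _ = t' := mul_one _
    have hQ2 : ∀ v : ℂ, ‖v‖ ≤ t → DifferentiableOn ℂ (fun w => (t' : ℂ) * Me (v / t') w) (ball 0 1) := by
      intro v hv w hw
      exact ((mob_hasDerivAt (hut v hv) (mem_ball_zero_iff.1 hw)).differentiableAt.const_mul _).differentiableWithinAt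
    have hQ3 : ∀ v : ℂ, ‖v‖ ≤ t → InjOn (fun w => (t' : ℂ) * Me (v / t') w) (ball 0 1) := by
      intro v hv w hw w' hw' hww
      exact me_inj' (hut v hv) (mem_ball_zero_iff.1 hw) (mem_ball_zero_iff.1 hw') (mul_left_cancel₀ htc hww)
    have hbt' : ball (0 : ℂ) t' ⊆ ball 0 1 := ball_subset_ball ht1.le
    have hHi : ∀ j, InjOn (H j) (ball 0 t') := by
      intro j w hw w' hw' hww
      refine (hS.pu c hc).2 (hbt' hw) (hbt' hw') (OnePoint.coe_injective ?_)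
      rw [← hH2 j w hw, ← hH2 j w' hw', hww]
    have hcv : TendstoLocallyUniformlyOn (fun j w => (t' : ℂ) * Me (u j / t') w) (fun w => (t' : ℂ) * Me (u0 / t') w) atTop
        (ball 0 1) := by
      refine tlu_of_cc (hQ2 _ hu0).continuousOn fun w hw => ?_
      have h2 : Tendsto (fun y : ℕ × ℂ => u y.1 / (t' : ℂ)) (atTop ×ˢ 𝓝[ball 0 1] w) (𝓝 (u0 / (t' : ℂ))) :=
        (hul.comp tendsto_fst).div_const _
      have h3 : Tendsto (fun y : ℕ × ℂ => y.2) (atTop ×ˢ 𝓝[ball 0 1] w) (𝓝 w) :=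
        (tendsto_snd.mono_right nhdsWithin_le_nhds)
      exact (tend_me (hut u0 hu0) (mem_ball_zero_iff.1 hw) h2 h3).const_mul _
    obtain ⟨z, hz⟩ := con h.cop hd1 h.inf hμ h1 hac (hS.pu c hc)
      (hle (ψ c) fun w hw => by rw [hS.p0 c hc]; exact hS.ps c hc w hw) (s := s) hs.tendsto_atTop
      (Φ := fun j w => H j ((t' : ℂ) * Me (u j / t') w)) (F := fun j w => (t' : ℂ) * Me (u j / t') w)
      (F0 := fun w => (t' : ℂ) * Me (u0 / t') w)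
      (fun j => ⟨(hH1 j).comp (hQ2 _ (hu j).le) (hQ1 _ (hu j).le), fun w hw w' hw' hww =>
        hQ3 _ (hu j).le hw hw' (hHi j (hQ1 _ (hu j).le w hw) (hQ1 _ (hu j).le w' hw') hww)⟩)
      (fun j => by
        show H j ((t' : ℂ) * Me (u j / t') 0) = x
        rw [me_mob, mob_zero, mul_div_cancel₀ _ htc]
        exact hH3 j)
      (fun j => hQ2 _ (hu j).le) (fun j w hw => hbt' (hQ1 _ (hu j).le w hw))
      hcv (fun w hw => hbt' (hQ1 _ hu0 w hw))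
      ⟨0, hz1, uh_der isOpen_ball (hQ2 _ hu0) (hQ3 _ hu0) hz1⟩
      (fun j w hw => hH2 j _ (hQ1 _ (hu j).le w hw))
    exact hnr z hz
  · -- the second alternative
    obtain ⟨k1, hk1, hk11⟩ : ∃ k1 : ℝ, k < k1 ∧ k1 < 1 := exists_between hk
    have hof : Hof a b C T := by
      intro c' hc' m hm
      by_contra hcon
      push Not at hcon
      obtain ⟨w', hw', hw2⟩ := hm
      have h2 := hMo c' hc' hcon m (T w) hwM (T w') hw2.symm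
      have h3 := hTs w' hw'
      have h4 := hTs w (mem_ball_zero_iff.2 (hwk.trans hk))
      have h5 : ‖T w' - T w‖ ≤ ‖T w' - T 0‖ + ‖T w - T 0‖ := by
        rw [show T w' - T w = (T w' - T 0) - (T w - T 0) by ring]
        exact norm_sub_le _ _
      linarith
    obtain ⟨s, u, u0, hs, hu, hu0, hul, hfu⟩ := vseq hT hk11.le (hwk.trans hk1) (hMx _ hwM)
    have hu1 : ∀ j, ‖u j‖ < 1 := fun j => (hu j).trans hk11
    have hu01 : ‖u0‖ < 1 := hu0.trans_lt hk11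
    have hve : ∀ j, ∃ i ≤ N, ∃ B : ℂ → ℂ, BC L1 τ i B ∧ ∃ Φ : ℂ → ℂ, Un Φ ∧ Φ 0 = x ∧
        ∀ w ∈ ball (0 : ℂ) 1, (rat a b)^[s j] ((Φ w : ℂ) : OnePoint ℂ) = ((T (Me (u j) (B w)) : ℂ) : OnePoint ℂ) :=
      fun j => hvt g ψ l (hSm _ he2) hNB T hT (fun w hw => (hTs w hw).trans_le he2) hof hNBt (s j) (u j) (hu1 j) (hfu j)
    choose I hI B hB Φ hΦ hΦ0 hΦf using hve
    -- pigeonhole
    obtain ⟨i, hiI⟩ : ∃ i, ∃ᶠ j in atTop, I j = i := by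
      by_contra hcon
      push Not at hcon
      have h2 : ∀ᶠ j in atTop, ∀ i ∈ Finset.range (N + 1), I j ≠ i :=
        (Filter.eventually_all_finset _).2 fun i _ => hcon i
      obtain ⟨j, hj⟩ := h2.exists
      exact hj (I j) (Finset.mem_range.2 (by have := hI j; omega)) rfl
    obtain ⟨κ, hκ, hκI⟩ := extraction_of_frequently_atTop hiI
    obtain ⟨s1, B', hs1, hB', hlim⟩ := bc_cmp hτ i (B := fun j => B (κ j)) fun j => by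
      have := hB (κ j)
      rw [hκI j] at this
      exact this
    obtain ⟨J, hJ⟩ : ∃ J : ℕ → ℕ, J = κ ∘ s1 := ⟨_, rfl⟩
    have hJm : StrictMono J := by rw [hJ]; exact hκ.comp hs1
    have hJl : Tendsto J atTop atTop := hJm.tendsto_atTop
    have hlim' : TendstoLocallyUniformlyOn (fun j => B (J j)) B' atTop (ball 0 1) := by
      rw [hJ]
      exact hlim
    obtain ⟨hb0, hb1, hb2, hb3⟩ := bc_bas hτ hB'
    have hM1 : ∀ v : ℂ, ‖v‖ < 1 → ∀ w : ℂ, ‖w‖ < 1 → ‖Me v w‖ < 1 := by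
      intro v hv w hw
      rw [me_mob]
      exact mob_lt hv hw
    have hM2 : ∀ v : ℂ, ‖v‖ < 1 → ∀ Q : ℂ → ℂ, (∀ w ∈ ball (0 : ℂ) 1, ‖Q w‖ < 1) → DifferentiableOn ℂ Q (ball 0 1) →
        DifferentiableOn ℂ (fun w => Me v (Q w)) (ball 0 1) := by
      intro v hv Q hQ1 hQ2 w hw
      exact (mob_hasDerivAt hv (hQ1 w hw)).differentiableAt.comp_differentiableWithinAt w (hQ2 w hw)
    have hcv : TendstoLocallyUniformlyOn (fun j w => Me (u (J j)) (B (J j) w)) (fun w => Me u0 (B' w)) atTop (ball 0 1) := by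
      refine tlu_of_cc (hM2 _ hu01 _ hb1 hb2).continuousOn fun w hw => ?_
      have h2 : Tendsto (fun y : ℕ × ℂ => u (J y.1)) (atTop ×ˢ 𝓝[ball 0 1] w) (𝓝 u0) :=
        (hul.comp hJl).comp tendsto_fst
      have h3 : Tendsto (fun y : ℕ × ℂ => B (J y.1) y.2) (atTop ×ˢ 𝓝[ball 0 1] w) (𝓝 (B' w)) :=
        cc_of_tlu hb2.continuousOn hlim' hw tendsto_fst tendsto_snd
      exact tend_me hu01 (hb1 w hw) h2 h3
    have hnc : ∃ w ∈ ball (0 : ℂ) 1, deriv (fun w => Me u0 (B' w)) w ≠ 0 := by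
      by_contra hcon
      push Not at hcon
      refine hb3 0 hz1 ?_
      filter_upwards [isOpen_ball.mem_nhds hz1] with w hw
      have h2 : Me u0 (B' w) = Me u0 (B' 0) :=
        isOpen_ball.is_const_of_deriv_eq_zero (convex_ball (0 : ℂ) 1).isPreconnected (hM2 _ hu01 _ hb1 hb2)
          (fun w hw => hcon w hw) hw hz1
      exact me_inj' hu01 (hb1 w hw) (hb1 0 hz1) h2
    obtain ⟨z, hz⟩ := con h.cop hd1 h.inf hμ h1 hac hT (hle T hTs) (s := fun j => s (J j))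
      (hs.tendsto_atTop.comp hJl) (Φ := fun j => Φ (J j)) (F := fun j w => Me (u (J j)) (B (J j) w))
      (F0 := fun w => Me u0 (B' w)) (fun j => hΦ _) (fun j => hΦ0 _)
      (fun j => hM2 _ (hu1 _) _ (bc_bas hτ (hB (J j))).2.1 (bc_bas hτ (hB (J j))).2.2.1)
      (fun j w hw => mem_ball_zero_iff.2 (hM1 _ (hu1 _) _ ((bc_bas hτ (hB (J j))).2.1 w hw)))
      hcv
      (fun w hw => mem_ball_zero_iff.2 (hM1 _ hu01 _ (hb1 w hw))) hnc (fun j w hw => hΦf _ w hw)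
    exact hnr z hz

theorem kerx {a b : Polynomial ℂ} {C : Set ℂ} (h : Hyp a b C) (h6 : J6 (rat a b)) {μ : ℂ → ℂ} (hμ : FI (rat a b) μ) {x : ℂ}
    (hx : (x : OnePoint ℂ) ∈ JS (rat a b)) (h1 : ‖μ x‖ = 1) (hac : AC μ x (μ x)) (hnr : ∀ z : ℂ, ¬ RegAt μ z)
    (hlo : ∃ δ0 : ℝ, 0 < δ0 ∧ ∀ r : ℝ, 0 < r → ∃ n0 : ℕ, ∀ n ≥ n0, ∀ p : OnePoint ℂ, ∃ z, chord (x : OnePoint ℂ) z < r ∧
      δ0 ≤ chord p ((rat a b)^[n] z))
    {M : Set ℂ} (_hMc : IsCompact M) (_hMn : M.Nonempty) (_hMi : ∀ y ∈ M, ∃ w ∈ M, rat a b (y : OnePoint ℂ) = (w : OnePoint ℂ))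
    (_hmin : ∀ A ⊆ M, IsClosed A → A.Nonempty → (∀ y ∈ A, ∃ w ∈ A, rat a b (y : OnePoint ℂ) = (w : OnePoint ℂ)) → A = M)
    (hMx : ∀ y ∈ M, (y : OnePoint ℂ) ∈ Om (rat a b) (x : OnePoint ℂ)) (_hMC : ∀ y ∈ M, IsCrit (rat a b) (y : OnePoint ℂ) → y ∈ C)
    (hMo : ∃ ρ : ℝ, 0 < ρ ∧ ∀ c' : OnePoint ℂ, IsCrit (rat a b) c' → (∀ c ∈ C, c' ≠ (c : OnePoint ℂ)) → ∀ n : ℕ,
      ∀ y ∈ M, ∀ z : ℂ, (rat a b)^[n] c' = (z : OnePoint ℂ) → ρ ≤ ‖z - y‖) (hCn : C.Nonempty)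
    (L N : ℕ) {k : ℝ} (hk : k < 1) :
    ∃ ε : ℝ, 0 < ε ∧ ∀ (g ψ : ℂ → ℂ → ℂ) (l : ℂ → ℕ), Sys a b C L ε g ψ l → NB a b C g ψ N k →
      ((∃ c ∈ C, ∃ w : ℂ, ‖w‖ < 1 ∧ ‖w‖ ^ l c < k ∧ ψ c w ∈ M) ∨ ∃ T : ℂ → ℂ, Un T ∧ (∀ w ∈ ball (0 : ℂ) 1, ‖T w - T 0‖ < ε) ∧
        (∃ w : ℂ, ‖w‖ < k ∧ T w ∈ M) ∧ NBt a b C g T N k) → False :=
  kery h h6 hμ hx h1 hac hnr hlo hMx hMo hCn L N hk

end Pool.Agent.H56.MX
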