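import Pool.Agent.H56.MX.Defs
import Pool.Agent.H56.MN.Nbu

/-!
# Module NbuT: as Nbu, for an arbitrary target

PROOF. As Nbu (H56/MN), with `Ts T` instead of `Vd ψ c`, `Hof` instead of `Hyp.off`.
-/

set_option autoImplicit false

open Filter Topology Polynomial Metric Set MeasureTheory

namespace Pool.Agent.H56.MX

open Pool.Agent.H44.Fatou (rat)
open Pool.Agent.H44.RC (CC)
open Pool.Agent.H47.MM (Un Me Hyp Sys)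
open Pool.Agent.H56.MN (kap)

theorem nbuT {a b : Polynomial ℂ} {C : Set ℂ} (h : Hyp a b C) {L : ℕ} {ε : ℝ} {g ψ : ℂ → ℂ → ℂ}
    {l : ℂ → ℕ} (hS : Sys a b C L ε g ψ l) {N : ℕ} {k t : ℝ} (hN : 1 ≤ N) (hk : k < 1) (ht0 : 0 < t) (ht1 : t < 1)
    (hkt : ∀ m : ℕ, m ≤ L → m ≠ 0 → k ≤ t ^ m) {T : ℂ → ℂ} (hT : Un T) (hof : Hof a b C T) (hNB : NBt a b C g T N k) {n : ℕ} {x : ℂ}
    (hx : (rat a b)^[n] ((x : ℂ) : OnePoint ℂ) ∈ Ts T) (hK : N < kap (rat a b) (Ts T) ((x : ℂ) : OnePoint ℂ) n 0) :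
    ∃ i < n, kap (rat a b) (Ts T) ((x : ℂ) : OnePoint ℂ) n i ≤ N ∧ ∃ q ∈ C,
        ∀ z ∈ CC (rat a b) (n - i) (Ts T) ((rat a b)^[i] ((x : ℂ) : OnePoint ℂ)),
          ∃ w : ℂ, ‖w‖ < t ∧ z = ((ψ q w : ℂ) : OnePoint ℂ) := by
  exact Pool.Agent.H56.MN.nbu_gen h.cop hS hN hk ht0 ht1 hkt hof hNB n _ hK

end Pool.Agent.H56.MX
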