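import Pool.Agent.H56.MX.Defs
import Pool.Agent.H44.LD.PREN
import Pool.Agent.H32.BT.Crit

/-!
# Module Rg1: regular points are pushed forward, and not pulled back through a critical point

PROOF. `reg_push`: push forward of a regular point `z` which is not critical (local biholomorphism `f = a / b`, `f z = w` finite; `FI`; null sets are mapped to null sets). `reg_crit`: `f^[n] z = w` finite, `w` regular, `f^[n]` critical at `z` (some `f^[i] z`, `i < n`, is critical): near `z` almost everywhere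
`μ = c' conj ((φ ∘ f^n)') / (φ ∘ f^n)'`; if also `μ = c conj (ψ') / ψ'` then `h = (φ ∘ f^n)' / ψ'` is holomorphic, `h z = 0`, and `c' conj h / h = c` almost everywhere where `h ≠ 0`: `h` has constant argument modulo `π`, so it is constant, `h = 0`, but `f^n` is not locally constant: contradiction.
-/

set_option autoImplicit false

open Filter Topology Polynomial Metric Set MeasureTheory

namespace Pool.Agent.H56.MX

open Pool.Agent.H44.Fatou (rat rat_coe rat_coe_of_ne pt Wr rat_continuous crit_coe)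
open Pool.Agent.H32.BT (IsCrit rat_open crit_of_wr)
open Pool.Agent.H44.RC (JS)
open Pool.Agent.H47.MM (Un Me FI)
open Pool.Agent.H91.ATT (fp fp_coe)

/-- the finite part of the iterates -/
noncomputable def Hn (a b : Polynomial ℂ) (n : ℕ) (t : ℂ) : ℂ := fp ((rat a b)^[n] (t : OnePoint ℂ))

private theorem fin_den {a b : Polynomial ℂ} {z w : ℂ} (h : rat a b (z : OnePoint ℂ) = (w : OnePoint ℂ)) :
    b.eval z ≠ 0 := by
  intro h0
  rw [rat_coe] at h
  unfold pt at h
  rw [if_pos h0] at h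
  exact OnePoint.infty_ne_coe _ h

private theorem hn1_der {a b : Polynomial ℂ} {z : ℂ} (h : b.eval z ≠ 0) :
    HasDerivAt (Hn a b 1) ((Wr a b).eval z / b.eval z ^ 2) z := by
  have h1 : ∀ᶠ t in 𝓝 z, b.eval t ≠ 0 := b.continuous.continuousAt.eventually_ne h
  have h2 : (Hn a b 1) =ᶠ[𝓝 z] (fun t => a.eval t / b.eval t) := by
    filter_upwards [h1] with t ht
    show fp (rat a b (t : OnePoint ℂ)) = _
    rw [rat_coe_of_ne ht]
    rfl
  have h3 := ((a.hasDerivAt z).div (b.hasDerivAt z) h).congr_of_eventuallyEq h2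
  have h4 : (derivative a).eval z * b.eval z - a.eval z * (derivative b).eval z = (Wr a b).eval z := by
    unfold Wr
    simp only [eval_sub, eval_mul]
  rw [h4] at h3
  exact h3

private theorem it_fin {a b : Polynomial ℂ} (hfi : rat a b OnePoint.infty = OnePoint.infty) {n i : ℕ} (hi : i ≤ n) {z w : ℂ}
    (h : (rat a b)^[n] (z : OnePoint ℂ) = (w : OnePoint ℂ)) : (rat a b)^[i] (z : OnePoint ℂ) = (Hn a b i z : OnePoint ℂ) := by
  unfold Hn
  rcases hx : (rat a b)^[i] (z : OnePoint ℂ) with _ | u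
  · exfalso
    have h2 : (rat a b)^[n - i] ((rat a b)^[i] (z : OnePoint ℂ)) = (rat a b)^[n] (z : OnePoint ℂ) := by
      rw [← Function.iterate_add_apply, Nat.sub_add_cancel hi]
    rw [hx, h] at h2
    have h3 : (rat a b)^[n - i] OnePoint.infty = OnePoint.infty := Function.iterate_fixed hfi _
    exact OnePoint.infty_ne_coe _ (h3.symm.trans h2)
  · rfl

private theorem ev_fin {a b : Polynomial ℂ} (hcop : IsCoprime a b) {n : ℕ} {z w : ℂ}
    (h : (rat a b)^[n] (z : OnePoint ℂ) = (w : OnePoint ℂ)) :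
    ∀ᶠ t : ℂ in 𝓝 z, (rat a b)^[n] (t : OnePoint ℂ) = (Hn a b n t : OnePoint ℂ) := by
  have h1 : Continuous (fun t : ℂ => (rat a b)^[n] (t : OnePoint ℂ)) :=
    ((rat_continuous hcop).iterate n).comp OnePoint.continuous_coe
  have h2 : ∀ᶠ t : ℂ in 𝓝 z, (rat a b)^[n] (t : OnePoint ℂ) ≠ OnePoint.infty :=
    h1.continuousAt.eventually_ne (by rw [h]; exact OnePoint.coe_ne_infty _)
  filter_upwards [h2] with t ht
  unfold Hn
  rcases hx : (rat a b)^[n] (t : OnePoint ℂ) with _ | u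
  · exact absurd hx ht
  · rfl

private theorem hn_step {a b : Polynomial ℂ} (hcop : IsCoprime a b) (hfi : rat a b OnePoint.infty = OnePoint.infty) {n : ℕ}
    {z w : ℂ} (h : (rat a b)^[n + 1] (z : OnePoint ℂ) = (w : OnePoint ℂ)) :
    rat a b (Hn a b n z : OnePoint ℂ) = (w : OnePoint ℂ) ∧
      Hn a b (n + 1) =ᶠ[𝓝 z] fun t => Hn a b 1 (Hn a b n t) := by
  have h0 := it_fin hfi (Nat.le_succ n) h
  refine ⟨by rw [← h0, ← Function.iterate_succ_apply' (rat a b) n, h], ?_⟩
  filter_upwards [ev_fin hcop h0] with t ht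
  show fp ((rat a b)^[n + 1] (t : OnePoint ℂ)) = fp (rat a b (Hn a b n t : OnePoint ℂ))
  rw [Function.iterate_succ_apply', ht]

theorem hn_diff {a b : Polynomial ℂ} (hcop : IsCoprime a b) (hfi : rat a b OnePoint.infty = OnePoint.infty) (n : ℕ) :
    ∀ {z w : ℂ}, (rat a b)^[n] (z : OnePoint ℂ) = (w : OnePoint ℂ) → DifferentiableAt ℂ (Hn a b n) z := by
  induction n with
  | zero =>
    intro z w _
    have h1 : Hn a b 0 = id := rfl
    rw [h1]
    exact differentiableAt_id
  | succ n ih =>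
    intro z w h
    obtain ⟨h1, h2⟩ := hn_step hcop hfi h
    have h3 := ih (it_fin hfi (Nat.le_succ n) h)
    have h4 := (hn1_der (a := a) (fin_den h1)).differentiableAt
    exact (h4.comp z h3).congr_of_eventuallyEq h2

theorem hn_der {a b : Polynomial ℂ} (hcop : IsCoprime a b) (hfi : rat a b OnePoint.infty = OnePoint.infty) {n : ℕ}
    {z w : ℂ} (h : (rat a b)^[n + 1] (z : OnePoint ℂ) = (w : OnePoint ℂ)) :
    deriv (Hn a b (n + 1)) z = deriv (Hn a b 1) (Hn a b n z) * deriv (Hn a b n) z := by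
  obtain ⟨h1, h2⟩ := hn_step hcop hfi h
  have h3 := hn_diff hcop hfi n (it_fin hfi (Nat.le_succ n) h)
  have h4 := (hn1_der (a := a) (fin_den h1)).differentiableAt
  rw [h2.deriv_eq]
  exact deriv_comp z h4 h3

theorem hn_fi {a b : Polynomial ℂ} (hcop : IsCoprime a b) (hfi : rat a b OnePoint.infty = OnePoint.infty) {μ : ℂ → ℂ}
    (hμ : FI (rat a b) μ) (n : ℕ) : ∀ {z w : ℂ}, (rat a b)^[n] (z : OnePoint ℂ) = (w : OnePoint ℂ) →
    μ (Hn a b n z) * (starRingEnd ℂ) (deriv (Hn a b n) z) = μ z * deriv (Hn a b n) z := by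
  induction n with
  | zero =>
    intro z w _
    have h1 : Hn a b 0 = id := rfl
    rw [h1]
    simp
  | succ n ih =>
    intro z w h
    obtain ⟨h1, h2⟩ := hn_step hcop hfi h
    have h3 := ih (it_fin hfi (Nat.le_succ n) h)
    have h4 : Hn a b (n + 1) z = w := by
      unfold Hn
      rw [h]
      rfl
    have h5 := hμ (Hn a b n z) w h1
    have h6 : (fun t : ℂ => fp (rat a b (t : OnePoint ℂ))) = Hn a b 1 := rfl
    rw [h6] at h5
    rw [hn_der hcop hfi h, h4, map_mul]
    calc μ w * ((starRingEnd ℂ) (deriv (Hn a b 1) (Hn a b n z)) * (starRingEnd ℂ) (deriv (Hn a b n) z))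
        = (μ w * (starRingEnd ℂ) (deriv (Hn a b 1) (Hn a b n z))) * (starRingEnd ℂ) (deriv (Hn a b n) z) := by ring
      _ = (μ (Hn a b n z) * (starRingEnd ℂ) (deriv (Hn a b n) z)) * deriv (Hn a b 1) (Hn a b n z) := by rw [h5]; ring
      _ = μ z * (deriv (Hn a b 1) (Hn a b n z) * deriv (Hn a b n) z) := by rw [h3]; ring

theorem hn_crit {a b : Polynomial ℂ} (hcop : IsCoprime a b) (hfi : rat a b OnePoint.infty = OnePoint.infty) {n : ℕ} :
    ∀ {z w : ℂ}, (rat a b)^[n] (z : OnePoint ℂ) = (w : OnePoint ℂ) → ∀ {i : ℕ}, i < n →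
    IsCrit (rat a b) ((rat a b)^[i] (z : OnePoint ℂ)) → deriv (Hn a b n) z = 0 := by
  induction n with
  | zero => intro z w _ i hi; omega
  | succ n ih =>
    intro z w h i hi hc
    obtain ⟨h1, h2⟩ := hn_step hcop hfi h
    rw [hn_der hcop hfi h]
    rcases Nat.lt_succ_iff_lt_or_eq.1 hi with hi' | hi'
    · rw [ih (it_fin hfi (Nat.le_succ n) h) hi' hc, mul_zero]
    · subst hi'
      rw [it_fin hfi (Nat.le_succ i) h] at hc
      rw [(hn1_der (fin_den h1)).deriv, crit_coe hc, zero_div, zero_mul]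

/-- preimages of null sets -/
theorem pre_nl {H : ℂ → ℂ} {z : ℂ} {s : ℝ} (hs : 0 < s) (hH : DifferentiableOn ℂ H (ball z s))
    (hnc : ¬ ∀ t ∈ ball z s, H t = H z) {S : Set ℂ} (hS : volume S = 0) : volume {t : ℂ | t ∈ ball z s ∧ H t ∈ S} = 0 := by
  have hmap : ∀ η ∈ ball (0 : ℂ) 1, z + s * η ∈ ball z s := by
    intro η hη
    rw [mem_ball_zero_iff] at hη
    rw [mem_ball, dist_eq_norm, add_sub_cancel_left, norm_mul, Complex.norm_real, Real.norm_eq_abs, abs_of_pos hs]
    nlinarith [norm_nonneg η]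
  have hs' : (s : ℂ) ≠ 0 := by exact_mod_cast hs.ne'
  have hinv : ∀ t ∈ ball z s, (t - z) / s ∈ ball (0 : ℂ) 1 ∧ z + s * ((t - z) / s) = t := by
    intro t ht
    rw [mem_ball, dist_eq_norm] at ht
    refine ⟨?_, by field_simp; ring⟩
    rw [mem_ball_zero_iff, norm_div, Complex.norm_real, Real.norm_eq_abs, abs_of_pos hs, div_lt_one hs]
    exact ht
  have hΨ : DifferentiableOn ℂ (fun η : ℂ => H (z + s * η)) (ball 0 1) := by
    intro η hη
    have h1 : DifferentiableAt ℂ H (z + s * η) := (hH _ (hmap η hη)).differentiableAt (isOpen_ball.mem_nhds (hmap η hη))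
    have h2 : DifferentiableAt ℂ (fun η : ℂ => z + s * η) η := by fun_prop
    exact (DifferentiableAt.comp η h1 h2).differentiableWithinAt
  have h1 := Pool.Agent.H44.LD.pre_null hΨ (S := S) (by
    intro h
    apply hnc
    intro t ht
    obtain ⟨h2, h3⟩ := hinv t ht
    have h4 := h _ h2
    simp only [mul_zero, add_zero] at h4
    rw [h3] at h4
    exact h4) hS
  have hsub : {t : ℂ | t ∈ ball z s ∧ H t ∈ S} ⊆
      (fun η : ℂ => z + s * η) '' {η : ℂ | η ∈ ball (0 : ℂ) 1 ∧ (fun η : ℂ => H (z + s * η)) η ∈ S} := by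
    rintro t ⟨ht, htS⟩
    obtain ⟨h2, h3⟩ := hinv t ht
    refine ⟨(t - z) / s, ⟨h2, ?_⟩, h3⟩
    show H (z + s * ((t - z) / s)) ∈ S
    rw [h3]
    exact htS
  refine measure_mono_null hsub ?_
  refine addHaar_image_eq_zero_of_differentiableOn_of_addHaar_eq_zero volume ?_ h1
  have h5 : Differentiable ℝ (fun η : ℂ => z + s * η) := by fun_prop
  exact h5.differentiableOn

theorem reg_push {a b : Polynomial ℂ} (hcop : IsCoprime a b) (hd : 1 ≤ max a.natDegree b.natDegree) {μ : ℂ → ℂ}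
    (hμ : FI (rat a b) μ) {z w : ℂ} (hz : RegAt μ z) (hw : rat a b (z : OnePoint ℂ) = (w : OnePoint ℂ))
    (hc : ¬ IsCrit (rat a b) (z : OnePoint ℂ)) : RegAt μ w := by
  obtain ⟨r, φ, c, hr, hc1, hφ, hφ0, hae⟩ := hz
  obtain ⟨F, hF⟩ : ∃ F : ℂ → ℂ, F = Hn a b 1 := ⟨_, rfl⟩
  have hFder : ∀ t : ℂ, b.eval t ≠ 0 → HasDerivAt F ((Wr a b).eval t / b.eval t ^ 2) t := by
    intro t ht
    rw [hF]
    exact hn1_der ht
  have hbz : b.eval z ≠ 0 := fin_den hw
  have hFz : F z = w := by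
    rw [hF]
    show fp (rat a b (z : OnePoint ℂ)) = w
    rw [hw]
    rfl
  have hFa : ∀ t : ℂ, b.eval t ≠ 0 → AnalyticAt ℂ F t := by
    intro t ht
    have h1 : IsOpen {u : ℂ | b.eval u ≠ 0} := isOpen_ne_fun b.continuous continuous_const
    have h2 : DifferentiableOn ℂ F {u : ℂ | b.eval u ≠ 0} := fun u hu =>
      (hFder u hu).differentiableAt.differentiableWithinAt
    exact h2.analyticOnNhd h1 t ht
  have hF0 : deriv F z ≠ 0 := by
    rw [(hFder z hbz).deriv]
    apply div_ne_zero _ (pow_ne_zero 2 hbz)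
    intro h0
    exact hc (crit_of_wr hcop hd h0)
  obtain ⟨h, hh⟩ : ∃ h : ℂ → ℂ, h = (hFa z hbz).hasStrictDerivAt.localInverse _ _ _ hF0 := ⟨_, rfl⟩
  have hha : AnalyticAt ℂ h w := by
    rw [hh, ← hFz]
    exact (hFa z hbz).analyticAt_localInverse hF0
  have hl : ∀ᶠ t in 𝓝 z, h (F t) = t := by rw [hh]; exact HasStrictDerivAt.eventually_left_inverse ..
  have hr' : ∀ᶠ y in 𝓝 w, F (h y) = y := by rw [hh, ← hFz]; exact HasStrictDerivAt.eventually_right_inverse ..
  have hz' : h w = z := by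
    rw [← hFz]
    exact hl.self_of_nhds
  have hb1 : ∀ᶠ y in 𝓝 w, h y ∈ ball z r :=
    hha.continuousAt.eventually (isOpen_ball.mem_nhds (by rw [hz']; exact mem_ball_self hr))
  have hb2 : ∀ᶠ y in 𝓝 w, b.eval (h y) ≠ 0 :=
    (b.continuous.continuousAt.comp hha.continuousAt).eventually_ne (by
      show b.eval (h w) ≠ 0
      rw [hz']
      exact hbz)
  obtain ⟨R, hR, hRb⟩ : ∃ R : ℝ, 0 < R ∧ ∀ y ∈ ball w R, AnalyticAt ℂ h y ∧ F (h y) = y ∧ h y ∈ ball z r ∧ b.eval (h y) ≠ 0 := by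
    obtain ⟨R, hR, h1⟩ := Metric.eventually_nhds_iff_ball.1 (hha.eventually_analyticAt.and (hr'.and (hb1.and hb2)))
    exact ⟨R, hR, h1⟩
  have hder : ∀ y ∈ ball w R, deriv F (h y) * deriv h y = 1 := by
    intro y hy
    obtain ⟨h1, h2, h3, h4⟩ := hRb y hy
    have e1 : HasDerivAt (fun t => F (h t)) (deriv F (h y) * deriv h y) y :=
      ((hFa _ h4).differentiableAt.hasDerivAt).comp y h1.differentiableAt.hasDerivAt
    have e2 : (fun t => F (h t)) =ᶠ[𝓝 y] id := by
      filter_upwards [isOpen_ball.mem_nhds hy] with t ht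
      exact (hRb t ht).2.1
    exact (e1.congr_of_eventuallyEq e2.symm).unique (hasDerivAt_id y)
  have hφa : ∀ t ∈ ball z r, AnalyticAt ℂ φ t := hφ.analyticOnNhd isOpen_ball
  have hΨd : ∀ y ∈ ball w R, HasDerivAt (fun t => φ (h t)) (deriv φ (h y) * deriv h y) y := by
    intro y hy
    obtain ⟨h1, h2, h3, h4⟩ := hRb y hy
    exact ((hφa _ h3).differentiableAt.hasDerivAt).comp y h1.differentiableAt.hasDerivAt
  have hh0 : ∀ y ∈ ball w R, deriv h y ≠ 0 := fun y hy => right_ne_zero_of_mul_eq_one (hder y hy)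
  have hFh0 : ∀ y ∈ ball w R, deriv F (h y) ≠ 0 := fun y hy => left_ne_zero_of_mul_eq_one (hder y hy)
  have hhD : DifferentiableOn ℂ h (ball w R) := fun y hy => (hRb y hy).1.differentiableAt.differentiableWithinAt
  have hnc : ¬ ∀ y ∈ ball w R, h y = h w := by
    intro h1
    have h2 : deriv h w = 0 := by
      have h3 : h =ᶠ[𝓝 w] fun _ => h w := by
        filter_upwards [isOpen_ball.mem_nhds (mem_ball_self hR)] with t ht
        exact h1 t ht
      rw [h3.deriv_eq]
      exact deriv_const _ _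
    exact hh0 w (mem_ball_self hR) h2
  refine ⟨R, fun t => φ (h t), c, hR, hc1, fun y hy => (hΨd y hy).differentiableAt.differentiableWithinAt, ?_, ?_⟩
  · intro y hy
    rw [(hΨd y hy).deriv]
    exact mul_ne_zero (hφ0 _ (hRb y hy).2.2.1) (hh0 y hy)
  · have hN : volume {t : ℂ | ¬ (t ∈ ball z r → μ t = c * (starRingEnd ℂ) (deriv φ t) / deriv φ t)} = 0 := ae_iff.1 hae
    have h1 := pre_nl hR hhD hnc hN
    rw [ae_iff]
    refine measure_mono_null ?_ h1
    intro y hy
    rw [mem_ofPred_eq, Classical.not_imp] at hy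
    obtain ⟨hy1, hy2⟩ := hy
    refine ⟨hy1, ?_⟩
    show ¬ _
    intro h2
    apply hy2
    obtain ⟨g1, g2, g3, g4⟩ := hRb y hy1
    have e1 := h2 g3
    have e2 : rat a b (h y : OnePoint ℂ) = (y : OnePoint ℂ) := by
      rw [rat_coe_of_ne g4]
      have : a.eval (h y) / b.eval (h y) = F (h y) := by
        rw [hF]
        show _ = fp (rat a b (h y : OnePoint ℂ))
        rw [rat_coe_of_ne g4]
        rfl
      rw [this, g2]
    have e3 := hμ (h y) y e2
    have e4 : (fun t : ℂ => fp (rat a b (t : OnePoint ℂ))) = F := by rw [hF]; rfl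
    rw [e4] at e3
    have e5 : deriv h y = (deriv F (h y))⁻¹ := eq_inv_of_mul_eq_one_right (hder y hy1)
    have e6 := hFh0 y hy1
    have e7 : (starRingEnd ℂ) (deriv F (h y)) ≠ 0 := by simpa using e6
    have e8 := hφ0 _ g3
    rw [(hΨd y hy1).deriv, e5, map_mul, map_inv₀]
    have e9 : μ y = μ (h y) * deriv F (h y) / (starRingEnd ℂ) (deriv F (h y)) := by
      rw [eq_div_iff e7]
      exact e3
    rw [e9, e1]
    field_simp

theorem reg_crit {a b : Polynomial ℂ} (hcop : IsCoprime a b) (hd : 1 ≤ max a.natDegree b.natDegree)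
    (hfi : rat a b OnePoint.infty = OnePoint.infty) {μ : ℂ → ℂ} (hμ : FI (rat a b) μ) {z w : ℂ} {n : ℕ} (hw : RegAt μ w)
    (h : (rat a b)^[n] (z : OnePoint ℂ) = (w : OnePoint ℂ)) {i : ℕ} (hi : i < n)
    (hc : IsCrit (rat a b) ((rat a b)^[i] (z : OnePoint ℂ))) : ¬ RegAt μ z := by
  rintro ⟨r', ψ, c', hr', hc'1, hψ, hψ0, hae'⟩
  obtain ⟨r, φ, c, hr, hc1, hφ, hφ0, hae⟩ := hw
  obtain ⟨H, hH⟩ : ∃ H : ℂ → ℂ, H = Hn a b n := ⟨_, rfl⟩
  have hHz : H z = w := by
    rw [hH]
    unfold Hn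
    rw [h]
    rfl
  have hHd0 : DifferentiableAt ℂ H z := by rw [hH]; exact hn_diff hcop hfi n h
  have hHc : ∀ᶠ t in 𝓝 z, H t ∈ ball w r :=
    hHd0.continuousAt.eventually (isOpen_ball.mem_nhds (by rw [hHz]; exact mem_ball_self hr))
  obtain ⟨s, hs, hsb⟩ : ∃ s : ℝ, 0 < s ∧ ∀ t ∈ ball z s, t ∈ ball z r' ∧ (rat a b)^[n] (t : OnePoint ℂ) = (H t : OnePoint ℂ) ∧
      H t ∈ ball w r := by
    have h1 : ∀ᶠ t : ℂ in 𝓝 z, (rat a b)^[n] (t : OnePoint ℂ) = (H t : OnePoint ℂ) := by
      rw [hH]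
      exact ev_fin hcop h
    have h0 : ∀ᶠ t : ℂ in 𝓝 z, t ∈ ball z r' := ball_mem_nhds z hr'
    obtain ⟨s, hs, h2⟩ := Metric.eventually_nhds_iff_ball.1 (h0.and (h1.and hHc))
    exact ⟨s, hs, h2⟩
  have hHD : DifferentiableOn ℂ H (ball z s) := by
    intro t ht
    rw [hH]
    exact (hn_diff hcop hfi n (hsb t ht).2.1).differentiableWithinAt
  -- not locally constant
  have hnc : ¬ ∀ t ∈ ball z s, H t = H z := by
    intro h1
    have ho : IsOpenMap (rat a b)^[n] := by
      have h0 : IsOpenMap (rat a b) := rat_open hcop hd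
      clear * - h0
      induction n with
      | zero => exact IsOpenMap.id
      | succ n ih =>
        rw [Function.iterate_succ]
        exact ih.comp h0
    have h2 : IsOpen ((rat a b)^[n] '' ((fun t : ℂ => (t : OnePoint ℂ)) '' ball z s)) :=
      ho _ (OnePoint.isOpenEmbedding_coe.isOpenMap _ isOpen_ball)
    have h3 : (rat a b)^[n] '' ((fun t : ℂ => (t : OnePoint ℂ)) '' ball z s) = {((w : ℂ) : OnePoint ℂ)} := by
      ext x
      constructor
      · rintro ⟨y, ⟨t, ht, rfl⟩, rfl⟩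
        rw [mem_singleton_iff]
        show (rat a b)^[n] (t : OnePoint ℂ) = _
        rw [(hsb t ht).2.1, h1 t ht, hHz]
      · intro hx
        rw [mem_singleton_iff] at hx
        rw [hx]
        exact ⟨(z : OnePoint ℂ), ⟨z, mem_ball_self hs, rfl⟩, h⟩
    rw [h3] at h2
    have h4 : IsOpen ((fun t : ℂ => (t : OnePoint ℂ)) ⁻¹' {((w : ℂ) : OnePoint ℂ)}) := h2.preimage OnePoint.continuous_coe
    have h5 : (fun t : ℂ => (t : OnePoint ℂ)) ⁻¹' {((w : ℂ) : OnePoint ℂ)} = {w} := by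
      ext t
      simp
    rw [h5] at h4
    exact not_isOpen_singleton w h4
  have hφa : ∀ t ∈ ball w r, AnalyticAt ℂ φ t := hφ.analyticOnNhd isOpen_ball
  have hψa : ∀ t ∈ ball z r', AnalyticAt ℂ ψ t := hψ.analyticOnNhd isOpen_ball
  have hHa : ∀ t ∈ ball z s, AnalyticAt ℂ H t := hHD.analyticOnNhd isOpen_ball
  obtain ⟨k, hk⟩ : ∃ k : ℂ → ℂ, k = fun t => deriv φ (H t) * deriv H t / deriv ψ t := ⟨_, rfl⟩
  have hka : ∀ t ∈ ball z s, AnalyticAt ℂ k t := by
    intro t ht
    rw [hk]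
    exact (((hφa _ (hsb t ht).2.2).deriv.comp (hHa t ht)).mul (hHa t ht).deriv).div (hψa t (hsb t ht).1).deriv
      (hψ0 t (hsb t ht).1)
  have hkz : k z = 0 := by
    rw [hk]
    show deriv φ (H z) * deriv H z / deriv ψ z = 0
    rw [hH, hn_crit hcop hfi h hi hc, mul_zero, zero_div]
  have hkc : ContinuousOn k (ball z s) := fun t ht => (hka t ht).continuousAt.continuousWithinAt
  -- the identity almost everywhere
  have hkae : ∀ᵐ t : ℂ, t ∈ ball z s → c * (starRingEnd ℂ) (k t) = c' * k t := by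
    have hN : volume {t : ℂ | ¬ (t ∈ ball w r → μ t = c * (starRingEnd ℂ) (deriv φ t) / deriv φ t)} = 0 := ae_iff.1 hae
    have h1 : ∀ᵐ t : ℂ, t ∈ ball z s → μ (H t) = c * (starRingEnd ℂ) (deriv φ (H t)) / deriv φ (H t) := by
      rw [ae_iff]
      refine measure_mono_null ?_ (pre_nl hs hHD hnc hN)
      intro t ht
      rw [mem_ofPred_eq, Classical.not_imp] at ht
      refine ⟨ht.1, ?_⟩
      show ¬ _
      intro h2
      exact ht.2 (h2 (hsb t ht.1).2.2)
    filter_upwards [h1, hae'] with t ht1 ht2 ht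
    have e1 := ht1 ht
    have e2 := ht2 (hsb t ht).1
    have e3 := hn_fi hcop hfi hμ n (hsb t ht).2.1
    rw [← hH] at e3
    have e4 := hφ0 _ (hsb t ht).2.2
    have e5 := hψ0 t (hsb t ht).1
    have e5' : (starRingEnd ℂ) (deriv ψ t) ≠ 0 := by simpa using e5
    rw [e1, e2] at e3
    rw [hk]
    show c * (starRingEnd ℂ) (deriv φ (H t) * deriv H t / deriv ψ t) = c' * (deriv φ (H t) * deriv H t / deriv ψ t)
    rw [map_div₀, map_mul]
    have e6 : c * (starRingEnd ℂ) (deriv φ (H t)) * (starRingEnd ℂ) (deriv H t) * deriv ψ t =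
        c' * (starRingEnd ℂ) (deriv ψ t) * deriv H t * deriv φ (H t) := by
      field_simp at e3
      linear_combination e3
    field_simp
    linear_combination e6
  -- everywhere by continuity
  have hkev : ∀ t ∈ ball z s, c * (starRingEnd ℂ) (k t) = c' * k t := by
    have h1 : ContinuousOn (fun t => c * (starRingEnd ℂ) (k t) - c' * k t) (ball z s) :=
      (continuousOn_const.mul (Complex.continuous_conj.comp_continuousOn hkc)).sub (continuousOn_const.mul hkc)
    intro t ht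
    by_contra hne
    have h2 : c * (starRingEnd ℂ) (k t) - c' * k t ≠ 0 := sub_ne_zero.2 hne
    have h3 : ∀ᶠ u in 𝓝 t, c * (starRingEnd ℂ) (k u) - c' * k u ≠ 0 :=
      (h1.continuousAt (isOpen_ball.mem_nhds ht)).eventually_ne h2
    obtain ⟨ρ, hρ, h4⟩ := Metric.eventually_nhds_iff_ball.1 (h3.and (isOpen_ball.mem_nhds ht))
    have h5 : volume (ball t ρ) = 0 := by
      refine measure_mono_null ?_ (ae_iff.1 hkae)
      intro u hu
      rw [mem_ofPred_eq, Classical.not_imp]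
      exact ⟨(h4 u hu).2, sub_ne_zero.1 (h4 u hu).1⟩
    exact (measure_ball_pos volume t hρ).ne' h5
  -- `k` is constant
  have hk0 : ∀ t ∈ ball z s, k t = 0 := by
    by_contra hcon
    push Not at hcon
    obtain ⟨t1, ht1, hkt1⟩ := hcon
    have hcc : ‖c‖ = 1 := hc1
    have hkA : AnalyticOnNhd ℂ k (ball z s) := hka
    rcases hkA.is_constant_or_isOpen (convex_ball z s).isPreconnected with ⟨v, hv⟩ | hop
    · apply hkt1
      rw [hv t1 ht1, ← hv z (mem_ball_self hs), hkz]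
    · have h1 : IsOpen (k '' ball z s) := hop _ Subset.rfl isOpen_ball
      have h2 : (0 : ℂ) ∈ k '' ball z s := ⟨z, mem_ball_self hs, hkz⟩
      obtain ⟨ρ, hρ, h3⟩ := Metric.isOpen_iff.1 h1 0 h2
      have h4 : ∀ u ∈ ball (0 : ℂ) ρ, c * (starRingEnd ℂ) u = c' * u := by
        intro u hu
        obtain ⟨t, ht, rfl⟩ := h3 hu
        exact hkev t ht
      have h5 := h4 ((ρ / 2 : ℝ) : ℂ) (by
        rw [mem_ball_zero_iff, Complex.norm_real, Real.norm_eq_abs, abs_of_pos (by linarith)]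
        linarith)
      have h6 := h4 (((ρ / 2 : ℝ) : ℂ) * Complex.I) (by
        rw [mem_ball_zero_iff, norm_mul, Complex.norm_I, mul_one, Complex.norm_real, Real.norm_eq_abs, abs_of_pos (by linarith)]
        linarith)
      have h7 : ((ρ / 2 : ℝ) : ℂ) ≠ 0 := by
        have : (ρ / 2 : ℝ) ≠ 0 := by linarith
        exact_mod_cast this
      rw [Complex.conj_ofReal] at h5
      rw [map_mul, Complex.conj_ofReal, Complex.conj_I] at h6
      have h8 : c = c' := mul_right_cancel₀ h7 h5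
      have h9 : c * (((ρ / 2 : ℝ) : ℂ) * Complex.I) = 0 := by
        rw [← h8] at h6
        linear_combination (-1 / 2 : ℂ) * h6
      have h10 : c ≠ 0 := by
        intro h0
        rw [h0, norm_zero] at hcc
        exact zero_ne_one hcc
      exact mul_ne_zero h10 (mul_ne_zero h7 Complex.I_ne_zero) h9
  -- so `H` is constant
  apply hnc
  have hH0 : ∀ t ∈ ball z s, deriv H t = 0 := by
    intro t ht
    have h1 := hk0 t ht
    rw [hk] at h1
    have h2 : deriv φ (H t) * deriv H t / deriv ψ t = 0 := h1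
    rcases div_eq_zero_iff.1 h2 with h3 | h3
    · rcases mul_eq_zero.1 h3 with h4 | h4
      · exact absurd h4 (hφ0 _ (hsb t ht).2.2)
      · exact h4
    · exact absurd h3 (hψ0 t (hsb t ht).1)
  intro t ht
  have h1 : ∀ x ∈ ball z s, HasDerivWithinAt H 0 (ball z s) x := by
    intro x hx
    have h2 := (hHD.differentiableAt (isOpen_ball.mem_nhds hx)).hasDerivAt
    rw [hH0 x hx] at h2
    exact h2.hasDerivWithinAt
  have h3 := (convex_ball z s).norm_image_sub_le_of_norm_hasDerivWithin_le (C := 0) h1 (fun x _ => by simp)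
    (mem_ball_self hs) ht
  rw [zero_mul] at h3
  exact sub_eq_zero.1 (norm_le_zero_iff.1 h3)

end Pool.Agent.H56.MX
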