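import Pool.Agent.H56.MX.ChnT
import Pool.Agent.H56.MX.NbuT
import Pool.Agent.H56.MN.Vis
import Pool.Agent.H56.MN.Bas
import Pool.Agent.H44.RC.CCO
import Pool.Agent.H80.AJ.Distort

/-!
# Module VisT: visits to an arbitrary small target have at most `N` passes

PROOF. As Vis (H56/MN), without `ln` at the end: `kap 0 ≤ N`: `chnT` with `j = 0`. `kap 0 > N`: `nbuT`: `i < n`, `q`; `chnT` with `j = i`: `S`, `S (D) ⊆ ψ q (ball 0 t)`, `S = ψ q ∘ η`; `visn` (for the time `i`, `q`, `η 0`): `H'`, `Φ = H' ∘ η`.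
(`ε` = the minimum of the `ε` of `visn`, `chnT`; `τ i = 1 / 2` for all `i`, for instance.)
-/

set_option autoImplicit false

open Filter Topology Polynomial Metric Set MeasureTheory

namespace Pool.Agent.H56.MX

open Pool.Agent.H44.Fatou (rat)
open Pool.Agent.H44.RC (JS J6 CC cc_max)
open Pool.Agent.H47.OI (AC)
open Pool.Agent.H47.MM (Un Me FI Hyp Sys)
open Pool.Agent.H56.MN (BC NB kap me_mob bc_bas)

private theorem un_dne {G : ℂ → ℂ} (h : Un G) {w : ℂ} (hw : w ∈ ball (0 : ℂ) 1) : deriv G w ≠ 0 := by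
  rw [mem_ball_zero_iff] at hw
  have h1 : ball w (1 - ‖w‖) ⊆ ball 0 1 := by
    intro z hz
    rw [mem_ball, dist_eq_norm] at hz
    rw [mem_ball_zero_iff]
    calc ‖z‖ = ‖(z - w) + w‖ := by rw [sub_add_cancel]
      _ ≤ ‖z - w‖ + ‖w‖ := norm_add_le _ _
      _ < 1 := by linarith
  exact norm_pos_iff.1 (Pool.Agent.H80.AJ.deriv_ne (by linarith) (h.1.mono h1) (h.2.mono h1)
    (mem_closedBall_self (by linarith)))

/-- division by a univalent map -/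
private theorem un_inv {G S η : ℂ → ℂ} (hG : Un G) (hS : DifferentiableOn ℂ S (ball 0 1))
    (hη : ∀ w ∈ ball (0 : ℂ) 1, ‖η w‖ < 1 ∧ S w = G (η w)) : DifferentiableOn ℂ η (ball 0 1) := by
  intro w0 hw0
  have hp : η w0 ∈ ball (0 : ℂ) 1 := mem_ball_zero_iff.2 (hη w0 hw0).1
  have hd : deriv G (η w0) ≠ 0 := un_dne hG hp
  have hsd : HasStrictDerivAt G (deriv G (η w0)) (η w0) :=
    (hG.1.analyticAt (isOpen_ball.mem_nhds hp)).hasStrictDerivAt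
  have hGd : DifferentiableAt ℂ (hsd.localInverse _ _ _ hd) (G (η w0)) :=
    (hsd.to_localInverse hd).hasDerivAt.differentiableAt
  have hG0 : hsd.localInverse _ _ _ hd (G (η w0)) = η w0 := (hsd.eventually_left_inverse hd).self_of_nhds
  have hSd : DifferentiableAt ℂ S w0 := hS.differentiableAt (isOpen_ball.mem_nhds hw0)
  have hS0 : S w0 = G (η w0) := (hη w0 hw0).2
  have hGd' : DifferentiableAt ℂ (hsd.localInverse _ _ _ hd) (S w0) := by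
    rw [hS0]
    exact hGd
  have hcomp : DifferentiableAt ℂ (fun w => hsd.localInverse _ _ _ hd (S w)) w0 := hGd'.comp w0 hSd
  refine (hcomp.congr_of_eventuallyEq ?_).differentiableWithinAt
  have h1 : ∀ᶠ w in 𝓝 w0, w ∈ ball (0 : ℂ) 1 := isOpen_ball.mem_nhds hw0
  have h2 : ∀ᶠ w in 𝓝 w0, hsd.localInverse _ _ _ hd (S w) ∈ ball (0 : ℂ) 1 := by
    refine hcomp.continuousAt.eventually_mem (isOpen_ball.mem_nhds ?_)
    show hsd.localInverse _ _ _ hd (S w0) ∈ ball (0 : ℂ) 1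
    rw [hS0, hG0]
    exact hp
  have h3 : ∀ᶠ w in 𝓝 w0, G (hsd.localInverse _ _ _ hd (S w)) = S w := by
    have h4 : ∀ᶠ v in 𝓝 (S w0), G (hsd.localInverse _ _ _ hd v) = v := by
      rw [hS0]
      exact hsd.eventually_right_inverse hd
    exact hSd.continuousAt.eventually h4
  filter_upwards [h1, h2, h3] with w h4 h5 h6
  refine hG.2 (mem_ball_zero_iff.2 (hη w h4).1) h5 ?_
  rw [h6, (hη w h4).2]

private theorem pw_ex (L : ℕ) {k : ℝ} (hk : k < 1) : ∃ t : ℝ, 0 < t ∧ t < 1 ∧ ∀ m : ℕ, m ≤ L → m ≠ 0 → k ≤ t ^ m := by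
  obtain ⟨k', hk', hk0, hk1⟩ : ∃ k' : ℝ, k ≤ k' ∧ 0 ≤ k' ∧ k' < 1 := ⟨max k 0, le_max_left _ _, le_max_right _ _, max_lt hk one_pos⟩
  have hL : (0 : ℝ) < (L : ℝ) + 1 := by positivity
  have hs0 : 0 < (1 - k') / ((L : ℝ) + 1) := div_pos (by linarith) hL
  have hs1 : (1 - k') / ((L : ℝ) + 1) ≤ 1 := by
    rw [div_le_one hL]
    have : (0 : ℝ) ≤ L := Nat.cast_nonneg L
    linarith
  obtain ⟨s, hs⟩ : ∃ s : ℝ, s = (1 - k') / ((L : ℝ) + 1) / 2 := ⟨_, rfl⟩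
  have hs2 : 0 < s := by rw [hs]; linarith
  have hs3 : s ≤ 1 / 2 := by rw [hs]; linarith
  refine ⟨1 - s, by linarith, by linarith, fun m hm _ => hk'.trans ?_⟩
  have h1 : (1 - s) ^ L ≤ (1 - s) ^ m := pow_le_pow_of_le_one (by linarith) (by linarith) hm
  have h2 : 1 + (L : ℝ) * (-s) ≤ (1 + -s) ^ L := one_add_mul_le_pow (by linarith) L
  have h3 : (L : ℝ) * s ≤ 1 - k' := by
    have h4 : ((L : ℝ) + 1) * ((1 - k') / ((L : ℝ) + 1)) = 1 - k' := mul_div_cancel₀ _ hL.ne'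
    have h5 : (0 : ℝ) ≤ L := Nat.cast_nonneg L
    rw [hs]
    nlinarith
  have h6 : (1 + -s) = 1 - s := by ring
  rw [h6] at h2
  linarith

private theorem sys_mono {a b : Polynomial ℂ} {C : Set ℂ} {L : ℕ} {ε ε' : ℝ} (hε : ε ≤ ε') {g ψ : ℂ → ℂ → ℂ} {l : ℂ → ℕ}
    (h : Sys a b C L ε g ψ l) : Sys a b C L ε' g ψ l where
  gu := h.gu
  gs := fun c hc w hw => (h.gs c hc w hw).trans_le hε
  pu := h.pu
  p0 := h.p0
  ps := fun c hc w hw => (h.ps c hc w hw).trans_le hε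
  l2 := h.l2
  lL := h.lL
  fp := h.fp

theorem vist {a b : Polynomial ℂ} {C : Set ℂ} (h : Hyp a b C) (h6 : J6 (rat a b)) {μ : ℂ → ℂ} (hμ : FI (rat a b) μ) {x : ℂ}
    (hx : (x : OnePoint ℂ) ∈ JS (rat a b)) (h1 : ‖μ x‖ = 1) (hac : AC μ x (μ x)) (L N : ℕ) (hN : 1 ≤ N) {k : ℝ} (hk : k < 1) :
    ∃ (L1 : ℕ) (τ : ℕ → ℝ), (∀ i, 0 < τ i ∧ τ i < 1) ∧ ∃ ε : ℝ, 0 < ε ∧ ∀ (g ψ : ℂ → ℂ → ℂ) (l : ℂ → ℕ), Sys a b C L ε g ψ l →
      NB a b C g ψ N k → ∀ T : ℂ → ℂ, Un T → (∀ w ∈ ball (0 : ℂ) 1, ‖T w - T 0‖ < ε) → Hof a b C T → NBt a b C g T N k →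
      ∀ (n : ℕ) (u : ℂ), ‖u‖ < 1 → (rat a b)^[n] (x : OnePoint ℂ) = ((T u : ℂ) : OnePoint ℂ) →
        ∃ i ≤ N, ∃ B : ℂ → ℂ, BC L1 τ i B ∧ ∃ Φ : ℂ → ℂ, Un Φ ∧ Φ 0 = x ∧
          ∀ w ∈ ball (0 : ℂ) 1, (rat a b)^[n] ((Φ w : ℂ) : OnePoint ℂ) = ((T (Me u (B w)) : ℂ) : OnePoint ℂ) := by
  obtain ⟨L1, hchn⟩ := chnT h h6
  obtain ⟨t, ht0, ht1, htk⟩ : ∃ t : ℝ, 0 < t ∧ t < 1 ∧ ∀ m : ℕ, m ≤ L → m ≠ 0 → k ≤ t ^ m := pw_ex L hk
  have htt : t < (t + 1) / 2 := by linarith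
  have ht' : (t + 1) / 2 < 1 := by linarith
  obtain ⟨ε2, hε2, hV⟩ := Pool.Agent.H56.MN.visn h h6 hμ hx h1 hac L N hN hk ht0 htt ht' htk
  have hτ : ∀ i : ℕ, 0 < (fun _ : ℕ => (1 / 2 : ℝ)) i ∧ (fun _ : ℕ => (1 / 2 : ℝ)) i < 1 := fun _ => ⟨by norm_num, by norm_num⟩
  obtain ⟨ε1, hε1, hC⟩ := hchn (fun _ => 1 / 2) hτ N
  refine ⟨L1, fun _ => 1 / 2, hτ, min ε1 ε2, lt_min hε1 hε2, ?_⟩
  intro g ψ l hS hNB T hT hTs hof hNBT n u hu hxu
  have hS2 : Sys a b C L ε2 g ψ l := sys_mono (min_le_right _ _) hS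
  have hTs1 : ∀ w ∈ ball (0 : ℂ) 1, ‖T w - T 0‖ < ε1 := fun w hw => (hTs w hw).trans_le (min_le_left _ _)
  rcases le_or_gt (kap (rat a b) (Ts T) ((x : ℂ) : OnePoint ℂ) n 0) N with hkN | hkN
  · obtain ⟨i, hi, B, hB, S, hSu, hS0, hSf⟩ := hC T hT hTs1 hof n x u hu hxu 0 (Nat.zero_le _) hkN
    exact ⟨i, hi.trans hkN, B, hB, S, hSu, OnePoint.coe_injective hS0, hSf⟩
  · have hxV : (rat a b)^[n] ((x : ℂ) : OnePoint ℂ) ∈ Ts T := by
      rw [hxu]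
      exact mem_image_of_mem _ (mem_ball_zero_iff.2 hu)
    obtain ⟨i0, hi0, hki, q, hq, hqz⟩ := nbuT h hS hN hk ht0 ht1 htk hT hof hNBT hxV hkN
    obtain ⟨i, hi, B, hB, S, hSu, hS0, hSf⟩ := hC T hT hTs1 hof n x u hu hxu i0 hi0.le hki
    obtain ⟨-, hB3, -, -⟩ := bc_bas hτ hB
    have hMe : ∀ w ∈ ball (0 : ℂ) 1, Me u (B w) ∈ ball (0 : ℂ) 1 := by
      intro w hw
      rw [mem_ball_zero_iff, me_mob]
      exact Pool.H81.MM.mob_lt hu (hB3 w hw)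
    have hA : IsPreconnected ((fun w : ℂ => ((S w : ℂ) : OnePoint ℂ)) '' ball (0 : ℂ) 1) := by
      refine (convex_ball (0 : ℂ) 1).isPreconnected.image _ ?_
      exact OnePoint.continuous_coe.comp_continuousOn hSu.1.continuousOn
    have hAs : (fun w : ℂ => ((S w : ℂ) : OnePoint ℂ)) '' ball (0 : ℂ) 1 ⊆
        CC (rat a b) (n - i0) (Ts T) ((rat a b)^[i0] ((x : ℂ) : OnePoint ℂ)) := by
      refine cc_max hA ?_ ?_
      · rw [← hS0]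
        exact mem_image_of_mem _ (mem_ball_self one_pos)
      · rintro _ ⟨w, hw, rfl⟩
        show (rat a b)^[n - i0] ((S w : ℂ) : OnePoint ℂ) ∈ Ts T
        rw [hSf w hw]
        exact mem_image_of_mem _ (hMe w hw)
    have hη : ∀ w : ℂ, ∃ v : ℂ, w ∈ ball (0 : ℂ) 1 → ‖v‖ < t ∧ S w = ψ q v := by
      intro w
      by_cases hw : w ∈ ball (0 : ℂ) 1
      · obtain ⟨v, hv1, hv2⟩ := hqz _ (hAs (mem_image_of_mem _ hw))
        exact ⟨v, fun _ => ⟨hv1, OnePoint.coe_injective hv2⟩⟩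
      · exact ⟨0, fun hw' => absurd hw' hw⟩
    choose η hη using hη
    have hηd : DifferentiableOn ℂ η (ball 0 1) :=
      un_inv (hS.pu q hq) hSu.1 fun w hw => ⟨(hη w hw).1.trans ht1, (hη w hw).2⟩
    have h00 : (0 : ℂ) ∈ ball (0 : ℂ) 1 := mem_ball_self one_pos
    obtain ⟨H', hH1, hH2, hH3⟩ := hV g ψ l hS2 hNB i0 q hq (η 0) (hη 0 h00).1 (by rw [← hS0, (hη 0 h00).2])
    have hηt : ∀ w ∈ ball (0 : ℂ) 1, η w ∈ ball (0 : ℂ) ((t + 1) / 2) := fun w hw =>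
      mem_ball_zero_iff.2 ((hη w hw).1.trans htt)
    have hΦi : ∀ w ∈ ball (0 : ℂ) 1, (rat a b)^[i0] (((H' (η w)) : ℂ) : OnePoint ℂ) = ((S w : ℂ) : OnePoint ℂ) := by
      intro w hw
      rw [hH2 _ (hηt w hw), (hη w hw).2]
    have hΦu : Un (H' ∘ η) := by
      refine ⟨hH1.comp hηd hηt, ?_⟩
      intro w hw w' hw' hww
      have h2 := hΦi w hw
      have hww' : H' (η w) = H' (η w') := hww
      rw [hww', hΦi w' hw'] at h2
      exact (hSu.2 hw' hw (OnePoint.coe_injective h2)).symm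
    refine ⟨i, hi.trans hki, B, hB, H' ∘ η, hΦu, hH3, ?_⟩
    intro w hw
    have h2 : n = (n - i0) + i0 := by omega
    conv_lhs => rw [h2, Function.iterate_add_apply]
    show (rat a b)^[n - i0] ((rat a b)^[i0] (((H' (η w)) : ℂ) : OnePoint ℂ)) = _
    rw [hΦi w hw]
    exact hSf w hw

end Pool.Agent.H56.MX
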